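import Mathlib
import Pool.Agent.Helper36.RealizeSph
set_option autoImplicit false

/-! The Haar measure of the group of unit quaternions, and its symmetries `x ↦ g x⁻¹ g`
(copied from `Pool.Agent.Helper36.UnitQuat`, with lighter imports). -/

namespace Pool.Agent.H762R3.UQ
open MeasureTheory Set Metric Quaternion TopologicalSpace
open Pool.Agent.Helper36.SphMeas Pool.Agent.Helper36.RealizeSph
open scoped RealInnerProductSpace ENNReal Quaternion

/-- the group of unit quaternions -/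
abbrev U : Type := sphere (0 : ℍ[ℝ]) 1

/-- coordinates -/
noncomputable def psi (g : U) : EuclideanSpace ℝ (Fin 4) :=
  Quaternion.linearIsometryEquivTuple (g : ℍ[ℝ])

lemma norm_coe (g : U) : ‖(g : ℍ[ℝ])‖ = 1 := by
  have := g.2
  rwa [mem_sphere_iff_norm, sub_zero] at this

lemma norm_psi (g : U) : ‖psi g‖ = 1 := by
  rw [psi, LinearIsometryEquiv.norm_map, norm_coe]

lemma psi_continuous : Continuous psi :=
  (Quaternion.linearIsometryEquivTuple).continuous.comp continuous_subtype_val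

lemma psi_injective : Function.Injective psi := fun a b h =>
  Subtype.ext ((Quaternion.linearIsometryEquivTuple).injective h)

lemma range_psi : range psi = {x | ‖x‖ = 1} := by
  ext x
  constructor
  · rintro ⟨g, rfl⟩; exact norm_psi g
  · intro hx
    refine ⟨⟨(Quaternion.linearIsometryEquivTuple).symm x, ?_⟩, ?_⟩
    · rw [mem_sphere_iff_norm, sub_zero, LinearIsometryEquiv.norm_map]; exact hx
    · exact (Quaternion.linearIsometryEquivTuple).apply_symm_apply x

/-- left multiplication by a unit quaternion -/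
noncomputable def Lmul (g : U) : ℍ[ℝ] ≃ₗᵢ[ℝ] ℍ[ℝ] where
  toFun x := (g : ℍ[ℝ]) * x
  map_add' := mul_add _
  map_smul' c x := by simp
  invFun x := ((g⁻¹ : U) : ℍ[ℝ]) * x
  left_inv x := by
    have : ((g⁻¹ : U) : ℍ[ℝ]) * (g : ℍ[ℝ]) = 1 := congrArg Subtype.val (inv_mul_cancel g)
    show ((g⁻¹ : U) : ℍ[ℝ]) * ((g : ℍ[ℝ]) * x) = x
    rw [← mul_assoc, this, one_mul]
  right_inv x := by
    have : (g : ℍ[ℝ]) * ((g⁻¹ : U) : ℍ[ℝ]) = 1 := congrArg Subtype.val (mul_inv_cancel g)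
    show (g : ℍ[ℝ]) * (((g⁻¹ : U) : ℍ[ℝ]) * x) = x
    rw [← mul_assoc, this, one_mul]
  norm_map' x := by
    show ‖(g : ℍ[ℝ]) * x‖ = ‖x‖
    rw [norm_mul, norm_coe, one_mul]

noncomputable def L4 (g : U) : EuclideanSpace ℝ (Fin 4) ≃ₗᵢ[ℝ] EuclideanSpace ℝ (Fin 4) :=
  (Quaternion.linearIsometryEquivTuple).symm.trans
    ((Lmul g).trans Quaternion.linearIsometryEquivTuple)

lemma L4_psi (g x : U) : L4 g (psi x) = psi (g * x) := by
  simp only [L4, psi, LinearIsometryEquiv.trans_apply, LinearIsometryEquiv.symm_apply_apply]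
  rfl

lemma psi_sig (g x : U) : psi (g * x⁻¹ * g) = sig (psi g) (psi x) := by
  rw [sig_apply (norm_psi g)]
  simp only [psi]
  rw [LinearIsometryEquiv.inner_map_map, ← map_smul, ← map_sub]
  congr 1
  have hx : ((x⁻¹ : U) : ℍ[ℝ]) = star (x : ℍ[ℝ]) := by
    have h1 : ((x⁻¹ : U) : ℍ[ℝ]) = ((x : ℍ[ℝ]))⁻¹ := rfl
    rw [h1]
    apply inv_eq_of_mul_eq_one_right
    rw [Quaternion.self_mul_star, Quaternion.normSq_eq_norm_mul_self, norm_coe]; simp
  have hg : star (g : ℍ[ℝ]) * (g : ℍ[ℝ]) = 1 := by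
    rw [Quaternion.star_mul_self, Quaternion.normSq_eq_norm_mul_self, norm_coe]; simp
  show (g : ℍ[ℝ]) * ((x⁻¹ : U) : ℍ[ℝ]) * (g : ℍ[ℝ]) = _
  rw [hx]
  have h2 : (g : ℍ[ℝ]) * star (x : ℍ[ℝ]) + (x : ℍ[ℝ]) * star (g : ℍ[ℝ]) =
      ((2 * ⟪(g : ℍ[ℝ]), (x : ℍ[ℝ])⟫ : ℝ) : ℍ[ℝ]) := by
    have := Quaternion.self_add_star ((g : ℍ[ℝ]) * star (x : ℍ[ℝ]))
    rw [star_mul, star_star] at this
    rw [this, Quaternion.inner_def]
    push_cast; rfl
  have h3 : (g : ℍ[ℝ]) * star (x : ℍ[ℝ]) =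
      ((2 * ⟪(g : ℍ[ℝ]), (x : ℍ[ℝ])⟫ : ℝ) : ℍ[ℝ]) - (x : ℍ[ℝ]) * star (g : ℍ[ℝ]) :=
    eq_sub_of_add_eq h2
  rw [h3, sub_mul, mul_assoc, hg, mul_one, Quaternion.coe_mul_eq_smul]

variable [MeasurableSpace U] [BorelSpace U]

lemma psi_emb : MeasurableEmbedding psi :=
  (psi_continuous.isClosedEmbedding psi_injective).measurableEmbedding

/-- the surface measure on the unit quaternions -/
noncomputable def mu4 : Measure U := (sph 4).comap psi

lemma mu4_apply (A : Set U) : mu4 A = sph 4 (psi '' A) := psi_emb.comap_apply _ _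

lemma mu4_univ : mu4 univ = 1 := by
  rw [mu4_apply, image_univ, range_psi]
  have := sph_prob (d := 4) (by norm_num)
  have hm : MeasurableSet {x : EuclideanSpace ℝ (Fin 4) | ‖x‖ = 1} :=
    measurableSet_eq_fun measurable_norm measurable_const
  exact (mem_ae_iff_prob_eq_one hm).1 sph_ae

lemma mu4_inv (g : U) : Measure.map (fun x => g * x) mu4 = mu4 := by
  ext A hA
  have hmeas : Measurable (fun x : U => g * x) := (continuous_const.mul continuous_id).measurable
  rw [Measure.map_apply hmeas hA, mu4_apply, mu4_apply]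
  have h1 : psi '' ((fun x => g * x) ⁻¹' A) = (L4 g) ⁻¹' (psi '' A) := by
    ext y
    constructor
    · rintro ⟨x, hx, rfl⟩
      rw [mem_preimage, L4_psi]
      exact ⟨g * x, hx, rfl⟩
    · rintro ⟨a, ha, hay⟩
      refine ⟨g⁻¹ * a, ?_, ?_⟩
      · rw [mem_preimage, mul_inv_cancel_left]; exact ha
      · apply (L4 g).injective
        rw [L4_psi, mul_inv_cancel_left, hay]
  rw [h1]
  exact (sph_inv (L4 g)).measure_preimage (psi_emb.measurableSet_image.2 hA).nullMeasurableSet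

instance : Measure.IsMulLeftInvariant (mu4 : Measure U) := ⟨mu4_inv⟩

instance : IsProbabilityMeasure (mu4 : Measure U) := ⟨mu4_univ⟩

/-- the surface measure is Haar measure -/
theorem haar_eq : Measure.haarMeasure (⊤ : PositiveCompacts U) = mu4 := by
  have h := Measure.haarMeasure_unique (mu4 : Measure U) (⊤ : PositiveCompacts U)
  rw [PositiveCompacts.coe_top, mu4_univ, one_smul] at h
  exact h.symm

end Pool.Agent.H762R3.UQ
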