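import Mathlib
import Pool.Agent.H762R3.UQ
set_option autoImplicit false

/-! The double cover of `SO(3)` by the unit quaternions. -/

namespace Pool.Agent.H762R3.Rot

open Set Metric Quaternion Matrix
open Pool.Agent.H762R3.UQ
open scoped Quaternion

/-- the special orthogonal group of `ℝ³` -/
abbrev SO3 : Type := Matrix.specialOrthogonalGroup (Fin 3) ℝ

lemma mem_iff (A : Matrix (Fin 3) (Fin 3) ℝ) :
    A ∈ Matrix.specialOrthogonalGroup (Fin 3) ℝ ↔ A * Aᵀ = 1 ∧ A.det = 1 := by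
  rw [Matrix.mem_specialOrthogonalGroup_iff, Matrix.mem_orthogonalGroup_iff]

/-- the rotation matrix of a quaternion -/
def rotM (q : ℍ[ℝ]) : Matrix (Fin 3) (Fin 3) ℝ :=
  !![q.re ^ 2 + q.imI ^ 2 - q.imJ ^ 2 - q.imK ^ 2, 2 * (q.imI * q.imJ - q.re * q.imK),
      2 * (q.imI * q.imK + q.re * q.imJ);
     2 * (q.imI * q.imJ + q.re * q.imK), q.re ^ 2 - q.imI ^ 2 + q.imJ ^ 2 - q.imK ^ 2,
      2 * (q.imJ * q.imK - q.re * q.imI);
     2 * (q.imI * q.imK - q.re * q.imJ), 2 * (q.imJ * q.imK + q.re * q.imI),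
      q.re ^ 2 - q.imI ^ 2 - q.imJ ^ 2 + q.imK ^ 2]

lemma rotM_mul (p q : ℍ[ℝ]) : rotM (p * q) = rotM p * rotM q := by
  ext i j
  fin_cases i <;> fin_cases j <;>
    simp [rotM, Matrix.mul_apply, Fin.sum_univ_three] <;> ring

lemma rotM_transpose (q : ℍ[ℝ]) : rotM q * (rotM q)ᵀ =
    ((q.re ^ 2 + q.imI ^ 2 + q.imJ ^ 2 + q.imK ^ 2) ^ 2) • (1 : Matrix (Fin 3) (Fin 3) ℝ) := by
  ext i j
  fin_cases i <;> fin_cases j <;>
    simp [rotM, Matrix.mul_apply, Fin.sum_univ_three] <;> ring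

lemma rotM_det (q : ℍ[ℝ]) : (rotM q).det =
    (q.re ^ 2 + q.imI ^ 2 + q.imJ ^ 2 + q.imK ^ 2) ^ 3 := by
  rw [Matrix.det_fin_three]
  simp [rotM]
  ring

lemma unit_eq (u : U) : (u : ℍ[ℝ]).re ^ 2 + (u : ℍ[ℝ]).imI ^ 2 + (u : ℍ[ℝ]).imJ ^ 2 +
    (u : ℍ[ℝ]).imK ^ 2 = 1 := by
  have h := norm_coe u
  have h2 : normSq (u : ℍ[ℝ]) = 1 := by
    rw [Quaternion.normSq_eq_norm_mul_self, h]; norm_num
  rwa [Quaternion.normSq_def'] at h2

lemma unit_of (q : ℍ[ℝ]) (h : q.re ^ 2 + q.imI ^ 2 + q.imJ ^ 2 + q.imK ^ 2 = 1) :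
    q ∈ sphere (0 : ℍ[ℝ]) 1 := by
  rw [mem_sphere_iff_norm, sub_zero]
  have h2 : normSq q = 1 := by rw [Quaternion.normSq_def']; exact h
  rw [Quaternion.normSq_eq_norm_mul_self] at h2
  nlinarith [norm_nonneg q]

lemma rotM_mem (u : U) : rotM (u : ℍ[ℝ]) ∈ Matrix.specialOrthogonalGroup (Fin 3) ℝ := by
  rw [mem_iff, rotM_transpose, rotM_det, unit_eq]
  simp

/-- the double cover -/
def rho (u : U) : SO3 := ⟨rotM (u : ℍ[ℝ]), rotM_mem u⟩

lemma rho_mul (u v : U) : rho (u * v) = rho u * rho v :=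
  Subtype.ext (rotM_mul (u : ℍ[ℝ]) (v : ℍ[ℝ]))

lemma rho_one : rho 1 = 1 := by
  apply Subtype.ext
  show rotM ((1 : U) : ℍ[ℝ]) = 1
  have : ((1 : U) : ℍ[ℝ]) = 1 := rfl
  rw [this]
  ext i j
  fin_cases i <;> fin_cases j <;> simp [rotM]

lemma rho_inv (u : U) : rho u⁻¹ = (rho u)⁻¹ := by
  apply eq_inv_of_mul_eq_one_left
  rw [← rho_mul, inv_mul_cancel, rho_one]

lemma rho_neg (u : U) : rho (-u) = rho u := by
  apply Subtype.ext
  show rotM ((-u : U) : ℍ[ℝ]) = rotM (u : ℍ[ℝ])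
  have : ((-u : U) : ℍ[ℝ]) = -(u : ℍ[ℝ]) := rfl
  rw [this]
  simp [rotM]

lemma rho_continuous : Continuous rho := by
  refine Continuous.subtype_mk ?_ _
  refine continuous_matrix fun i j => ?_
  have h0 : Continuous fun u : U => (u : ℍ[ℝ]).re :=
    Quaternion.continuous_re.comp continuous_subtype_val
  have h1 : Continuous fun u : U => (u : ℍ[ℝ]).imI :=
    Quaternion.continuous_imI.comp continuous_subtype_val
  have h2 : Continuous fun u : U => (u : ℍ[ℝ]).imJ :=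
    Quaternion.continuous_imJ.comp continuous_subtype_val
  have h3 : Continuous fun u : U => (u : ℍ[ℝ]).imK :=
    Quaternion.continuous_imK.comp continuous_subtype_val
  fin_cases i <;> fin_cases j <;> simp [rotM] <;> fun_prop

lemma rho_eq_one {u : U} (h : rho u = 1) : u = 1 ∨ u = -1 := by
  have h1 : rotM (u : ℍ[ℝ]) = 1 := congrArg Subtype.val h
  have h2 := unit_eq u
  have e00 := congrFun (congrFun h1 0) 0
  have e11 := congrFun (congrFun h1 1) 1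
  simp [rotM] at e00 e11
  have hJK : (u : ℍ[ℝ]).imJ ^ 2 + (u : ℍ[ℝ]).imK ^ 2 = 0 := by linarith
  have hJ : (u : ℍ[ℝ]).imJ = 0 := by nlinarith [sq_nonneg (u : ℍ[ℝ]).imJ, sq_nonneg (u : ℍ[ℝ]).imK]
  have hK : (u : ℍ[ℝ]).imK = 0 := by nlinarith [sq_nonneg (u : ℍ[ℝ]).imJ, sq_nonneg (u : ℍ[ℝ]).imK]
  have hI : (u : ℍ[ℝ]).imI = 0 := by
    rw [hJ, hK] at e11 h2
    nlinarith [sq_nonneg (u : ℍ[ℝ]).imI]
  have hR : (u : ℍ[ℝ]).re ^ 2 = 1 := by
    rw [hJ, hK, hI] at h2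
    linarith
  have hR' : (u : ℍ[ℝ]).re = 1 ∨ (u : ℍ[ℝ]).re = -1 := by
    have : ((u : ℍ[ℝ]).re - 1) * ((u : ℍ[ℝ]).re + 1) = 0 := by linarith
    rcases mul_eq_zero.1 this with h4 | h4
    · left; linarith
    · right; linarith
  rcases hR' with h3 | h3
  · left
    apply Subtype.ext
    show (u : ℍ[ℝ]) = 1
    ext <;> simp [h3, hI, hJ, hK]
  · right
    apply Subtype.ext
    show (u : ℍ[ℝ]) = -1
    ext <;> simp [h3, hI, hJ, hK]

lemma rho_eq {u v : U} (h : rho u = rho v) : u = v ∨ u = -v := by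
  have h1 : rho (u * v⁻¹) = 1 := by rw [rho_mul, rho_inv, h, mul_inv_cancel]
  rcases rho_eq_one h1 with h2 | h2
  · left
    exact mul_inv_eq_one.1 h2
  · right
    have h3 : u = (-1) * v := by rw [← h2, inv_mul_cancel_right]
    rw [h3]
    apply Subtype.ext
    show (-1 : ℍ[ℝ]) * (v : ℍ[ℝ]) = -(v : ℍ[ℝ])
    rw [neg_one_mul]

lemma half3 {x y z : ℝ} (h : x ^ 2 + y ^ 2 + z ^ 2 = 1) :
    ∃ a c d : ℝ, a ^ 2 + c ^ 2 + d ^ 2 = 1 ∧ a ^ 2 - c ^ 2 - d ^ 2 = x ∧ 2 * a * d = y ∧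
      -(2 * a * c) = z := by
  by_cases hx : x = -1
  · have hy : y = 0 := by rw [hx] at h; nlinarith [sq_nonneg y, sq_nonneg z]
    have hz : z = 0 := by rw [hx] at h; nlinarith [sq_nonneg y, sq_nonneg z]
    exact ⟨0, 1, 0, by norm_num, by rw [hx]; norm_num, by rw [hy]; norm_num,
      by rw [hz]; norm_num⟩
  · have hx1 : -1 < x := by
      refine lt_of_le_of_ne ?_ (Ne.symm hx)
      nlinarith [sq_nonneg y, sq_nonneg z, sq_nonneg (x + 1)]
    set a := √((1 + x) / 2) with ha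
    have hapos : 0 < a := Real.sqrt_pos.2 (by linarith)
    have ha2 : a ^ 2 = (1 + x) / 2 := Real.sq_sqrt (by linarith)
    have hsum : (-z / (2 * a)) ^ 2 + (y / (2 * a)) ^ 2 = (1 - x) / 2 := by
      have e : (-z / (2 * a)) ^ 2 + (y / (2 * a)) ^ 2 = (y ^ 2 + z ^ 2) / (4 * a ^ 2) := by
        field_simp; ring
      rw [e, ha2]
      have h1 : y ^ 2 + z ^ 2 = (1 - x) * (1 + x) := by linarith
      rw [h1]
      have : 1 + x ≠ 0 := by linarith
      field_simp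
      ring
    refine ⟨a, -z / (2 * a), y / (2 * a), ?_, ?_, ?_, ?_⟩
    · linarith
    · linarith
    · field_simp
    · field_simp

lemma half2 {x y : ℝ} (h : x ^ 2 + y ^ 2 = 1) :
    ∃ a b : ℝ, a ^ 2 + b ^ 2 = 1 ∧ a ^ 2 - b ^ 2 = x ∧ 2 * a * b = y := by
  obtain ⟨a, c, d, h1, h2, h3, h4⟩ := half3 (x := x) (y := y) (z := 0) (by rw [← h]; ring)
  by_cases ha : a = 0
  · refine ⟨0, 1, by norm_num, ?_, ?_⟩
    · rw [ha] at h1 h2; linarith
    · rw [ha] at h3; linarith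
  · have hc : c = 0 := by
      have : a * c = 0 := by linarith
      rcases mul_eq_zero.1 this with h5 | h5
      · exact absurd h5 ha
      · exact h5
    rw [hc] at h1 h2
    exact ⟨a, d, by linarith, by linarith, h3⟩

lemma entries (A : SO3) (i j : Fin 3) :
    A.1 i 0 * A.1 j 0 + A.1 i 1 * A.1 j 1 + A.1 i 2 * A.1 j 2 = if i = j then 1 else 0 := by
  have h := ((mem_iff A.1).1 A.2).1
  have := congrFun (congrFun h i) j
  rw [Matrix.mul_apply, Fin.sum_univ_three, Matrix.one_apply] at this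
  exact this

lemma entries' (A : SO3) (i j : Fin 3) :
    A.1 0 i * A.1 0 j + A.1 1 i * A.1 1 j + A.1 2 i * A.1 2 j = if i = j then 1 else 0 := by
  have h := ((mem_iff A.1).1 A.2).1
  have h2 : (A.1)ᵀ * A.1 = 1 := mul_eq_one_comm.1 h
  have := congrFun (congrFun h2 i) j
  rw [Matrix.mul_apply, Fin.sum_univ_three, Matrix.one_apply] at this
  exact this

lemma surj_fix (B : SO3) (h0 : B.1 0 0 = 1) (h1 : B.1 1 0 = 0) (h2 : B.1 2 0 = 0) :
    ∃ u : U, rho u = B := by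
  have e00 := entries B 0 0
  have e11 := entries B 1 1
  have e22 := entries B 2 2
  have hdet := ((mem_iff B.1).1 B.2).2
  rw [Matrix.det_fin_three] at hdet
  simp only [if_true, h0, h1, h2] at e00 e11 e22 hdet
  have h01 : B.1 0 1 = 0 := by nlinarith [sq_nonneg (B.1 0 1), sq_nonneg (B.1 0 2)]
  have h02 : B.1 0 2 = 0 := by nlinarith [sq_nonneg (B.1 0 1), sq_nonneg (B.1 0 2)]
  rw [h01, h02] at hdet
  have hs : (B.1 1 1 - B.1 2 2) ^ 2 + (B.1 1 2 + B.1 2 1) ^ 2 = 0 := by nlinarith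
  have hx : B.1 2 2 = B.1 1 1 := by
    nlinarith [sq_nonneg (B.1 1 1 - B.1 2 2), sq_nonneg (B.1 1 2 + B.1 2 1)]
  have hy : B.1 1 2 = -B.1 2 1 := by
    nlinarith [sq_nonneg (B.1 1 1 - B.1 2 2), sq_nonneg (B.1 1 2 + B.1 2 1)]
  obtain ⟨a, b, k1, k2, k3⟩ := half2 (x := B.1 1 1) (y := B.1 2 1) (by
    rw [hy] at e11; nlinarith)
  refine ⟨⟨⟨a, b, 0, 0⟩, unit_of _ (by simp; exact k1)⟩, ?_⟩
  apply Subtype.ext
  show rotM ⟨a, b, 0, 0⟩ = B.1
  ext i j
  fin_cases i <;> fin_cases j <;> simp [rotM, h0, h1, h2, h01, h02, hx, hy] <;> linarith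

lemma rho_surj : Function.Surjective rho := by
  intro A
  obtain ⟨a, c, d, h1, h2, h3, h4⟩ := half3 (x := A.1 0 0) (y := A.1 1 0) (z := A.1 2 0) (by
    have := entries' A 0 0
    simp only [if_true] at this
    linarith)
  set u : U := ⟨⟨a, 0, c, d⟩, unit_of _ (by simp; exact h1)⟩ with hu
  have hu0 : (rho u).1 0 0 = A.1 0 0 := by
    show rotM ⟨a, 0, c, d⟩ 0 0 = _
    simp [rotM]; linarith
  have hu1 : (rho u).1 1 0 = A.1 1 0 := by
    show rotM ⟨a, 0, c, d⟩ 1 0 = _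
    simp [rotM]; linarith
  have hu2 : (rho u).1 2 0 = A.1 2 0 := by
    show rotM ⟨a, 0, c, d⟩ 2 0 = _
    simp [rotM]; linarith
  have hcol : ∀ i, ((rho u)⁻¹ * A).1 i 0 = if i = 0 then 1 else 0 := by
    intro i
    have e1 : ((rho u)⁻¹ * A).1 = ((rho u).1)ᵀ * A.1 := rfl
    rw [e1, Matrix.mul_apply, Fin.sum_univ_three]
    simp only [Matrix.transpose_apply]
    rw [← hu0, ← hu1, ← hu2]
    exact entries' (rho u) i 0
  obtain ⟨v, hv⟩ := surj_fix ((rho u)⁻¹ * A) (by rw [hcol]; rfl) (by rw [hcol]; rfl)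
    (by rw [hcol]; rfl)
  refine ⟨u * v, ?_⟩
  rw [rho_mul, hv, mul_inv_cancel_left]

instance : ContinuousInv SO3 := by
  refine ⟨?_⟩
  refine Continuous.subtype_mk ?_ _
  exact (Continuous.matrix_transpose continuous_subtype_val)

instance : IsTopologicalGroup SO3 where

instance : CompactSpace SO3 := by
  rw [← isCompact_univ_iff, ← rho_surj.range_eq]
  exact isCompact_range rho_continuous

end Pool.Agent.H762R3.Rot
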