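import Mathlib

set_option autoImplicit false

namespace Pool.Agent.H762R3.AddComp

open Finset Pointwise

/-! ### Walsh transform on `𝔽₂^(2j)` -/

/-- the character of `ZMod 2` with integer values. -/
def chi (a : ZMod 2) : ℤ := if a = 0 then 1 else -1

lemma chi_add (a b : ZMod 2) : chi (a + b) = chi a * chi b := by
  revert a b; decide

lemma chi_zero : chi 0 = 1 := by decide

lemma chi_add_one (a : ZMod 2) : chi (a + 1) = - chi a := by
  revert a; decide

/-- coordinates are indexed by `V j = 𝔽₂^(2j)`. -/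
abbrev V (j : ℕ) : Type := Fin (2 * j) → ZMod 2

lemma card_V (j : ℕ) : Fintype.card (V j) = 4 ^ j := by
  simp only [V, Fintype.card_fun, ZMod.card, Fintype.card_fin]
  rw [pow_mul]
  norm_num

/-- scalar product -/
def dot {j : ℕ} (a e : V j) : ZMod 2 := ∑ i, a i * e i

lemma dot_add_right {j : ℕ} (a e e' : V j) : dot a (e + e') = dot a e + dot a e' := by
  simp only [dot, Pi.add_apply, mul_add, Finset.sum_add_distrib]

lemma dot_add_left {j : ℕ} (a a' e : V j) : dot (a + a') e = dot a e + dot a' e := by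
  simp only [dot, Pi.add_apply, add_mul, Finset.sum_add_distrib]

lemma dot_single {j : ℕ} (i : Fin (2 * j)) (e : V j) : dot (Pi.single i 1) e = e i := by
  simp [dot, Pi.single_apply]

lemma dot_single_right {j : ℕ} (i : Fin (2 * j)) (a : V j) : dot a (Pi.single i 1) = a i := by
  simp [dot, Pi.single_apply]

lemma dot_zero_right {j : ℕ} (a : V j) : dot a 0 = 0 := by
  simp [dot]

/-- orthogonality -/
lemma orth {j : ℕ} (v : V j) : ∑ a : V j, chi (dot a v) = if v = 0 then (4 : ℤ) ^ j else 0 := by
  split_ifs with h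
  · subst h
    simp only [dot_zero_right, chi_zero, Finset.sum_const, Finset.card_univ, card_V, nsmul_eq_mul,
      mul_one]
    push_cast
    ring
  · have : ∃ i, v i ≠ 0 := by
      by_contra hcon
      push Not at hcon
      exact h (funext hcon)
    obtain ⟨i, hi⟩ := this
    have hi1 : v i = 1 := by
      have : ∀ z : ZMod 2, z ≠ 0 → z = 1 := by decide
      exact this _ hi
    have h1 : ∑ a : V j, chi (dot a v) = ∑ a : V j, chi (dot (a + Pi.single i 1) v) :=
      (Equiv.sum_comp (Equiv.addRight (Pi.single i 1 : V j)) (fun a => chi (dot a v))).symm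
    have h2 : ∑ a : V j, chi (dot (a + Pi.single i 1) v) = - ∑ a : V j, chi (dot a v) := by
      rw [← Finset.sum_neg_distrib]
      apply Finset.sum_congr rfl
      intro a _
      rw [dot_add_left, dot_single, hi1, chi_add_one]
    linarith

/-- Walsh coefficient -/
def W {j : ℕ} (x : V j → ZMod 2) (a : V j) : ℤ := ∑ e : V j, chi (x e + dot a e)

lemma parseval {j : ℕ} (x : V j → ZMod 2) : ∑ a : V j, W x a ^ 2 = (4 : ℤ) ^ j * 4 ^ j := by
  have h1 : ∀ a : V j, W x a ^ 2 = ∑ e : V j, ∑ e' : V j, chi (x e + x e') * chi (dot a (e + e')) := by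
    intro a
    rw [sq, W, Finset.sum_mul_sum]
    apply Finset.sum_congr rfl
    intro e _
    apply Finset.sum_congr rfl
    intro e' _
    rw [dot_add_right, ← chi_add, ← chi_add]
    congr 1
    ring
  simp only [h1]
  rw [Finset.sum_comm]
  have h2 : ∀ e : V j, ∑ a : V j, ∑ e' : V j, chi (x e + x e') * chi (dot a (e + e')) =
      (4 : ℤ) ^ j := by
    intro e
    rw [Finset.sum_comm]
    have h3 : ∀ e' : V j, ∑ a : V j, chi (x e + x e') * chi (dot a (e + e')) =
        if e' = e then (4 : ℤ) ^ j else 0 := by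
      intro e'
      rw [← Finset.mul_sum, orth]
      have hz : e + e' = 0 ↔ e' = e := by
        constructor
        · intro h
          have : e' = -e := by
            rw [eq_neg_iff_add_eq_zero, add_comm]
            exact h
          rw [this]
          funext i
          exact ZMod.neg_eq_self_mod_two _
        · rintro rfl
          funext i
          exact CharTwo.add_self_eq_zero _
      by_cases h : e' = e
      · rw [if_pos (hz.mpr h), if_pos h, h, CharTwo.add_self_eq_zero, chi_zero, one_mul]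
      · rw [if_neg (fun h' => h (hz.mp h')), if_neg h, mul_zero]
    rw [Finset.sum_congr rfl (fun e' _ => h3 e'), Finset.sum_ite_eq']
    simp
  rw [Finset.sum_congr rfl (fun e _ => h2 e), Finset.sum_const, Finset.card_univ, card_V,
    nsmul_eq_mul]
  push_cast
  ring

lemma exists_large {j : ℕ} (x : V j → ZMod 2) : ∃ a : V j, (2 : ℤ) ^ j ≤ |W x a| := by
  by_contra hcon
  push Not at hcon
  have h1 : ∑ a : V j, W x a ^ 2 < ∑ _a : V j, (4 : ℤ) ^ j := by
    apply Finset.sum_lt_sum_of_nonempty Finset.univ_nonempty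
    intro a _
    have h := hcon a
    have : W x a ^ 2 < ((2 : ℤ) ^ j) ^ 2 := by
      rw [← sq_abs]
      exact pow_lt_pow_left₀ h (abs_nonneg _) (by norm_num)
    calc W x a ^ 2 < ((2 : ℤ) ^ j) ^ 2 := this
      _ = (4 : ℤ) ^ j := by
        rw [← pow_mul, mul_comm, pow_mul]
        norm_num
  rw [parseval, Finset.sum_const, Finset.card_univ, card_V, nsmul_eq_mul] at h1
  push_cast at h1
  exact lt_irrefl _ h1

lemma W_eq {j : ℕ} (x : V j → ZMod 2) (a : V j) :
    W x a = (4 : ℤ) ^ j - 2 * ((univ.filter (fun e : V j => x e + dot a e ≠ 0)).card : ℤ) := by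
  have h1 : ∀ e : V j, chi (x e + dot a e) = 1 - 2 * (if x e + dot a e ≠ 0 then 1 else 0) := by
    intro e
    unfold chi
    by_cases h : x e + dot a e = 0 <;> simp [h]
  rw [W, Finset.sum_congr rfl (fun e _ => h1 e), Finset.sum_sub_distrib, ← Finset.mul_sum,
    Finset.sum_const, Finset.card_univ, card_V, Finset.card_filter]
  push_cast
  simp

/-- every function on `𝔽₂^(2j)` is at distance at most `(4^j - 2^j)/2` from an affine function -/
lemma covering {j : ℕ} (x : V j → ZMod 2) : ∃ (a : V j) (ε : ZMod 2),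
    2 * (univ.filter (fun e : V j => x e + (dot a e + ε) ≠ 0)).card + 2 ^ j ≤ 4 ^ j := by
  obtain ⟨a, ha⟩ := exists_large x
  rw [W_eq] at ha
  set c := (univ.filter (fun e : V j => x e + dot a e ≠ 0)).card with hc
  have htot : c + (univ.filter (fun e : V j => x e + (dot a e + 1) ≠ 0)).card = 4 ^ j := by
    rw [hc, ← card_V, ← Finset.card_univ]
    rw [← Finset.card_filter_add_card_filter_not (s := univ) (fun e : V j => x e + dot a e ≠ 0)]
    congr 2
    ext e
    simp only [Finset.mem_filter, Finset.mem_univ, true_and]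
    have : ∀ u v : ZMod 2, (u + (v + 1) ≠ 0 ↔ ¬ (u + v ≠ 0)) := by decide
    exact this _ _
  rcases le_abs.mp ha with h | h
  · refine ⟨a, 0, ?_⟩
    simp only [add_zero]
    rw [← hc]
    have : (2 : ℤ) * c + 2 ^ j ≤ 4 ^ j := by linarith
    exact_mod_cast this
  · refine ⟨a, 1, ?_⟩
    have h2 : ((univ.filter (fun e : V j => x e + (dot a e + 1) ≠ 0)).card : ℤ) = 4 ^ j - c := by
      have : (c : ℤ) + ((univ.filter (fun e : V j => x e + (dot a e + 1) ≠ 0)).card : ℤ) = 4 ^ j := by
        exact_mod_cast htot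
      linarith
    have : (2 : ℤ) * ((univ.filter (fun e : V j => x e + (dot a e + 1) ≠ 0)).card : ℤ) + 2 ^ j
        ≤ 4 ^ j := by
      rw [h2]
      linarith
    exact_mod_cast this

/-! ### the set and its additive complement -/

/-- the space -/
abbrev F2 (n : ℕ) : Type := Fin n → ZMod 2

/-- number of nonzero coordinates among the coordinates `ι e` -/
def wt {n j : ℕ} (ι : V j ↪ Fin n) (x : F2 n) : ℕ := (univ.filter (fun e : V j => x (ι e) ≠ 0)).card

/-- the Hamming ball of radius `(4^j - 2^j)/2` in the coordinates `ι e` -/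
def A {n j : ℕ} (ι : V j ↪ Fin n) : Set (F2 n) := {x | 2 * wt ι x + 2 ^ j ≤ 4 ^ j}

/-- affine functions -/
noncomputable def s {n j : ℕ} (ι : V j ↪ Fin n) (q : V j × ZMod 2) : F2 n :=
  Function.extend ι (fun e => dot q.1 e + q.2) 0

lemma s_apply {n j : ℕ} (ι : V j ↪ Fin n) (q : V j × ZMod 2) (e : V j) :
    s ι q (ι e) = dot q.1 e + q.2 := by
  unfold s
  rw [ι.injective.extend_apply]

lemma s_injective {n j : ℕ} (ι : V j ↪ Fin n) : Function.Injective (s ι) := by
  rintro ⟨a, ε⟩ ⟨a', ε'⟩ h
  have h1 : ∀ e : V j, dot a e + ε = dot a' e + ε' := by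
    intro e
    have := congrFun h (ι e)
    rw [s_apply, s_apply] at this
    exact this
  have h0 : ε = ε' := by
    have := h1 0
    simpa [dot_zero_right] using this
  subst h0
  have h2 : a = a' := by
    funext i
    have := h1 (Pi.single i 1)
    rw [dot_single_right, dot_single_right] at this
    exact add_right_cancel this
  rw [h2]

/-- the additive complement -/
noncomputable def S {n j : ℕ} (ι : V j ↪ Fin n) : Finset (F2 n) := Finset.univ.map ⟨s ι, s_injective ι⟩

lemma card_S {n j : ℕ} (ι : V j ↪ Fin n) : (S ι).card = 2 * 4 ^ j := by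
  rw [S, Finset.card_map, Finset.card_univ, Fintype.card_prod, card_V, ZMod.card, mul_comm]

lemma A_add_S {n j : ℕ} (ι : V j ↪ Fin n) : A ι + (S ι : Set (F2 n)) = Set.univ := by
  rw [Set.eq_univ_iff_forall]
  intro x
  obtain ⟨a, ε, h⟩ := covering (fun e : V j => x (ι e))
  rw [Set.mem_add]
  refine ⟨x + s ι (a, ε), ?_, s ι (a, ε), ?_, ?_⟩
  · show 2 * wt ι (x + s ι (a, ε)) + 2 ^ j ≤ 4 ^ j
    unfold wt
    simp only [Pi.add_apply, s_apply]
    exact h
  · simp [S]
  · funext i
    simp only [Pi.add_apply]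
    rw [add_assoc, CharTwo.add_self_eq_zero, add_zero]

lemma wt_add {n j : ℕ} (ι : V j ↪ Fin n) (x y : F2 n) : wt ι (x + y) ≤ wt ι x + wt ι y := by
  unfold wt
  refine le_trans (Finset.card_le_card ?_) (Finset.card_union_le _ _)
  intro e he
  simp only [Finset.mem_filter, Finset.mem_univ, true_and, Finset.mem_union, Pi.add_apply] at he ⊢
  by_contra hcon
  push Not at hcon
  apply he
  rw [hcon.1, hcon.2, add_zero]

lemma wt_of_mem {n j : ℕ} (ι : V j ↪ Fin n) {x : F2 n} (hx : x ∈ A ι + A ι) :
    wt ι x + 2 ^ j ≤ 4 ^ j := by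
  rw [Set.mem_add] at hx
  obtain ⟨a, ha, b, hb, rfl⟩ := hx
  have h1 : 2 * wt ι a + 2 ^ j ≤ 4 ^ j := ha
  have h2 : 2 * wt ι b + 2 ^ j ≤ 4 ^ j := hb
  have := wt_add ι a b
  omega

/-- a coset of codimension `d` contains a vector with at most `d` zeros among the coordinates `ι e` -/
lemma exists_heavy {n j : ℕ} (ι : V j ↪ Fin n) (x : F2 n) (U : Submodule (ZMod 2) (F2 n)) :
    ∃ v ∈ U, 4 ^ j + Module.finrank (ZMod 2) U ≤ wt ι (x + v) + n := by
  classical
  obtain ⟨⟨v, hv⟩, -, hmax⟩ := Finset.exists_max_image (Finset.univ : Finset U)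
    (fun v => wt ι (x + (v : F2 n))) ⟨0, Finset.mem_univ _⟩
  refine ⟨v, hv, ?_⟩
  by_contra hcon
  push Not at hcon
  -- the zero coordinates
  let Z : Finset (V j) := univ.filter (fun e => (x + v) (ι e) = 0)
  have hZ : wt ι (x + v) + Z.card = 4 ^ j := by
    rw [← card_V, ← Finset.card_univ, add_comm]
    exact Finset.card_filter_add_card_filter_not (s := univ) (fun e : V j => (x + v) (ι e) = 0)
  let R : Finset (Fin n) := univ \ Z.map ι
  have hR : R.card + Z.card = n := by
    have h1 : R.card = n - Z.card := by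
      rw [Finset.card_sdiff_of_subset (Finset.subset_univ _), Finset.card_map, Finset.card_univ,
        Fintype.card_fin]
    have h2 : Z.card ≤ n := by
      calc Z.card = (Z.map ι).card := (Finset.card_map _).symm
        _ ≤ Fintype.card (Fin n) := Finset.card_le_univ _
        _ = n := Fintype.card_fin n
    omega
  let f : U →ₗ[ZMod 2] (R → ZMod 2) :=
    (LinearMap.funLeft (ZMod 2) (ZMod 2) (fun r : R => (r : Fin n))).comp U.subtype
  have hker : LinearMap.ker f ≠ ⊥ := by
    apply LinearMap.ker_ne_bot_of_finrank_lt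
    rw [Module.finrank_fintype_fun_eq_card, Fintype.card_coe]
    omega
  obtain ⟨⟨w, hw⟩, hwk, hw0⟩ := Submodule.exists_mem_ne_zero_of_ne_bot hker
  have hwR : ∀ r ∈ R, w r = 0 := by
    intro r hr
    have := congrFun (LinearMap.mem_ker.mp hwk) ⟨r, hr⟩
    simpa [f, LinearMap.funLeft_apply] using this
  have hw0' : w ≠ 0 := by
    intro h
    exact hw0 (Subtype.ext h)
  obtain ⟨r, hr⟩ : ∃ r, w r ≠ 0 := by
    by_contra hcon'
    push Not at hcon'
    exact hw0' (funext hcon')
  have hrZ : r ∈ Z.map ι := by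
    by_contra hcon'
    exact hr (hwR r (by simp only [R, Finset.mem_sdiff, Finset.mem_univ, true_and]; exact hcon'))
  obtain ⟨e0, he0, rfl⟩ := Finset.mem_map.mp hrZ
  have hstrict : wt ι (x + v) < wt ι (x + (v + w)) := by
    unfold wt
    apply Finset.card_lt_card
    rw [Finset.ssubset_iff_of_subset]
    · refine ⟨e0, ?_, ?_⟩
      · simp only [Finset.mem_filter, Finset.mem_univ, true_and, Pi.add_apply]
        have h1 : (x + v) (ι e0) = 0 := (Finset.mem_filter.mp he0).2
        rw [Pi.add_apply] at h1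
        rw [← add_assoc, h1, zero_add]
        exact hr
      · have h1 : (x + v) (ι e0) = 0 := (Finset.mem_filter.mp he0).2
        intro hmem
        exact (Finset.mem_filter.mp hmem).2 h1
    · intro e he
      simp only [Finset.mem_filter, Finset.mem_univ, true_and] at he ⊢
      have heZ : e ∉ Z := by
        simp only [Z, Finset.mem_filter, Finset.mem_univ, true_and]
        exact he
      have hwe : w (ι e) = 0 := by
        apply hwR
        simp only [R, Finset.mem_sdiff, Finset.mem_univ, true_and, Finset.mem_map']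
        exact heZ
      have : (x + (v + w)) (ι e) = (x + v) (ι e) := by
        simp only [Pi.add_apply, hwe, add_zero]
      rw [this]
      exact he
  have := hmax ⟨v + w, U.add_mem hv hw⟩ (Finset.mem_univ _)
  simp only at this
  omega

/-- main construction -/
theorem main (j n : ℕ) (hn : 4 ^ j ≤ n) : ∃ (A : Set (F2 n)) (S : Finset (F2 n)),
    S.card = 2 * 4 ^ j ∧ A + (S : Set (F2 n)) = Set.univ ∧
    ∀ (x : F2 n) (U : Submodule (ZMod 2) (F2 n)), (∀ v ∈ U, x + v ∈ A + A) →
      Module.finrank (ZMod 2) U + 2 ^ j ≤ n := by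
  have hcard : Fintype.card (V j) ≤ Fintype.card (Fin n) := by
    rw [card_V, Fintype.card_fin]
    exact hn
  obtain ⟨ι⟩ := Function.Embedding.nonempty_of_card_le hcard
  refine ⟨A ι, S ι, card_S ι, A_add_S ι, ?_⟩
  intro x U hU
  obtain ⟨v, hv, h⟩ := exists_heavy ι x U
  have := wt_of_mem ι (hU v hv)
  omega

end Pool.Agent.H762R3.AddComp
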