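import Mathlib
set_option autoImplicit false

/-! Polar coordinates in `ℝ⁴` and the squaring map of the quaternions. -/

namespace Pool.Agent.H762R3.SqLaw

open MeasureTheory Measure Set Metric
open scoped RealInnerProductSpace ENNReal

/-- four-dimensional Euclidean space -/
abbrev E4 : Type := EuclideanSpace ℝ (Fin 4)

lemma sphere_hom_apply (x : ({0}ᶜ : Set E4)) :
    ((homeomorphUnitSphereProd E4 x).1 : E4) = ‖(x : E4)‖⁻¹ • (x : E4) := by
  simp [homeomorphUnitSphereProd]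

lemma sphere_hom_apply2 (x : ({0}ᶜ : Set E4)) :
    ((homeomorphUnitSphereProd E4 x).2 : ℝ) = ‖(x : E4)‖ := by
  simp [homeomorphUnitSphereProd]

/-- polar coordinates -/
lemma polar (φ : E4 → ℝ≥0∞) (hφ : Measurable φ) (ρ : ℝ → ℝ≥0∞) (hρ : Measurable ρ) :
    ∫⁻ x : E4, φ (‖x‖⁻¹ • x) * ρ ‖x‖ =
      (∫⁻ s, φ (s : E4) ∂((volume : Measure E4).toSphere)) *
        ∫⁻ r, ρ (r : ℝ) ∂(volumeIoiPow 3) := by
  have h1 : ∫⁻ x : E4, φ (‖x‖⁻¹ • x) * ρ ‖x‖ =
      ∫⁻ x in ({0}ᶜ : Set E4), φ (‖x‖⁻¹ • x) * ρ ‖x‖ := by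
    rw [restrict_compl_singleton]
  have h2 : ∫⁻ x in ({0}ᶜ : Set E4), φ (‖x‖⁻¹ • x) * ρ ‖x‖ =
      ∫⁻ x : ({0}ᶜ : Set E4), φ (‖(x : E4)‖⁻¹ • (x : E4)) * ρ ‖(x : E4)‖
        ∂((volume : Measure E4).comap Subtype.val) := by
    rw [← lintegral_subtype_comap (measurableSet_singleton _).compl]
  have h3 := (measurePreserving_homeomorphUnitSphereProd (volume : Measure E4))
  have hd : Module.finrank ℝ E4 - 1 = 3 := by simp
  rw [hd] at h3
  have h4 : ∫⁻ x : ({0}ᶜ : Set E4), φ (‖(x : E4)‖⁻¹ • (x : E4)) * ρ ‖(x : E4)‖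
        ∂((volume : Measure E4).comap Subtype.val) =
      ∫⁻ p, φ (p.1 : E4) * ρ (p.2 : ℝ) ∂((volume : Measure E4).toSphere.prod (volumeIoiPow 3)) := by
    rw [← h3.lintegral_comp (f := fun p : (sphere (0 : E4) 1) × Ioi (0 : ℝ) =>
      φ (p.1 : E4) * ρ (p.2 : ℝ))]
    · refine lintegral_congr fun x => ?_
      rw [sphere_hom_apply, sphere_hom_apply2]
    · exact (hφ.comp (measurable_subtype_coe.comp measurable_fst)).mul
        (hρ.comp (measurable_subtype_coe.comp measurable_snd))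
  rw [h1, h2, h4]
  exact lintegral_prod_mul (hφ.comp measurable_subtype_coe).aemeasurable
    (hρ.comp measurable_subtype_coe).aemeasurable

/-- the indicator of `r < 1` -/
noncomputable def rho (r : ℝ) : ℝ≥0∞ := (Iio (1 : ℝ)).indicator (fun _ => 1) r

lemma rho_meas : Measurable rho := measurable_const.indicator measurableSet_Iio

lemma rho_int : ∫⁻ r, rho (r : ℝ) ∂(volumeIoiPow 3) = ENNReal.ofReal (1 / 4) := by
  have h : ∀ r : Ioi (0 : ℝ), rho (r : ℝ) =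
      (Iio (⟨1, mem_Ioi.2 one_pos⟩ : Ioi (0 : ℝ))).indicator (fun _ => (1 : ℝ≥0∞)) r := by
    intro r
    simp only [rho, indicator, mem_Iio]
    rfl
  simp_rw [h]
  rw [lintegral_indicator measurableSet_Iio, lintegral_const, one_mul, restrict_apply_univ,
    volumeIoiPow_apply_Iio]
  norm_num

/-- the weight `r⁻² 1_{r < 1}` -/
noncomputable def rho2 (r : ℝ) : ℝ≥0∞ := ENNReal.ofReal (r ^ 2)⁻¹ * rho r

lemma rho2_meas : Measurable rho2 :=
  (ENNReal.measurable_ofReal.comp (by fun_prop)).mul rho_meas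

lemma rho2_int : ∫⁻ r, rho2 (r : ℝ) ∂(volumeIoiPow 3) = ENNReal.ofReal (1 / 2) := by
  have h : ∀ r : Ioi (0 : ℝ), rho (r : ℝ) =
      (Iio (⟨1, mem_Ioi.2 one_pos⟩ : Ioi (0 : ℝ))).indicator (fun _ => (1 : ℝ≥0∞)) r := by
    intro r
    simp only [rho, indicator, mem_Iio]
    rfl
  have h1 : ∫⁻ r, rho2 (r : ℝ) ∂(volumeIoiPow 3) = ∫⁻ r, rho (r : ℝ) ∂(volumeIoiPow 1) := by
    have m1 : Measurable fun r : Ioi (0 : ℝ) => ENNReal.ofReal ((r : ℝ) ^ 3) := by fun_prop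
    have m2 : Measurable fun r : Ioi (0 : ℝ) => ENNReal.ofReal ((r : ℝ) ^ 1) := by fun_prop
    have k1 : ∫⁻ r, rho2 (r : ℝ) ∂(volumeIoiPow 3) = _ :=
      lintegral_withDensity_eq_lintegral_mul _ m1 (rho2_meas.comp measurable_subtype_coe)
    have k2 : ∫⁻ r, rho (r : ℝ) ∂(volumeIoiPow 1) = _ :=
      lintegral_withDensity_eq_lintegral_mul _ m2 (rho_meas.comp measurable_subtype_coe)
    rw [k1, k2]
    refine lintegral_congr fun r => ?_
    simp only [Pi.mul_apply, Function.comp_apply, rho2]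
    rw [← mul_assoc, ← ENNReal.ofReal_mul (by have := r.2.out; positivity)]
    congr 2
    have := r.2.out
    have : (r : ℝ) ≠ 0 := this.ne'
    field_simp
  rw [h1]
  simp_rw [h]
  rw [lintegral_indicator measurableSet_Iio, lintegral_const, one_mul, restrict_apply_univ,
    volumeIoiPow_apply_Iio]
  norm_num

/-- the unit vector `(1,0,0,0)` -/
noncomputable def e0 : E4 := EuclideanSpace.single 0 1

lemma e0_apply (i : Fin 4) : e0 i = if i = 0 then 1 else 0 := by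
  simp [e0]

lemma norm_sq_eq (x : E4) : ‖x‖ ^ 2 = x 0 ^ 2 + x 1 ^ 2 + x 2 ^ 2 + x 3 ^ 2 := by
  rw [EuclideanSpace.norm_sq_eq, Fin.sum_univ_four]
  simp

/-- squaring of quaternions, in coordinates -/
noncomputable def Q (x : E4) : E4 := (2 * x 0) • x - (‖x‖ ^ 2) • e0

lemma Q_zero (x : E4) : Q x 0 = 2 * x 0 ^ 2 - ‖x‖ ^ 2 := by
  simp [Q, e0_apply]; ring

lemma Q_ne (x : E4) (i : Fin 4) (hi : i ≠ 0) : Q x i = 2 * x 0 * x i := by
  simp [Q, e0_apply, hi]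

lemma norm_Q (x : E4) : ‖Q x‖ = ‖x‖ ^ 2 := by
  have h : ‖Q x‖ ^ 2 = (‖x‖ ^ 2) ^ 2 := by
    rw [norm_sq_eq (Q x), Q_zero, Q_ne x 1 (by decide), Q_ne x 2 (by decide),
      Q_ne x 3 (by decide), norm_sq_eq x]
    ring
  exact (pow_left_inj₀ (norm_nonneg _) (by positivity) two_ne_zero).1 h

lemma Q_neg (x : E4) : Q (-x) = Q x := by
  simp [Q]

/-- the derivative of `Q` -/
noncomputable def Q' (x : E4) : E4 →L[ℝ] E4 :=
  (2 * x 0) • ContinuousLinearMap.id ℝ E4 +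
    ((2 : ℝ) • (EuclideanSpace.proj (0 : Fin 4) : E4 →L[ℝ] ℝ)).smulRight x -
    (2 • (innerSL ℝ x)).smulRight e0

lemma hasFDerivAt_Q (x : E4) : HasFDerivAt Q (Q' x) x := by
  have h0 : HasFDerivAt (fun x : E4 => 2 * x 0)
      ((2 : ℝ) • (EuclideanSpace.proj (0 : Fin 4) : E4 →L[ℝ] ℝ)) x := by
    exact ((EuclideanSpace.proj (0 : Fin 4) : E4 →L[ℝ] ℝ).hasFDerivAt).const_mul 2
  have h1 := h0.smul (hasFDerivAt_id x)
  have h2 := (hasStrictFDerivAt_norm_sq x).hasFDerivAt.smul_const e0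
  have h3 := h1.sub h2
  exact h3

lemma det_Q' (x : E4) : (Q' x).det = 16 * x 0 ^ 2 * ‖x‖ ^ 2 := by
  have hdet : (Q' x).det = LinearMap.det ((Q' x : E4 →L[ℝ] E4) : E4 →ₗ[ℝ] E4) := rfl
  rw [hdet, ← LinearMap.det_toMatrix (EuclideanSpace.basisFun (Fin 4) ℝ).toBasis]
  have hM : LinearMap.toMatrix (EuclideanSpace.basisFun (Fin 4) ℝ).toBasis
      (EuclideanSpace.basisFun (Fin 4) ℝ).toBasis ((Q' x : E4 →L[ℝ] E4) : E4 →ₗ[ℝ] E4) =
      !![2 * x 0, -(2 * x 1), -(2 * x 2), -(2 * x 3);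
         2 * x 1, 2 * x 0, 0, 0;
         2 * x 2, 0, 2 * x 0, 0;
         2 * x 3, 0, 0, 2 * x 0] := by
    ext i j
    rw [LinearMap.toMatrix_apply]
    simp only [OrthonormalBasis.coe_toBasis, EuclideanSpace.basisFun_apply,
      OrthonormalBasis.coe_toBasis_repr_apply, EuclideanSpace.basisFun_repr,
      ContinuousLinearMap.coe_coe, Q', _root_.sub_apply,
      _root_.add_apply, _root_.smul_apply,
      ContinuousLinearMap.smulRight_apply, ContinuousLinearMap.id_apply, PiLp.sub_apply,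
      PiLp.add_apply, PiLp.smul_apply, smul_eq_mul, innerSL_apply_apply,
      e0_apply]
    fin_cases i <;> fin_cases j <;>
      simp [EuclideanSpace.inner_single_right]
  rw [hM, norm_sq_eq]
  simp [Matrix.det_succ_row_zero, Fin.sum_univ_succ, Fin.succAbove]
  ring

end Pool.Agent.H762R3.SqLaw
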