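import Mathlib
import Pool.Agent.H762R3.SqLaw1
set_option autoImplicit false

/-! The law of the square of a uniform unit quaternion. -/

namespace Pool.Agent.H762R3.SqLaw

open MeasureTheory Measure Set Metric
open scoped RealInnerProductSpace ENNReal

/-- the open half space -/
def S : Set E4 := {x | 0 < x 0}

lemma cont_coord (i : Fin 4) : Continuous fun x : E4 => x i :=
  (EuclideanSpace.proj i : E4 →L[ℝ] ℝ).continuous

lemma S_meas : MeasurableSet S := measurableSet_lt measurable_const (cont_coord 0).measurable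

lemma Q_inj : InjOn Q S := by
  intro x hx y hy hxy
  have hx' : 0 < x 0 := hx
  have hy' : 0 < y 0 := hy
  have h1 : ‖x‖ ^ 2 = ‖y‖ ^ 2 := by rw [← norm_Q, ← norm_Q, hxy]
  have h2 : Q x 0 = Q y 0 := by rw [hxy]
  rw [Q_zero, Q_zero, h1] at h2
  have h3 : x 0 = y 0 := by nlinarith
  have h4 : ∀ i : Fin 4, i ≠ 0 → x i = y i := by
    intro i hi
    have : Q x i = Q y i := by rw [hxy]
    rw [Q_ne x i hi, Q_ne y i hi, h3] at this
    exact mul_left_cancel₀ (by positivity) this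
  ext i
  by_cases hi : i = 0
  · rw [hi]; exact h3
  · exact h4 i hi

lemma Q_surj {y : E4} (hy : 0 < ‖y‖ + y 0) : y ∈ Q '' S := by
  set a := √((‖y‖ + y 0) / 2) with ha
  have hapos : 0 < a := Real.sqrt_pos.2 (by linarith)
  have ha2 : a ^ 2 = (‖y‖ + y 0) / 2 := Real.sq_sqrt (by linarith)
  set x : E4 := (2 * a)⁻¹ • (y + (‖y‖) • e0) with hx
  have hx0 : x 0 = a := by
    rw [hx]
    simp only [PiLp.smul_apply, PiLp.add_apply, smul_eq_mul, e0_apply, if_true]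
    field_simp
    rw [ha2]; ring
  have hxi : ∀ i : Fin 4, i ≠ 0 → x i = (2 * a)⁻¹ * y i := by
    intro i hi
    rw [hx]
    simp only [PiLp.smul_apply, PiLp.add_apply, smul_eq_mul, e0_apply, if_neg hi]
    ring
  have hn : ‖x‖ ^ 2 = ‖y‖ := by
    rw [norm_sq_eq, hx0, hxi 1 (by decide), hxi 2 (by decide), hxi 3 (by decide)]
    have h1 := norm_sq_eq y
    have h2 : y 1 ^ 2 + y 2 ^ 2 + y 3 ^ 2 = (‖y‖ - y 0) * (2 * a ^ 2) := by
      rw [ha2]; linarith [h1]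
    have h3 : a ^ 2 + ((2 * a)⁻¹ * y 1) ^ 2 + ((2 * a)⁻¹ * y 2) ^ 2 + ((2 * a)⁻¹ * y 3) ^ 2 =
        a ^ 2 + (y 1 ^ 2 + y 2 ^ 2 + y 3 ^ 2) / (4 * a ^ 2) := by
      field_simp
      ring
    rw [h3, h2]
    have h4 : (‖y‖ - y 0) * (2 * a ^ 2) / (4 * a ^ 2) = (‖y‖ - y 0) / 2 := by
      field_simp; ring
    rw [h4, ha2]; ring
  refine ⟨x, ?_, ?_⟩
  · show 0 < x 0
    rw [hx0]; exact hapos
  · ext i
    by_cases hi : i = 0
    · rw [hi, Q_zero, hx0, hn, ha2]; ring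
    · rw [Q_ne x i hi, hx0, hxi i hi]; field_simp

lemma null_coord (i : Fin 4) : volume {x : E4 | x i = 0} = 0 := by
  have h := Measure.addHaar_submodule (volume : Measure E4)
    (LinearMap.ker ((EuclideanSpace.proj i : E4 →L[ℝ] ℝ) : E4 →ₗ[ℝ] ℝ)) (by
      intro h
      have h1 : (EuclideanSpace.single i (1 : ℝ) : E4) ∈
          LinearMap.ker ((EuclideanSpace.proj i : E4 →L[ℝ] ℝ) : E4 →ₗ[ℝ] ℝ) := by
        rw [h]; trivial
      rw [LinearMap.mem_ker] at h1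
      simp at h1)
  refine le_antisymm (le_trans (measure_mono ?_) h.le) (zero_le)
  intro x hx
  show x ∈ LinearMap.ker _
  rw [LinearMap.mem_ker]
  exact hx

lemma half (F : E4 → ℝ≥0∞) (hF : Measurable F) (hev : ∀ x, F (-x) = F x) :
    2 * ∫⁻ x in S, F x = ∫⁻ x, F x := by
  have h1 : ∫⁻ x in (-S), F x = ∫⁻ x in S, F x := by
    have hmp : MeasurePreserving (fun x : E4 => -x) volume volume :=
      Measure.measurePreserving_neg volume
    have h2 := hmp.setLIntegral_comp_preimage (s := S) S_meas hF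
    have h3 : (fun x : E4 => -x) ⁻¹' S = -S := rfl
    rw [h3] at h2
    rw [← h2]
    exact lintegral_congr fun x => (hev x).symm
  have h2 : ∫⁻ x, F x = (∫⁻ x in S, F x) + ∫⁻ x in Sᶜ, F x :=
    (lintegral_add_compl F S_meas).symm
  have h3 : (Sᶜ : Set E4) =ᵐ[volume] (-S : Set E4) := by
    have hnull := null_coord 0
    have : ∀ᵐ x : E4, x 0 ≠ 0 := by
      rw [ae_iff]
      simpa using hnull
    filter_upwards [this] with x hx
    apply propext
    show ¬ (0 < x 0) ↔ 0 < (-x) 0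
    rw [PiLp.neg_apply]
    constructor
    · intro h
      have : x 0 < 0 := lt_of_le_of_ne (not_lt.1 h) hx
      linarith
    · intro h; linarith
  rw [h2, Measure.restrict_congr_set h3, h1, two_mul]

lemma Q_smul (c : ℝ) (x : E4) : Q (c • x) = c ^ 2 • Q x := by
  ext i
  by_cases hi : i = 0
  · rw [hi, Q_zero, PiLp.smul_apply, PiLp.smul_apply, Q_zero, norm_smul, Real.norm_eq_abs,
      mul_pow, sq_abs]
    simp only [smul_eq_mul]
    ring
  · rw [Q_ne _ i hi, PiLp.smul_apply, PiLp.smul_apply, PiLp.smul_apply, Q_ne x i hi]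
    simp only [smul_eq_mul]
    ring

lemma Q_cont : Continuous Q := by
  unfold Q
  exact ((continuous_const.mul (cont_coord 0)).smul continuous_id).sub
    ((continuous_norm.pow 2).smul continuous_const)

lemma rho_sq (r : ℝ) (hr : 0 ≤ r) : rho (r ^ 2) = rho r := by
  unfold rho
  simp only [indicator, mem_Iio]
  by_cases h : r < 1
  · rw [if_pos h, if_pos (by nlinarith)]
  · rw [if_neg h, if_neg (by nlinarith)]

/-- **Law of the square** of a uniform unit quaternion. -/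
theorem sq_law (φ : E4 → ℝ≥0∞) (hφ : Measurable φ) :
    ∫⁻ s, φ (Q (s : E4)) ∂((volume : Measure E4).toSphere) =
      ∫⁻ s, φ (s : E4) * ENNReal.ofReal (1 / (2 * (1 + (s : E4) 0)))
        ∂((volume : Measure E4).toSphere) := by
  set g : E4 → ℝ≥0∞ := fun y =>
    φ (‖y‖⁻¹ • y) * (rho ‖y‖ * ENNReal.ofReal (1 / (8 * ‖y‖ * (‖y‖ + y 0)))) with hg
  have hA := lintegral_image_eq_lintegral_abs_det_fderiv_mul (volume : Measure E4) S_meas
    (fun x _ => (hasFDerivAt_Q x).hasFDerivWithinAt) Q_inj g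
  -- right hand side
  have hR : ∫⁻ x in S, ENNReal.ofReal |(Q' x).det| * g (Q x) =
      ∫⁻ x in S, φ (Q (‖x‖⁻¹ • x)) * rho ‖x‖ := by
    refine setLIntegral_congr_fun S_meas fun x hx => ?_
    have hx0 : 0 < x 0 := hx
    have hxn : 0 < ‖x‖ := by
      rw [norm_pos_iff]
      rintro rfl
      simp at hx0
    simp only [hg]
    rw [det_Q', norm_Q, Q_zero, rho_sq _ hxn.le, abs_of_nonneg (by positivity), Q_smul]
    have e1 : (‖x‖ ^ 2)⁻¹ • Q x = ‖x‖⁻¹ ^ 2 • Q x := by rw [inv_pow]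
    rw [e1]
    have e2 : ENNReal.ofReal (16 * x 0 ^ 2 * ‖x‖ ^ 2) *
        ENNReal.ofReal (1 / (8 * ‖x‖ ^ 2 * (‖x‖ ^ 2 + (2 * x 0 ^ 2 - ‖x‖ ^ 2)))) = 1 := by
      rw [← ENNReal.ofReal_mul (by positivity)]
      have : 16 * x 0 ^ 2 * ‖x‖ ^ 2 *
          (1 / (8 * ‖x‖ ^ 2 * (‖x‖ ^ 2 + (2 * x 0 ^ 2 - ‖x‖ ^ 2)))) = 1 := by
        have e : ‖x‖ ^ 2 + (2 * x 0 ^ 2 - ‖x‖ ^ 2) = 2 * x 0 ^ 2 := by ring
        rw [e]
        field_simp
        norm_num
      rw [this, ENNReal.ofReal_one]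
    calc _ = φ (‖x‖⁻¹ ^ 2 • Q x) * rho ‖x‖ * (ENNReal.ofReal (16 * x 0 ^ 2 * ‖x‖ ^ 2) *
        ENNReal.ofReal (1 / (8 * ‖x‖ ^ 2 * (‖x‖ ^ 2 + (2 * x 0 ^ 2 - ‖x‖ ^ 2))))) := by ring
      _ = _ := by rw [e2, mul_one]
  have hR2 : 2 * ∫⁻ x in S, φ (Q (‖x‖⁻¹ • x)) * rho ‖x‖ =
      ∫⁻ x, φ (Q (‖x‖⁻¹ • x)) * rho ‖x‖ := by
    refine half (fun x => φ (Q (‖x‖⁻¹ • x)) * rho ‖x‖) ?_ ?_
    · refine ((hφ.comp Q_cont.measurable).comp ?_).mul (rho_meas.comp measurable_norm)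
      exact (measurable_norm.inv).smul measurable_id
    · intro x
      simp only [norm_neg, smul_neg, Q_neg]
  have hR3 := polar (fun x => φ (Q x)) (hφ.comp Q_cont.measurable) rho rho_meas
  rw [rho_int] at hR3
  -- left hand side
  have hL1 : ∫⁻ x in Q '' S, g x = ∫⁻ x, g x := by
    have hae : (Q '' S : Set E4) =ᵐ[volume] (univ : Set E4) := by
      have hnull := null_coord 1
      have : ∀ᵐ x : E4, x 1 ≠ 0 := by
        rw [ae_iff]
        simpa using hnull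
      filter_upwards [this] with y hy
      apply propext
      refine ⟨fun _ => trivial, fun _ => Q_surj ?_⟩
      by_contra hcon
      have h1 : ‖y‖ ≤ -y 0 := by linarith [not_lt.1 hcon]
      have h2 := norm_sq_eq y
      have h3 : 0 < y 1 ^ 2 := by positivity
      have h4 : ‖y‖ ^ 2 ≤ (-y 0) ^ 2 := pow_le_pow_left₀ (norm_nonneg _) h1 2
      nlinarith [sq_nonneg (y 2), sq_nonneg (y 3)]
    rw [Measure.restrict_congr_set hae, restrict_univ]
  set φ1 : E4 → ℝ≥0∞ := fun s => φ s * ENNReal.ofReal (1 / (8 * (1 + s 0))) with hφ1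
  have hφ1m : Measurable φ1 := by
    refine hφ.mul (ENNReal.measurable_ofReal.comp ?_)
    exact measurable_const.div (measurable_const.mul
      (measurable_const.add (cont_coord 0).measurable))
  have hL2 : ∫⁻ x, g x = ∫⁻ x, φ1 (‖x‖⁻¹ • x) * rho2 ‖x‖ := by
    refine lintegral_congr fun y => ?_
    simp only [hg, hφ1, rho2]
    by_cases hy : y = 0
    · subst hy; simp
    have hyn : 0 < ‖y‖ := norm_pos_iff.2 hy
    have h0 : (‖y‖⁻¹ • y) 0 = ‖y‖⁻¹ * y 0 := rfl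
    have hle : -‖y‖ ≤ y 0 := by
      have h2 := norm_sq_eq y
      have h3 : y 0 ^ 2 ≤ ‖y‖ ^ 2 := by
        rw [h2]
        have i1 := sq_nonneg (y 1)
        have i2 := sq_nonneg (y 2)
        have i3 := sq_nonneg (y 3)
        linarith
      exact (abs_le.1 (abs_le_of_sq_le_sq h3 (norm_nonneg y))).1
    have e : ENNReal.ofReal (1 / (8 * ‖y‖ * (‖y‖ + y 0))) =
        ENNReal.ofReal (1 / (8 * (1 + (‖y‖⁻¹ • y) 0))) * ENNReal.ofReal (‖y‖ ^ 2)⁻¹ := by
      have hnn : 0 ≤ 1 + ‖y‖⁻¹ * y 0 := by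
        have : 1 + ‖y‖⁻¹ * y 0 = ‖y‖⁻¹ * (‖y‖ + y 0) := by field_simp
        rw [this]
        have : 0 ≤ ‖y‖ + y 0 := by linarith
        positivity
      rw [h0, ← ENNReal.ofReal_mul (by positivity)]
      congr 1
      have e3 : ‖y‖ + y 0 = ‖y‖ * (1 + ‖y‖⁻¹ * y 0) := by field_simp
      rw [e3]
      by_cases h1 : 1 + ‖y‖⁻¹ * y 0 = 0
      · rw [h1]; simp
      · field_simp
    rw [e]
    ring
  have hL3 := polar φ1 hφ1m rho2 rho2_meas
  rw [rho2_int] at hL3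
  rw [hL1, hL2, hL3, hR] at hA
  -- hA : I1 * ofReal (1/2) = ∫ S ...
  have hfin : 2 * ((∫⁻ s, φ1 (s : E4) ∂((volume : Measure E4).toSphere)) *
      ENNReal.ofReal (1 / 2)) =
      (∫⁻ s, φ (Q (s : E4)) ∂((volume : Measure E4).toSphere)) * ENNReal.ofReal (1 / 4) := by
    rw [hA, hR2, hR3]
  have hc1 : (2 : ℝ≥0∞) * ENNReal.ofReal (1 / 2) = 1 := by
    rw [show (2 : ℝ≥0∞) = ENNReal.ofReal 2 by simp, ← ENNReal.ofReal_mul (by norm_num)]
    norm_num
  have hc2 : (4 : ℝ≥0∞) * ENNReal.ofReal (1 / 4) = 1 := by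
    rw [show (4 : ℝ≥0∞) = ENNReal.ofReal 4 by simp, ← ENNReal.ofReal_mul (by norm_num)]
    norm_num
  have hfin2 : (4 : ℝ≥0∞) * (∫⁻ s, φ1 (s : E4) ∂((volume : Measure E4).toSphere)) =
      ∫⁻ s, φ (Q (s : E4)) ∂((volume : Measure E4).toSphere) := by
    have e1 : (∫⁻ s, φ1 (s : E4) ∂((volume : Measure E4).toSphere)) =
        (∫⁻ s, φ (Q (s : E4)) ∂((volume : Measure E4).toSphere)) * ENNReal.ofReal (1 / 4) := by
      rw [← hfin]
      calc _ = (2 * ENNReal.ofReal (1 / 2)) *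
          (∫⁻ s, φ1 (s : E4) ∂((volume : Measure E4).toSphere)) := by rw [hc1, one_mul]
        _ = _ := by ring
    rw [e1]
    calc _ = (4 * ENNReal.ofReal (1 / 4)) *
          (∫⁻ s, φ (Q (s : E4)) ∂((volume : Measure E4).toSphere)) := by ring
      _ = _ := by rw [hc2, one_mul]
  have hm2 : Measurable fun s : sphere (0 : E4) 1 => φ1 (s : E4) :=
    hφ1m.comp measurable_subtype_coe
  rw [← hfin2, ← lintegral_const_mul _ hm2]
  refine lintegral_congr fun s => ?_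
  simp only [hφ1]
  rw [mul_left_comm]
  congr 1
  rw [show (4 : ℝ≥0∞) = ENNReal.ofReal 4 by simp, ← ENNReal.ofReal_mul (by norm_num)]
  congr 1
  by_cases h : 1 + (s : E4) 0 = 0
  · rw [h]; simp
  · field_simp; norm_num

end Pool.Agent.H762R3.SqLaw
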