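import Mathlib
import Pool.Agent.Helper36.RealizeSph
import Pool.Agent.H762R3.SqLaw2
set_option autoImplicit false

/-! The kernel of the averaged symmetries of the three-sphere. -/

namespace Pool.Agent.H762R3.Ker

open MeasureTheory Measure Set Metric
open Pool.Agent.Helper36.SphMeas Pool.Agent.H762R3.SqLaw
open scoped RealInnerProductSpace ENNReal

lemma sph_lintegral (F : E4 → ℝ≥0∞) (hF : Measurable F) :
    ∫⁻ x, F x ∂(sph 4) = ((volume : Measure E4).toSphere univ)⁻¹ *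
      ∫⁻ s, F (s : E4) ∂((volume : Measure E4).toSphere) := by
  rw [sph, lintegral_smul_measure, lintegral_map hF measurable_subtype_coe, smul_eq_mul]

/-- the polynomial form of the symmetry in the line spanned by a unit vector `g` -/
noncomputable def sy (g h : E4) : E4 := (2 * ⟪g, h⟫) • g - h

lemma inner_e0 (x : E4) : ⟪e0, x⟫ = x 0 := by
  simp [e0, EuclideanSpace.inner_single_left]

lemma sy_e0 (g : E4) (hg : ‖g‖ = 1) : sy g e0 = Q g := by
  rw [sy, Q, hg, real_inner_comm, inner_e0]; simp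

lemma norm_e0 : ‖e0‖ = 1 := by simp [e0]

/-- the weight -/
noncomputable def w (t : ℝ) : ℝ≥0∞ := ENNReal.ofReal (1 / (2 * (1 + t)))

lemma w_meas : Measurable w := by
  unfold w
  exact ENNReal.measurable_ofReal.comp (by fun_prop)

lemma ker0 (φ : E4 → ℝ≥0∞) (hφ : Measurable φ) :
    ∫⁻ g, φ (Q g) ∂(sph 4) = ∫⁻ y, φ y * w ⟪e0, y⟫ ∂(sph 4) := by
  have hm : Measurable fun y : E4 => φ y * w ⟪e0, y⟫ :=
    hφ.mul (w_meas.comp (by fun_prop))
  have hm1 : Measurable fun g : E4 => φ (Q g) := hφ.comp Q_cont.measurable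
  rw [sph_lintegral _ hm1, sph_lintegral _ hm, sq_law φ hφ]
  congr 1
  refine lintegral_congr fun s => ?_
  rw [inner_e0, w]

lemma exists_rot {h : E4} (hh : ‖h‖ = 1) : ∃ T : E4 ≃ₗᵢ[ℝ] E4, T e0 = h := by
  refine ⟨(ℝ ∙ (e0 - h))ᗮ.reflection, ?_⟩
  exact Submodule.reflection_sub (by rw [norm_e0, hh])

lemma ker (φ : E4 → ℝ≥0∞) (hφ : Measurable φ) {h : E4} (hh : ‖h‖ = 1) :
    ∫⁻ g, φ (sy g h) ∂(sph 4) = ∫⁻ y, φ y * w ⟪h, y⟫ ∂(sph 4) := by
  obtain ⟨T, hT⟩ := exists_rot hh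
  have hTc : Measurable T := T.continuous.measurable
  have hsm : Measurable fun g : E4 => φ (sy g h) := by
    refine hφ.comp (Continuous.measurable ?_)
    unfold sy; fun_prop
  have h1 : ∫⁻ g, φ (sy g h) ∂(sph 4) = ∫⁻ g, φ (sy (T g) h) ∂(sph 4) :=
    ((sph_inv T).lintegral_comp hsm).symm
  have h2 : ∫⁻ g, φ (sy (T g) h) ∂(sph 4) = ∫⁻ g, φ (T (Q g)) ∂(sph 4) := by
    refine lintegral_congr_ae ?_
    filter_upwards [sph_ae] with g hg
    rw [← sy_e0 g hg, ← hT]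
    congr 1
    simp only [sy, T.inner_map_map, map_sub, map_smul]
  have h3 := ker0 (fun y => φ (T y)) (hφ.comp hTc)
  have hm : Measurable fun y : E4 => φ y * w ⟪h, y⟫ :=
    hφ.mul (w_meas.comp (by fun_prop))
  have h4 : ∫⁻ y, φ y * w ⟪h, y⟫ ∂(sph 4) = ∫⁻ y, φ (T y) * w ⟪h, T y⟫ ∂(sph 4) :=
    ((sph_inv T).lintegral_comp hm).symm
  rw [h1, h2, h3, h4]
  refine lintegral_congr fun y => ?_
  rw [← hT, T.inner_map_map]

end Pool.Agent.H762R3.Ker
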