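import Mathlib
import Pool.Agent.H762R3.Ker
set_option autoImplicit false

/-! Positive definiteness of the kernels `⟪x, y⟫ ^ n` on the three-sphere. -/

namespace Pool.Agent.H762R3.Psd

open MeasureTheory Measure Set Metric
open Pool.Agent.Helper36.SphMeas Pool.Agent.H762R3.SqLaw Pool.Agent.H762R3.Ker
open scoped RealInnerProductSpace ENNReal

instance : IsProbabilityMeasure (sph 4) := sph_prob (by norm_num)

/-- monomials -/
noncomputable def mon {n : ℕ} (p : Fin n → Fin 4) (x : E4) : ℝ := ∏ m, x (p m)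

lemma mon_cont {n : ℕ} (p : Fin n → Fin 4) : Continuous (mon p) := by
  unfold mon
  exact continuous_finset_prod _ fun m _ => cont_coord (p m)

lemma inner_pow (n : ℕ) (x y : E4) : ⟪x, y⟫ ^ n = ∑ p : Fin n → Fin 4, mon p x * mon p y := by
  have h : ⟪x, y⟫ = ∑ i, x i * y i := by
    rw [PiLp.inner_apply]
    refine Finset.sum_congr rfl fun i _ => ?_
    simp [mul_comm]
  rw [h, Fintype.sum_pow]
  refine Finset.sum_congr rfl fun p _ => ?_
  rw [mon, mon, Finset.prod_mul_distrib]

lemma mon_bdd {n : ℕ} (p : Fin n → Fin 4) {x : E4} (hx : ‖x‖ = 1) : |mon p x| ≤ 1 := by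
  rw [mon, Finset.abs_prod]
  refine Finset.prod_le_one (fun _ _ => abs_nonneg _) fun i _ => ?_
  have := PiLp.norm_apply_le x (p i)
  rw [hx] at this
  exact this

lemma integrable_of_bdd {f : E4 → ℝ} (hf : Measurable f) (C : ℝ)
    (hC : ∀ x, ‖x‖ = 1 → |f x| ≤ C) : Integrable f (sph 4) := by
  refine Integrable.of_bound hf.aestronglyMeasurable C ?_
  filter_upwards [sph_ae] with x hx
  exact hC x hx

/-- the indicator function -/
noncomputable def ind (E : Set E4) (x : E4) : ℝ := E.indicator (fun _ => 1) x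

lemma ind_meas {E : Set E4} (hE : MeasurableSet E) : Measurable (ind E) :=
  measurable_const.indicator hE

lemma ind_bdd (E : Set E4) (x : E4) : |ind E x| ≤ 1 := by
  unfold ind indicator
  split_ifs <;> simp

lemma ind_nonneg (E : Set E4) (x : E4) : 0 ≤ ind E x := by
  unfold ind indicator
  split_ifs <;> simp

lemma ind_mon_int {E : Set E4} (hE : MeasurableSet E) {n : ℕ} (p : Fin n → Fin 4) :
    Integrable (fun x => ind E x * mon p x) (sph 4) := by
  refine integrable_of_bdd ((ind_meas hE).mul (mon_cont p).measurable) 1 fun x hx => ?_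
  rw [abs_mul]
  exact mul_le_one₀ (ind_bdd E x) (abs_nonneg _) (mon_bdd p hx)

/-- partial moments -/
noncomputable def am (E : Set E4) {n : ℕ} (p : Fin n → Fin 4) : ℝ :=
  ∫ x, ind E x * mon p x ∂(sph 4)

lemma inner_int {E : Set E4} (hE : MeasurableSet E) (n : ℕ) (h : E4) :
    ∫ y, ind E y * ⟪h, y⟫ ^ n ∂(sph 4) = ∑ p : Fin n → Fin 4, mon p h * am E p := by
  have e : ∀ y, ind E y * ⟪h, y⟫ ^ n = ∑ p : Fin n → Fin 4, mon p h * (ind E y * mon p y) := by
    intro y
    rw [inner_pow, Finset.mul_sum]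
    exact Finset.sum_congr rfl fun p _ => by ring
  simp_rw [e]
  rw [integral_finset_sum _ fun p _ => (ind_mon_int hE p).const_mul _]
  refine Finset.sum_congr rfl fun p _ => ?_
  rw [integral_const_mul, am]

/-- moments of a coordinate -/
noncomputable def kap (n : ℕ) : ℝ := ∫ y, ⟪e0, y⟫ ^ n ∂(sph 4)

lemma ind_univ (x : E4) : ind univ x = 1 := by simp [ind]

lemma kap_eq (n : ℕ) {h : E4} (hh : ‖h‖ = 1) : ∫ y, ⟪h, y⟫ ^ n ∂(sph 4) = kap n := by
  obtain ⟨T, hT⟩ := exists_rot hh
  have h1 := (sph_inv T).integral_comp T.toHomeomorph.measurableEmbedding (fun y => ⟪h, y⟫ ^ n)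
  rw [← h1, kap]
  refine integral_congr_ae (Filter.Eventually.of_forall fun y => ?_)
  simp only
  rw [← hT, T.inner_map_map]

lemma kap_sum (n : ℕ) {h : E4} (hh : ‖h‖ = 1) :
    ∑ p : Fin n → Fin 4, mon p h * am univ p = kap n := by
  rw [← inner_int MeasurableSet.univ n h, ← kap_eq n hh]
  refine integral_congr_ae (Filter.Eventually.of_forall fun y => ?_)
  simp only [ind_univ, one_mul]

lemma dbl {E F : Set E4} (hE : MeasurableSet E) (n : ℕ) :
    ∑ p : Fin n → Fin 4, am E p * am F p =
      ∫ x, ind E x * ∑ p : Fin n → Fin 4, mon p x * am F p ∂(sph 4) := by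
  have e : ∀ x, ind E x * ∑ p : Fin n → Fin 4, mon p x * am F p =
      ∑ p : Fin n → Fin 4, (ind E x * mon p x) * am F p := by
    intro x
    rw [Finset.mul_sum]
    exact Finset.sum_congr rfl fun p _ => by ring
  simp_rw [e]
  rw [integral_finset_sum _ fun p _ => (ind_mon_int hE p).mul_const _]
  refine Finset.sum_congr rfl fun p _ => ?_
  rw [integral_mul_const, am]

lemma ind_integral {E : Set E4} (hE : MeasurableSet E) :
    ∫ x, ind E x ∂(sph 4) = (sph 4).real E := by
  unfold ind
  rw [integral_indicator_const _ hE]; simp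

lemma cross {E : Set E4} (hE : MeasurableSet E) (n : ℕ) :
    ∑ p : Fin n → Fin 4, am E p * am univ p = (sph 4).real E * kap n := by
  rw [dbl hE n, ← ind_integral hE, ← integral_mul_const]
  refine integral_congr_ae ?_
  filter_upwards [sph_ae] with x hx
  rw [kap_sum n hx]

lemma diag (n : ℕ) : ∑ p : Fin n → Fin 4, am univ p * am univ p = kap n := by
  rw [cross MeasurableSet.univ n]; simp

/-- the positive definiteness inequality -/
lemma psd {E : Set E4} (hE : MeasurableSet E) (n : ℕ) :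
    (sph 4).real E ^ 2 * kap n ≤ ∑ p : Fin n → Fin 4, am E p * am E p := by
  have h0 : 0 ≤ ∑ p : Fin n → Fin 4, (am E p - (sph 4).real E * am univ p) ^ 2 :=
    Finset.sum_nonneg fun _ _ => sq_nonneg _
  have e : ∑ p : Fin n → Fin 4, (am E p - (sph 4).real E * am univ p) ^ 2 =
      ∑ p : Fin n → Fin 4, am E p * am E p -
        2 * (sph 4).real E * ∑ p : Fin n → Fin 4, am E p * am univ p +
        (sph 4).real E ^ 2 * ∑ p : Fin n → Fin 4, am univ p * am univ p := by
    rw [Finset.mul_sum, Finset.mul_sum, ← Finset.sum_sub_distrib, ← Finset.sum_add_distrib]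
    exact Finset.sum_congr rfl fun p _ => by ring
  rw [e, cross hE n, diag n] at h0
  nlinarith

lemma psd' {E : Set E4} (hE : MeasurableSet E) (n : ℕ) :
    (sph 4).real E ^ 2 * kap n ≤
      ∫ x, ind E x * ∫ y, ind E y * ⟪x, y⟫ ^ n ∂(sph 4) ∂(sph 4) := by
  refine (psd hE n).trans (le_of_eq ?_)
  rw [dbl hE n]
  refine integral_congr_ae (Filter.Eventually.of_forall fun x => ?_)
  simp only
  rw [inner_int hE n x]

end Pool.Agent.H762R3.Psd
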