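import Mathlib
import Pool.Agent.H762R3.Psd
set_option autoImplicit false

/-! The average over all symmetries of an even subset of the three-sphere. -/

namespace Pool.Agent.H762R3.Avg

open MeasureTheory Measure Set Metric Filter
open Pool.Agent.Helper36.SphMeas Pool.Agent.H762R3.SqLaw Pool.Agent.H762R3.Ker
open Pool.Agent.H762R3.Psd
open scoped RealInnerProductSpace ENNReal Topology

lemma ae_lt_one {x : E4} (hx : ‖x‖ = 1) : ∀ᵐ y ∂(sph 4), |⟪x, y⟫| < 1 := by
  obtain ⟨C, -, hC⟩ := (sph_sphLike (d := 4) (by norm_num)).slab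
  obtain ⟨a, ha, hax⟩ := Pool.Agent.Helper36.RealizeSph.exists_perp (d := 4) (by norm_num) x
  have h0 : (sph 4).real {y | |⟪a, y⟫| ≤ 0} = 0 :=
    le_antisymm ((hC a ha 0 le_rfl).trans (by simp)) measureReal_nonneg
  have h1 : sph 4 {y | |⟪a, y⟫| ≤ 0} = 0 := by
    rwa [measureReal_eq_zero_iff] at h0
  have h2 : ∀ᵐ y ∂(sph 4), ¬ (|⟪a, y⟫| ≤ 0) := by
    rw [ae_iff]
    simpa using h1
  filter_upwards [h2, sph_ae] with y hy hyn
  have h3 : |⟪x, y⟫| ≤ 1 := by
    have := abs_real_inner_le_norm x y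
    rwa [hx, hyn, one_mul] at this
  refine lt_of_le_of_ne h3 fun h4 => hy ?_
  have hy0 : y ≠ 0 := by
    rintro rfl
    simp at hyn
  have h5 := (abs_real_inner_div_norm_mul_norm_eq_one_iff x y).1 (by
    rw [hx, hyn, mul_one, div_one]; exact h4)
  obtain ⟨-, r, -, hr⟩ := h5
  rw [hr, inner_smul_right, hax, mul_zero, abs_zero]

/-- ENNReal indicator -/
noncomputable def ii (E : Set E4) (x : E4) : ℝ≥0∞ := E.indicator (fun _ => 1) x

lemma ii_meas {E : Set E4} (hE : MeasurableSet E) : Measurable (ii E) :=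
  measurable_const.indicator hE

lemma ii_eq (E : Set E4) (x : E4) : ii E x = ENNReal.ofReal (ind E x) := by
  unfold ii ind indicator
  split_ifs <;> simp

lemma w_add {t : ℝ} (ht : |t| < 1) : w t + w (-t) = ENNReal.ofReal (1 / (1 - t ^ 2)) := by
  rw [abs_lt] at ht
  unfold w
  rw [← ENNReal.ofReal_add]
  · congr 1
    have h1 : 1 + t ≠ 0 := by linarith
    have h2 : 1 + -t ≠ 0 := by linarith
    have h3 : 1 - t ^ 2 ≠ 0 := by nlinarith
    field_simp
    ring
  · have : 0 < 1 + t := by linarith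
    positivity
  · have : 0 < 1 + -t := by linarith
    positivity

/-- the partial geometric sum -/
noncomputable def gs (J : ℕ) (t : ℝ) : ℝ := ∑ j ∈ Finset.range J, t ^ (2 * j)

lemma gs_nonneg (J : ℕ) (t : ℝ) : 0 ≤ gs J t :=
  Finset.sum_nonneg fun j _ => by rw [pow_mul]; positivity

lemma gs_mono (t : ℝ) : Monotone fun J => gs J t := by
  refine monotone_nat_of_le_succ fun J => ?_
  simp only [gs, Finset.sum_range_succ]
  have : 0 ≤ t ^ (2 * J) := by rw [pow_mul]; positivity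
  linarith

lemma gs_tendsto {t : ℝ} (ht : |t| < 1) :
    Tendsto (fun J => gs J t) atTop (𝓝 (1 / (1 - t ^ 2))) := by
  have h1 : t ^ 2 < 1 := by
    rw [← sq_abs]
    nlinarith [abs_nonneg t]
  have h := (hasSum_geometric_of_lt_one (sq_nonneg t) h1).tendsto_sum_nat
  simp only [← pow_mul] at h
  rw [one_div]
  exact h

lemma gs_le {t : ℝ} (ht : |t| < 1) (J : ℕ) : gs J t ≤ 1 / (1 - t ^ 2) :=
  (gs_mono t).ge_of_tendsto (gs_tendsto ht) J

lemma gs_bdd {J : ℕ} {t : ℝ} (ht : |t| ≤ 1) : |gs J t| ≤ J := by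
  rw [abs_of_nonneg (gs_nonneg J t)]
  calc gs J t ≤ ∑ j ∈ Finset.range J, (1 : ℝ) := by
        refine Finset.sum_le_sum fun j _ => ?_
        rw [← abs_of_nonneg (a := t ^ (2 * j)) (by rw [pow_mul]; positivity), abs_pow]
        exact pow_le_one₀ (abs_nonneg _) ht
    _ = J := by simp

lemma gs_cont (J : ℕ) : Continuous (gs J) := by
  unfold gs
  exact continuous_finsetSum _ fun j _ => continuous_pow _

lemma sym_w {E : Set E4} (hE : MeasurableSet E) (hev : ∀ x, -x ∈ E ↔ x ∈ E) (x : E4) :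
    ∫⁻ y, ii E y * w ⟪x, y⟫ ∂(sph 4) = ∫⁻ y, ii E y * w (-⟪x, y⟫) ∂(sph 4) := by
  have hm : Measurable fun y => ii E y * w ⟪x, y⟫ :=
    (ii_meas hE).mul (w_meas.comp (by fun_prop))
  rw [← (sph_inv (LinearIsometryEquiv.neg ℝ)).lintegral_comp hm]
  refine lintegral_congr fun y => ?_
  have h1 : (LinearIsometryEquiv.neg ℝ : E4 ≃ₗᵢ[ℝ] E4) y = -y := rfl
  rw [h1, inner_neg_right]
  congr 1
  unfold ii indicator
  by_cases hy : y ∈ E
  · rw [if_pos hy, if_pos ((hev y).2 hy)]
  · rw [if_neg hy, if_neg (fun h => hy ((hev y).1 h))]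

lemma two_w {E : Set E4} (hE : MeasurableSet E) (hev : ∀ x, -x ∈ E ↔ x ∈ E) (x : E4) :
    2 * ∫⁻ y, ii E y * w ⟪x, y⟫ ∂(sph 4) =
      ∫⁻ y, ii E y * (w ⟪x, y⟫ + w (-⟪x, y⟫)) ∂(sph 4) := by
  have hm : Measurable fun y => ii E y * w ⟪x, y⟫ :=
    (ii_meas hE).mul (w_meas.comp (by fun_prop))
  simp_rw [mul_add]
  rw [lintegral_add_left hm, ← sym_w hE hev x, two_mul]

/-- real inner integral -/
noncomputable def G (E : Set E4) (J : ℕ) (x : E4) : ℝ := ∫ y, ind E y * gs J ⟪x, y⟫ ∂(sph 4)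

lemma int_n {E : Set E4} (hE : MeasurableSet E) (n : ℕ) (x : E4) :
    Integrable (fun y => ind E y * ⟪x, y⟫ ^ n) (sph 4) := by
  refine integrable_of_bdd ((ind_meas hE).mul (by fun_prop)) (‖x‖ ^ n) fun y hy => ?_
  rw [abs_mul, abs_pow]
  have h1 := abs_real_inner_le_norm x y
  rw [hy, mul_one] at h1
  calc |ind E y| * |⟪x, y⟫| ^ n ≤ 1 * ‖x‖ ^ n :=
        mul_le_mul (ind_bdd E y) (pow_le_pow_left₀ (abs_nonneg _) h1 n) (by positivity)
          zero_le_one
    _ = _ := one_mul _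

lemma G_eq {E : Set E4} (hE : MeasurableSet E) (J : ℕ) (x : E4) :
    G E J x = ∑ j ∈ Finset.range J, ∫ y, ind E y * ⟪x, y⟫ ^ (2 * j) ∂(sph 4) := by
  rw [G, ← integral_finsetSum _ fun j _ => int_n hE _ x]
  refine integral_congr_ae (Eventually.of_forall fun y => ?_)
  simp only [gs, Finset.mul_sum]

lemma G_nonneg {E : Set E4} (J : ℕ) (x : E4) : 0 ≤ G E J x :=
  integral_nonneg fun y => mul_nonneg (ind_nonneg E y) (gs_nonneg _ _)

lemma lower {E : Set E4} (hE : MeasurableSet E) (hev : ∀ x, -x ∈ E ↔ x ∈ E) (J : ℕ) {x : E4}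
    (hx : ‖x‖ = 1) :
    ENNReal.ofReal (G E J x) ≤ 2 * ∫⁻ y, ii E y * w ⟪x, y⟫ ∂(sph 4) := by
  rw [two_w hE hev x]
  have hint : Integrable (fun y => ind E y * gs J ⟪x, y⟫) (sph 4) := by
    refine integrable_of_bdd ((ind_meas hE).mul ((gs_cont J).measurable.comp (by fun_prop))) J
      fun y hy => ?_
    rw [abs_mul]
    have h1 := abs_real_inner_le_norm x y
    rw [hy, hx, mul_one] at h1
    calc |ind E y| * |gs J ⟪x, y⟫| ≤ 1 * J :=
          mul_le_mul (ind_bdd E y) (gs_bdd h1) (abs_nonneg _) zero_le_one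
      _ = _ := one_mul _
  rw [G, ofReal_integral_eq_lintegral_ofReal hint
    (Eventually.of_forall fun y => mul_nonneg (ind_nonneg E y) (gs_nonneg _ _))]
  refine lintegral_mono_ae ?_
  filter_upwards [ae_lt_one hx] with y hy
  rw [w_add hy, ii_eq, ← ENNReal.ofReal_mul (ind_nonneg E y)]
  exact ENNReal.ofReal_le_ofReal (mul_le_mul_of_nonneg_left (gs_le hy J) (ind_nonneg E y))

lemma G_meas {E : Set E4} (hE : MeasurableSet E) (J : ℕ) : Measurable (G E J) := by
  have : G E J = fun x => ∑ j ∈ Finset.range J, ∑ p : Fin (2 * j) → Fin 4, mon p x * am E p := by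
    funext x
    rw [G_eq hE]
    exact Finset.sum_congr rfl fun j _ => inner_int hE (2 * j) x
  rw [this]
  refine Finset.measurable_fun_sum _ fun j _ => Finset.measurable_fun_sum _ fun p _ => ?_
  exact (mon_cont p).measurable.mul_const _

/-- sum of even moments -/
noncomputable def KJ (J : ℕ) : ℝ := ∑ j ∈ Finset.range J, kap (2 * j)

lemma KJ_eq (J : ℕ) : KJ J = ∫ y, gs J ⟪e0, y⟫ ∂(sph 4) := by
  have h := G_eq MeasurableSet.univ J e0
  simp only [G, ind_univ, one_mul] at h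
  rw [h, KJ]
  rfl

lemma KJ_nonneg (J : ℕ) : 0 ≤ KJ J := by
  rw [KJ_eq]
  exact integral_nonneg fun y => gs_nonneg _ _

lemma w_int : ∫⁻ y, w ⟪e0, y⟫ ∂(sph 4) = 1 := by
  have h := ker (fun _ => 1) measurable_const norm_e0
  simp only [one_mul, lintegral_const, measure_univ] at h
  exact h.symm

lemma w_int2 : ∫⁻ y, ENNReal.ofReal (1 / (1 - ⟪e0, y⟫ ^ 2)) ∂(sph 4) = 2 := by
  have h := two_w (E := univ) MeasurableSet.univ (by simp) e0
  have hu : ∀ y, ii univ y = 1 := by intro y; simp [ii]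
  simp only [hu, one_mul] at h
  rw [w_int, mul_one] at h
  refine Eq.trans ?_ h.symm
  refine lintegral_congr_ae ?_
  filter_upwards [ae_lt_one norm_e0] with y hy
  rw [w_add hy]

lemma KJ_tendsto : Tendsto (fun J => ENNReal.ofReal (KJ J)) atTop (𝓝 2) := by
  rw [← w_int2]
  have h : ∀ J, ENNReal.ofReal (KJ J) = ∫⁻ y, ENNReal.ofReal (gs J ⟪e0, y⟫) ∂(sph 4) := by
    intro J
    rw [KJ_eq, ofReal_integral_eq_lintegral_ofReal]
    · refine integrable_of_bdd ((gs_cont J).measurable.comp (by fun_prop)) J fun y hy => ?_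
      have h1 := abs_real_inner_le_norm e0 y
      rw [hy, norm_e0, mul_one] at h1
      exact gs_bdd h1
    · exact Eventually.of_forall fun y => gs_nonneg _ _
  simp_rw [h]
  refine lintegral_tendsto_of_tendsto_of_monotone ?_ ?_ ?_
  · intro J
    exact (ENNReal.measurable_ofReal.comp
      ((gs_cont J).measurable.comp (by fun_prop))).aemeasurable
  · exact Eventually.of_forall fun y => fun a b hab =>
      ENNReal.ofReal_le_ofReal (gs_mono _ hab)
  · filter_upwards [ae_lt_one norm_e0] with y hy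
    exact ENNReal.tendsto_ofReal (gs_tendsto hy)

lemma outer {E : Set E4} (hE : MeasurableSet E) (J : ℕ) :
    ENNReal.ofReal ((sph 4).real E ^ 2) * ENNReal.ofReal (KJ J) ≤
      ∫⁻ x, ii E x * ENNReal.ofReal (G E J x) ∂(sph 4) := by
  have hGb : ∀ x, ‖x‖ = 1 → |G E J x| ≤ J := by
    intro x hx
    rw [abs_of_nonneg (G_nonneg J x), G]
    have : ∫ y, ind E y * gs J ⟪x, y⟫ ∂(sph 4) ≤ ∫ _, (J : ℝ) ∂(sph 4) := by
      refine integral_mono_ae ?_ (integrable_const _) ?_
      · refine integrable_of_bdd ((ind_meas hE).mul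
          ((gs_cont J).measurable.comp (by fun_prop))) J fun y hy => ?_
        rw [abs_mul]
        have h1 := abs_real_inner_le_norm x y
        rw [hy, hx, mul_one] at h1
        calc |ind E y| * |gs J ⟪x, y⟫| ≤ 1 * J :=
              mul_le_mul (ind_bdd E y) (gs_bdd h1) (abs_nonneg _) zero_le_one
          _ = _ := one_mul _
      · filter_upwards [sph_ae] with y hy
        have h1 := abs_real_inner_le_norm x y
        rw [hy, hx, mul_one] at h1
        have h2 := gs_bdd (J := J) h1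
        rw [abs_of_nonneg (gs_nonneg _ _)] at h2
        have h3 := ind_bdd E y
        rw [abs_of_nonneg (ind_nonneg _ _)] at h3
        calc ind E y * gs J ⟪x, y⟫ ≤ 1 * J :=
              mul_le_mul h3 h2 (gs_nonneg _ _) zero_le_one
          _ = _ := one_mul _
    refine this.trans (le_of_eq ?_)
    simp
  have hint : Integrable (fun x => ind E x * G E J x) (sph 4) := by
    refine integrable_of_bdd ((ind_meas hE).mul (G_meas hE J)) J fun x hx => ?_
    rw [abs_mul]
    calc |ind E x| * |G E J x| ≤ 1 * J :=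
          mul_le_mul (ind_bdd E x) (hGb x hx) (abs_nonneg _) zero_le_one
      _ = _ := one_mul _
  have h1 : ∫⁻ x, ii E x * ENNReal.ofReal (G E J x) ∂(sph 4) =
      ENNReal.ofReal (∫ x, ind E x * G E J x ∂(sph 4)) := by
    rw [ofReal_integral_eq_lintegral_ofReal hint
      (Eventually.of_forall fun x => mul_nonneg (ind_nonneg E x) (G_nonneg J x))]
    refine lintegral_congr fun x => ?_
    rw [ii_eq, ENNReal.ofReal_mul (ind_nonneg E x)]
  rw [h1, ← ENNReal.ofReal_mul (sq_nonneg _)]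
  apply ENNReal.ofReal_le_ofReal
  have h2 : ∫ x, ind E x * G E J x ∂(sph 4) =
      ∑ j ∈ Finset.range J, ∫ x, ind E x * ∫ y, ind E y * ⟪x, y⟫ ^ (2 * j) ∂(sph 4) ∂(sph 4) := by
    rw [← integral_finsetSum]
    · refine integral_congr_ae (Eventually.of_forall fun x => ?_)
      simp only [G_eq hE, Finset.mul_sum]
    · intro j _
      have e : (fun x => ind E x * ∫ y, ind E y * ⟪x, y⟫ ^ (2 * j) ∂(sph 4)) =
          fun x => ∑ p : Fin (2 * j) → Fin 4, (ind E x * mon p x) * am E p := by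
        funext x
        rw [inner_int hE, Finset.mul_sum]
        exact Finset.sum_congr rfl fun p _ => by ring
      rw [e]
      exact integrable_finsetSum _ fun p _ => (ind_mon_int hE p).mul_const _
  rw [h2, KJ, Finset.mul_sum]
  exact Finset.sum_le_sum fun j _ => psd' hE (2 * j)

lemma sy_cont : Continuous fun z : E4 × E4 => sy z.1 z.2 := by
  unfold sy; fun_prop

/-- The average of `σ(E ∩ s_g E)` over all `g` is at least `σ(E)²`. -/
theorem average {E : Set E4} (hE : MeasurableSet E) (hev : ∀ x, -x ∈ E ↔ x ∈ E) :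
    ENNReal.ofReal ((sph 4).real E ^ 2) ≤
      ∫⁻ g, sph 4 (E ∩ {x | sy g x ∈ E}) ∂(sph 4) := by
  set T := ∫⁻ g, sph 4 (E ∩ {x | sy g x ∈ E}) ∂(sph 4) with hT
  have h1 : T = ∫⁻ x, ii E x * ∫⁻ y, ii E y * w ⟪x, y⟫ ∂(sph 4) ∂(sph 4) := by
    have hm : Measurable fun z : E4 × E4 => ii E z.2 * ii E (sy z.1 z.2) :=
      ((ii_meas hE).comp measurable_snd).mul ((ii_meas hE).comp sy_cont.measurable)
    have a1 : T = ∫⁻ g, ∫⁻ x, ii E x * ii E (sy g x) ∂(sph 4) ∂(sph 4) := by
      refine lintegral_congr fun g => ?_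
      have hmeas : MeasurableSet (E ∩ {x | sy g x ∈ E}) :=
        hE.inter ((sy_cont.comp (continuous_const.prodMk continuous_id)).measurable hE)
      rw [← lintegral_indicator_one hmeas]
      refine lintegral_congr fun x => ?_
      unfold ii indicator
      by_cases hx : x ∈ E <;> by_cases hx' : sy g x ∈ E <;> simp [hx, hx']
    rw [a1, lintegral_lintegral_swap hm.aemeasurable]
    refine lintegral_congr_ae ?_
    filter_upwards [sph_ae] with x hx
    have hm2 : Measurable fun g => ii E (sy g x) :=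
      (ii_meas hE).comp (sy_cont.comp (continuous_id.prodMk continuous_const)).measurable
    rw [lintegral_const_mul _ hm2, ker (ii E) (ii_meas hE) hx]
  have h2 : ∀ J, ENNReal.ofReal ((sph 4).real E ^ 2) * ENNReal.ofReal (KJ J) ≤ 2 * T := by
    intro J
    refine (outer hE J).trans ?_
    have hwm : Measurable fun x => ii E x * ∫⁻ y, ii E y * w ⟪x, y⟫ ∂(sph 4) := by
      refine (ii_meas hE).mul ?_
      refine Measurable.lintegral_prod_right' (f := fun z : E4 × E4 => ii E z.2 * w ⟪z.1, z.2⟫) ?_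
      exact ((ii_meas hE).comp measurable_snd).mul (w_meas.comp (by fun_prop))
    rw [h1, ← lintegral_const_mul _ hwm]
    refine lintegral_mono_ae ?_
    filter_upwards [sph_ae] with x hx
    rw [mul_left_comm]
    exact mul_le_mul_right (lower hE hev J hx) _
  have h3 : Tendsto (fun J => ENNReal.ofReal ((sph 4).real E ^ 2) * ENNReal.ofReal (KJ J)) atTop
      (𝓝 (ENNReal.ofReal ((sph 4).real E ^ 2) * 2)) :=
    ENNReal.Tendsto.const_mul KJ_tendsto (Or.inr ENNReal.ofReal_ne_top)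
  have h4 := le_of_tendsto' h3 h2
  rw [mul_comm] at h4
  exact (ENNReal.mul_le_mul_iff_right (by norm_num) (by norm_num)).1 h4

theorem exists_center {E : Set E4} (hE : MeasurableSet E) (hev : ∀ x, -x ∈ E ↔ x ∈ E) :
    ∃ g : E4, ‖g‖ = 1 ∧ (sph 4 E) ^ 2 ≤ sph 4 (E ∩ {x | sy g x ∈ E}) := by
  have h := average hE hev
  have hfin : ∫⁻ g, sph 4 (E ∩ {x | sy g x ∈ E}) ∂(sph 4) ≠ ∞ := by
    refine ne_top_of_le_ne_top ENNReal.one_ne_top ?_
    calc ∫⁻ g, sph 4 (E ∩ {x | sy g x ∈ E}) ∂(sph 4) ≤ ∫⁻ _, 1 ∂(sph 4) :=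
          lintegral_mono fun g => prob_le_one
      _ = 1 := by simp
  have hN : sph 4 {g : E4 | ¬ ‖g‖ = 1} = 0 := by
    have := sph_ae (d := 4)
    rwa [ae_iff] at this
  obtain ⟨g, hg1, hg2⟩ := exists_notMem_null_lintegral_le hfin hN
  refine ⟨g, not_not.1 hg1, le_trans ?_ (h.trans hg2)⟩
  rw [ENNReal.ofReal_pow measureReal_nonneg, measureReal_def, ENNReal.ofReal_toReal
    (measure_ne_top _ _)]

end Pool.Agent.H762R3.Avg
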