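import Mathlib

/-! Sequential random choice with conflicts: a counting lemma. -/

set_option autoImplicit false

namespace H762R3.BoxCount

open Finset

variable {Ω : Type*} [Fintype Ω]

/-- sum of `f` over all lists of length `M` -/
noncomputable def sumL : ℕ → (List Ω → ℝ) → ℝ
  | 0, f => f []
  | M + 1, f => sumL M (fun l => ∑ a, f (a :: l))

theorem sumL_mono (M : ℕ) : ∀ (f g : List Ω → ℝ), (∀ l, f l ≤ g l) → sumL M f ≤ sumL M g := by
  induction M with
  | zero => intro f g h; exact h []
  | succ M ih =>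
    intro f g h
    exact ih _ _ (fun l => Finset.sum_le_sum (fun a _ => h (a :: l)))

theorem sumL_add (M : ℕ) : ∀ (f g : List Ω → ℝ),
    sumL M (fun l => f l + g l) = sumL M f + sumL M g := by
  induction M with
  | zero => intro f g; rfl
  | succ M ih =>
    intro f g
    simp only [sumL]
    rw [← ih]
    congr 1
    funext l
    rw [Finset.sum_add_distrib]

theorem sumL_mul (M : ℕ) (c : ℝ) : ∀ (f : List Ω → ℝ),
    sumL M (fun l => c * f l) = c * sumL M f := by
  induction M with
  | zero => intro f; rfl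
  | succ M ih =>
    intro f
    simp only [sumL]
    rw [← ih]
    congr 1
    funext l
    rw [Finset.mul_sum]

theorem sumL_zero (M : ℕ) : sumL M (fun _ : List Ω => (0 : ℝ)) = 0 := by
  have h := sumL_mul M 0 (fun _ : List Ω => (0 : ℝ))
  simpa using h

theorem sumL_sum {ι : Type*} (M : ℕ) (s : Finset ι) (f : ι → List Ω → ℝ) :
    sumL M (fun l => ∑ i ∈ s, f i l) = ∑ i ∈ s, sumL M (f i) := by
  classical
  induction s using Finset.induction_on with
  | empty => simpa using sumL_zero (Ω := Ω) M
  | insert i s hi ih =>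
    rw [Finset.sum_insert hi, ← ih, ← sumL_add]
    congr 1
    funext l
    rw [Finset.sum_insert hi]

theorem le_sumL (M : ℕ) : ∀ (c : ℝ) (f : List Ω → ℝ), (∀ l, l.length = M → c ≤ f l) →
    c * (Fintype.card Ω : ℝ) ^ M ≤ sumL M f := by
  induction M with
  | zero => intro c f h; simpa [sumL] using h [] rfl
  | succ M ih =>
    intro c f h
    have h1 := ih (c * (Fintype.card Ω : ℝ)) (fun l => ∑ a, f (a :: l)) (fun l hl => by
      have h2 : ∑ _a : Ω, c ≤ ∑ a : Ω, f (a :: l) :=
        Finset.sum_le_sum (fun a _ => h (a :: l) (by simp [hl]))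
      rw [Finset.sum_const, Finset.card_univ, nsmul_eq_mul, mul_comm] at h2
      exact h2)
    calc c * (Fintype.card Ω : ℝ) ^ (M + 1) = c * (Fintype.card Ω : ℝ) * (Fintype.card Ω : ℝ) ^ M := by ring
      _ ≤ _ := h1

variable (Conf : Ω → Ω → Prop)

open Classical in
/-- the picks which do not conflict with an earlier pick (the head of the list is the latest pick) -/
noncomputable def kept : List Ω → List Ω
  | [] => []
  | a :: l => if ∀ b ∈ l, ¬ Conf b a then a :: kept l else kept l

theorem kept_sub (l : List Ω) : ∀ a ∈ kept Conf l, a ∈ l := by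
  induction l with
  | nil => intro a ha; simp [kept] at ha
  | cons b l ih =>
    intro a ha
    unfold kept at ha
    split_ifs at ha with h
    · rcases List.mem_cons.mp ha with h1 | h1
      · exact h1 ▸ List.mem_cons_self
      · exact List.mem_cons_of_mem _ (ih a h1)
    · exact List.mem_cons_of_mem _ (ih a ha)

theorem kept_pairwise (l : List Ω) : (kept Conf l).Pairwise (fun a b => ¬ Conf b a) := by
  induction l with
  | nil => simp [kept]
  | cons b l ih =>
    unfold kept
    split_ifs with h
    · exact List.pairwise_cons.mpr ⟨fun a ha => h a (kept_sub Conf l a ha), ih⟩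
    · exact ih

/-- no kept pick lies in `T` -/
def Fail (T : Finset Ω) (l : List Ω) : Prop := ∀ a ∈ kept Conf l, a ∉ T

theorem fail_tail (T : Finset Ω) (a : Ω) (l : List Ω) (h : Fail Conf T (a :: l)) :
    Fail Conf T l := by
  intro b hb
  apply h
  unfold kept
  split_ifs
  · exact List.mem_cons_of_mem _ hb
  · exact hb

theorem fail_head (T : Finset Ω) (a : Ω) (l : List Ω) (h : Fail Conf T (a :: l))
    (haT : a ∈ T) : ∃ b ∈ l, Conf b a := by
  by_contra hc
  push Not at hc
  have : a ∈ kept Conf (a :: l) := by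
    unfold kept
    rw [if_pos hc]
    exact List.mem_cons_self
  exact h a this haT

open Classical in
/-- number of elements of `T` in conflict with `b` -/
noncomputable def X (T : Finset Ω) (b : Ω) : ℕ := (T.filter (fun a => Conf b a)).card

open Classical in
theorem card_bad (T : Finset Ω) (l : List Ω) :
    (T.filter (fun a => ∃ b ∈ l, Conf b a)).card ≤ (l.map (X Conf T)).sum := by
  induction l with
  | nil => simp
  | cons b l ih =>
    rw [List.map_cons, List.sum_cons]
    refine le_trans ?_ (Nat.add_le_add_left ih _)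
    unfold X
    refine le_trans (Finset.card_le_card ?_) (Finset.card_union_le _ _)
    intro a ha
    rw [Finset.mem_filter] at ha
    obtain ⟨haT, c, hc, hca⟩ := ha
    rcases List.mem_cons.mp hc with h1 | h1
    · subst h1
      exact Finset.mem_union_left _ (Finset.mem_filter.mpr ⟨haT, hca⟩)
    · exact Finset.mem_union_right _ (Finset.mem_filter.mpr ⟨haT, c, h1, hca⟩)

open Classical in
/-- indicator of failure with few conflicts -/
noncomputable def phi (T : Finset Ω) (l : List Ω) : ℝ :=
  if Fail Conf T l ∧ 2 * (l.map (X Conf T)).sum ≤ T.card then 1 else 0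

theorem sumL_phi (T : Finset Ω) (M : ℕ) :
    sumL M (phi Conf T) ≤ ((Fintype.card Ω : ℝ) - T.card / 2) ^ M := by
  classical
  induction M with
  | zero =>
    simp only [sumL, pow_zero]
    unfold phi
    split_ifs <;> norm_num
  | succ M ih =>
    have hV : (T.card : ℝ) ≤ Fintype.card Ω := by
      exact_mod_cast Finset.card_le_univ T
    have hV0 : (0 : ℝ) ≤ T.card := Nat.cast_nonneg _
    have hpos : (0 : ℝ) ≤ (Fintype.card Ω : ℝ) - T.card / 2 := by linarith
    have key : ∀ l : List Ω, ∑ a, phi Conf T (a :: l) ≤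
        ((Fintype.card Ω : ℝ) - T.card / 2) * phi Conf T l := by
      intro l
      by_cases hl : Fail Conf T l ∧ 2 * (l.map (X Conf T)).sum ≤ T.card
      · have h1 : phi Conf T l = 1 := by unfold phi; rw [if_pos hl]
        rw [h1, mul_one]
        have h2 : ∀ a, phi Conf T (a :: l) ≤
            if a ∈ T.filter (fun a => ¬ ∃ b ∈ l, Conf b a) then 0 else 1 := by
          intro a
          unfold phi
          split_ifs with h3 h4
          · exfalso
            rw [Finset.mem_filter] at h4
            exact h4.2 (fail_head Conf T a l h3.1 h4.1)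
          · exact le_rfl
          · exact le_rfl
          · norm_num
        refine le_trans (Finset.sum_le_sum (fun a _ => h2 a)) ?_
        rw [Finset.sum_ite, Finset.sum_const_zero, zero_add, Finset.sum_const, nsmul_eq_mul, mul_one]
        have h5 : (univ.filter (fun a => a ∉ T.filter (fun a => ¬ ∃ b ∈ l, Conf b a))).card +
            (T.filter (fun a => ¬ ∃ b ∈ l, Conf b a)).card = Fintype.card Ω := by
          have h6 : univ.filter (fun a => a ∉ T.filter (fun a => ¬ ∃ b ∈ l, Conf b a)) =
              (T.filter (fun a => ¬ ∃ b ∈ l, Conf b a))ᶜ := by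
            ext a; simp
          rw [h6, Finset.card_compl]
          exact Nat.sub_add_cancel (Finset.card_le_univ _)
        have h7 : (T.filter (fun a => ∃ b ∈ l, Conf b a)).card +
            (T.filter (fun a => ¬ ∃ b ∈ l, Conf b a)).card = T.card :=
          Finset.card_filter_add_card_filter_not _
        have h8 := card_bad Conf T l
        have h9 : 2 * (T.filter (fun a => ∃ b ∈ l, Conf b a)).card ≤ T.card := by
          have := hl.2; omega
        have h5' : ((univ.filter (fun a => a ∉ T.filter (fun a => ¬ ∃ b ∈ l, Conf b a))).card : ℝ) +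
            ((T.filter (fun a => ¬ ∃ b ∈ l, Conf b a)).card : ℝ) = Fintype.card Ω := by
          exact_mod_cast h5
        have h7' : ((T.filter (fun a => ∃ b ∈ l, Conf b a)).card : ℝ) +
            ((T.filter (fun a => ¬ ∃ b ∈ l, Conf b a)).card : ℝ) = T.card := by
          exact_mod_cast h7
        have h9' : 2 * ((T.filter (fun a => ∃ b ∈ l, Conf b a)).card : ℝ) ≤ T.card := by
          exact_mod_cast h9
        linarith
      · have h1 : phi Conf T l = 0 := by unfold phi; rw [if_neg hl]
        rw [h1, mul_zero]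
        apply le_of_eq
        apply Finset.sum_eq_zero
        intro a _
        unfold phi
        rw [if_neg]
        rintro ⟨h2, h3⟩
        apply hl
        refine ⟨fail_tail Conf T a l h2, ?_⟩
        rw [List.map_cons, List.sum_cons] at h3
        omega
    calc sumL (M + 1) (phi Conf T) = sumL M (fun l => ∑ a, phi Conf T (a :: l)) := rfl
      _ ≤ sumL M (fun l => ((Fintype.card Ω : ℝ) - T.card / 2) * phi Conf T l) :=
          sumL_mono M _ _ key
      _ = ((Fintype.card Ω : ℝ) - T.card / 2) * sumL M (phi Conf T) := sumL_mul M _ _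
      _ ≤ ((Fintype.card Ω : ℝ) - T.card / 2) * ((Fintype.card Ω : ℝ) - T.card / 2) ^ M :=
          mul_le_mul_of_nonneg_left ih hpos
      _ = _ := by ring

theorem sumL_exp (Y : Ω → ℝ) (c : ℝ) (M : ℕ) :
    sumL M (fun l => c * Real.exp ((l.map Y).sum)) = c * (∑ a, Real.exp (Y a)) ^ M := by
  induction M with
  | zero => simp [sumL]
  | succ M ih =>
    have h1 : sumL (M + 1) (fun l => c * Real.exp ((l.map Y).sum)) =
        sumL M (fun l => (∑ a, Real.exp (Y a)) * (c * Real.exp ((l.map Y).sum))) := by
      show sumL M (fun l => ∑ a, c * Real.exp (((a :: l).map Y).sum)) = _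
      congr 1
      funext l
      rw [Finset.sum_mul]
      apply Finset.sum_congr rfl
      intro a _
      rw [List.map_cons, List.sum_cons, Real.exp_add]
      ring
    rw [h1, sumL_mul, ih]
    ring


theorem exp_le_lin (u : ℝ) (h0 : 0 ≤ u) (h1 : u ≤ 1 / 2) : Real.exp u ≤ 1 + 2 * u := by
  have h2 : 1 - u ≤ Real.exp (-u) := Real.one_sub_le_exp_neg u
  have h3 : 0 < 1 - u := by linarith
  have h4 : Real.exp u * Real.exp (-u) = 1 := by rw [← Real.exp_add]; simp
  have h5 : 0 < Real.exp u := Real.exp_pos u
  have h6 : Real.exp u * (1 - u) ≤ 1 := by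
    calc Real.exp u * (1 - u) ≤ Real.exp u * Real.exp (-u) :=
          mul_le_mul_of_nonneg_left h2 h5.le
      _ = 1 := h4
  have h7 : 1 ≤ (1 + 2 * u) * (1 - u) := by nlinarith
  have h8 : Real.exp u * (1 - u) ≤ (1 + 2 * u) * (1 - u) := le_trans h6 h7
  exact le_of_mul_le_mul_right h8 h3

open Classical in
/-- indicator of failure -/
noncomputable def ind (T : Finset Ω) (l : List Ω) : ℝ := if Fail Conf T l then 1 else 0

open Classical in
theorem sumL_ind (D : ℕ) (hD : 0 < D) (hsymm : ∀ a b, Conf a b → Conf b a)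
    (hdeg : ∀ b, (univ.filter (fun a => Conf b a)).card ≤ D) (M : ℕ)
    (hM : 8 * D * M = Fintype.card Ω) (T : Finset Ω) :
    sumL M (ind Conf T) ≤
      2 * Real.exp (-((T.card : ℝ) / (16 * D))) * (Fintype.card Ω : ℝ) ^ M := by
  have hDr : (0 : ℝ) < D := by exact_mod_cast hD
  have hV0 : (0 : ℝ) ≤ T.card := Nat.cast_nonneg _
  have hVW : (T.card : ℝ) ≤ Fintype.card Ω := by exact_mod_cast Finset.card_le_univ T
  have hMr : 8 * (D : ℝ) * M = Fintype.card Ω := by exact_mod_cast hM
  rcases Nat.eq_zero_or_pos M with hM0 | hM0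
  · -- then Ω is empty
    subst hM0
    have hW : (Fintype.card Ω : ℝ) = 0 := by rw [← hMr]; simp
    have hT : (T.card : ℝ) = 0 := le_antisymm (hW ▸ hVW) hV0
    rw [hT]
    simp only [sumL, zero_div, neg_zero, Real.exp_zero, pow_zero]
    unfold ind
    split_ifs <;> norm_num
  have hMpos : (0 : ℝ) < M := by exact_mod_cast hM0
  have hW : (0 : ℝ) < Fintype.card Ω := by rw [← hMr]; positivity
  -- pointwise bound
  have hpt : ∀ l : List Ω, ind Conf T l ≤ phi Conf T l +
      Real.exp (-((T.card : ℝ) / (4 * D))) *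
        Real.exp ((l.map (fun a => (X Conf T a : ℝ) / (2 * D))).sum) := by
    intro l
    have hexp : 0 ≤ Real.exp (-((T.card : ℝ) / (4 * D))) *
        Real.exp ((l.map (fun a => (X Conf T a : ℝ) / (2 * D))).sum) := by positivity
    unfold ind
    by_cases h1 : Fail Conf T l
    · rw [if_pos h1]
      by_cases h2 : 2 * (l.map (X Conf T)).sum ≤ T.card
      · have : phi Conf T l = 1 := by unfold phi; rw [if_pos ⟨h1, h2⟩]
        linarith
      · have h3 : phi Conf T l = 0 := by
          unfold phi; rw [if_neg]; rintro ⟨_, h⟩; exact h2 h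
        rw [h3, zero_add, ← Real.exp_add]
        apply Real.one_le_exp
        have h4 : ((l.map (fun a => (X Conf T a : ℝ) / (2 * D))).sum) =
            ((l.map (X Conf T)).sum : ℕ) / (2 * (D : ℝ)) := by
          clear hexp h1 h2 h3
          induction l with
          | nil => simp
          | cons b l ih =>
            rw [List.map_cons, List.sum_cons, ih, List.map_cons, List.sum_cons, Nat.cast_add]
            ring
        rw [h4]
        push Not at h2
        have h5 : (T.card : ℝ) ≤ 2 * ((l.map (X Conf T)).sum : ℕ) := by exact_mod_cast h2.le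
        have h6 : (T.card : ℝ) / (4 * D) ≤ ((l.map (X Conf T)).sum : ℕ) / (2 * (D : ℝ)) := by
          rw [div_le_div_iff₀ (by positivity) (by positivity)]
          nlinarith
        linarith
    · rw [if_neg h1]
      have : 0 ≤ phi Conf T l := by unfold phi; split_ifs <;> norm_num
      linarith
  have hX : ∀ a, (X Conf T a : ℝ) ≤ D := by
    intro a
    have : X Conf T a ≤ (univ.filter (fun b => Conf a b)).card := by
      unfold X
      apply Finset.card_le_card
      intro b hb
      rw [Finset.mem_filter] at hb ⊢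
      exact ⟨Finset.mem_univ _, hb.2⟩
    exact_mod_cast le_trans this (hdeg a)
  have hXsum : ∑ a, (X Conf T a : ℝ) ≤ T.card * D := by
    have h1 : ∑ a, X Conf T a = ∑ b ∈ T, (univ.filter (fun a => Conf a b)).card := by
      unfold X
      simp_rw [Finset.card_filter]
      rw [Finset.sum_comm]
    have h2 : ∑ b ∈ T, (univ.filter (fun a => Conf a b)).card ≤ ∑ _b ∈ T, D := by
      apply Finset.sum_le_sum
      intro b _
      refine le_trans (Finset.card_le_card ?_) (hdeg b)
      intro a ha
      rw [Finset.mem_filter] at ha ⊢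
      exact ⟨Finset.mem_univ _, hsymm a b ha.2⟩
    rw [Finset.sum_const, smul_eq_mul] at h2
    have h3 : ∑ a, X Conf T a ≤ T.card * D := h1 ▸ h2
    exact_mod_cast h3
  have hZ : ∑ a : Ω, Real.exp ((X Conf T a : ℝ) / (2 * D)) ≤ Fintype.card Ω + T.card := by
    have h1 : ∀ a : Ω, Real.exp ((X Conf T a : ℝ) / (2 * D)) ≤ 1 + (X Conf T a : ℝ) / D := by
      intro a
      have h2 : (X Conf T a : ℝ) / (2 * D) ≤ 1 / 2 := by
        rw [div_le_div_iff₀ (by positivity) (by norm_num)]
        linarith [hX a]
      have h3 := exp_le_lin _ (by positivity) h2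
      have h4 : 2 * ((X Conf T a : ℝ) / (2 * D)) = (X Conf T a : ℝ) / D := by
        field_simp
      linarith
    refine le_trans (Finset.sum_le_sum (fun a _ => h1 a)) ?_
    rw [Finset.sum_add_distrib, Finset.sum_const, Finset.card_univ, nsmul_eq_mul, mul_one,
      ← Finset.sum_div]
    have : (∑ a, (X Conf T a : ℝ)) / D ≤ T.card := by
      rw [div_le_iff₀ hDr]; exact hXsum
    linarith
  have hZ0 : 0 ≤ ∑ a : Ω, Real.exp ((X Conf T a : ℝ) / (2 * D)) :=
    Finset.sum_nonneg (fun a _ => (Real.exp_pos _).le)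
  -- ratios
  have e1 : (T.card : ℝ) / (2 * Fintype.card Ω) * M = (T.card : ℝ) / (16 * D) := by
    rw [← hMr]; field_simp; ring
  have e2 : (T.card : ℝ) / (Fintype.card Ω) * M = (T.card : ℝ) / (8 * D) := by
    rw [← hMr]; field_simp
  have b1 : ((Fintype.card Ω : ℝ) - T.card / 2) ^ M ≤
      Real.exp (-((T.card : ℝ) / (16 * D))) * (Fintype.card Ω : ℝ) ^ M := by
    have h1 : (Fintype.card Ω : ℝ) - T.card / 2 =
        (1 - (T.card : ℝ) / (2 * Fintype.card Ω)) * Fintype.card Ω := by
      field_simp
    have h2 : 0 ≤ 1 - (T.card : ℝ) / (2 * Fintype.card Ω) := by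
      have : (T.card : ℝ) / (2 * Fintype.card Ω) ≤ 1 := by
        rw [div_le_one (by positivity)]; linarith
      linarith
    rw [h1, mul_pow]
    apply mul_le_mul_of_nonneg_right _ (by positivity)
    calc (1 - (T.card : ℝ) / (2 * Fintype.card Ω)) ^ M
        ≤ (Real.exp (-((T.card : ℝ) / (2 * Fintype.card Ω)))) ^ M :=
          pow_le_pow_left₀ h2 (Real.one_sub_le_exp_neg _) M
      _ = Real.exp (-((T.card : ℝ) / (16 * D))) := by
          rw [← Real.exp_nat_mul, ← e1]; congr 1; ring
  have b2 : Real.exp (-((T.card : ℝ) / (4 * D))) *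
      (∑ a : Ω, Real.exp ((X Conf T a : ℝ) / (2 * D))) ^ M ≤
      Real.exp (-((T.card : ℝ) / (16 * D))) * (Fintype.card Ω : ℝ) ^ M := by
    have h1 : (Fintype.card Ω : ℝ) + T.card =
        (1 + (T.card : ℝ) / (Fintype.card Ω)) * Fintype.card Ω := by
      field_simp
    have h2 : (∑ a : Ω, Real.exp ((X Conf T a : ℝ) / (2 * D))) ^ M ≤
        Real.exp ((T.card : ℝ) / (8 * D)) * (Fintype.card Ω : ℝ) ^ M := by
      calc (∑ a : Ω, Real.exp ((X Conf T a : ℝ) / (2 * D))) ^ M
          ≤ ((Fintype.card Ω : ℝ) + T.card) ^ M := pow_le_pow_left₀ hZ0 hZ M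
        _ = (1 + (T.card : ℝ) / (Fintype.card Ω)) ^ M * (Fintype.card Ω : ℝ) ^ M := by
            rw [h1, mul_pow]
        _ ≤ (Real.exp ((T.card : ℝ) / (Fintype.card Ω))) ^ M * (Fintype.card Ω : ℝ) ^ M := by
            apply mul_le_mul_of_nonneg_right _ (by positivity)
            apply pow_le_pow_left₀ (by positivity)
            have := Real.add_one_le_exp ((T.card : ℝ) / (Fintype.card Ω))
            linarith
        _ = _ := by
            rw [← Real.exp_nat_mul, ← e2]; congr 2; ring
    calc Real.exp (-((T.card : ℝ) / (4 * D))) *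
          (∑ a : Ω, Real.exp ((X Conf T a : ℝ) / (2 * D))) ^ M
        ≤ Real.exp (-((T.card : ℝ) / (4 * D))) *
          (Real.exp ((T.card : ℝ) / (8 * D)) * (Fintype.card Ω : ℝ) ^ M) :=
          mul_le_mul_of_nonneg_left h2 (Real.exp_pos _).le
      _ = Real.exp (-((T.card : ℝ) / (8 * D))) * (Fintype.card Ω : ℝ) ^ M := by
          rw [← mul_assoc, ← Real.exp_add]
          congr 2
          field_simp
          ring
      _ ≤ _ := by
          apply mul_le_mul_of_nonneg_right _ (by positivity)
          apply Real.exp_le_exp.mpr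
          apply neg_le_neg
          apply div_le_div_of_nonneg_left hV0 (by positivity)
          linarith
  calc sumL M (ind Conf T) ≤ sumL M (fun l => phi Conf T l +
      Real.exp (-((T.card : ℝ) / (4 * D))) *
        Real.exp ((l.map (fun a => (X Conf T a : ℝ) / (2 * D))).sum)) := sumL_mono M _ _ hpt
    _ = sumL M (phi Conf T) + sumL M (fun l => Real.exp (-((T.card : ℝ) / (4 * D))) *
        Real.exp ((l.map (fun a => (X Conf T a : ℝ) / (2 * D))).sum)) := sumL_add M _ _
    _ ≤ Real.exp (-((T.card : ℝ) / (16 * D))) * (Fintype.card Ω : ℝ) ^ M +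
        Real.exp (-((T.card : ℝ) / (16 * D))) * (Fintype.card Ω : ℝ) ^ M := by
        apply add_le_add
        · exact le_trans (sumL_phi Conf T M) b1
        · rw [sumL_exp]; exact b2
    _ = _ := by ring

open Classical in
theorem exists_list (D : ℕ) (hD : 0 < D) (hsymm : ∀ a b, Conf a b → Conf b a)
    (hdeg : ∀ b, (univ.filter (fun a => Conf b a)).card ≤ D) (M : ℕ) (hM0 : 0 < M)
    (hM : 8 * D * M = Fintype.card Ω) {ι : Type*} (s : Finset ι) (T : ι → Finset Ω) (V0 : ℝ)
    (hV : ∀ i ∈ s, V0 ≤ (T i).card)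
    (hsmall : 2 * (s.card : ℝ) * Real.exp (-(V0 / (16 * D))) < 1) :
    ∃ l : List Ω, ∀ i ∈ s, ∃ a ∈ kept Conf l, a ∈ T i := by
  by_contra hcon
  push Not at hcon
  have hDr : (0 : ℝ) < D := by exact_mod_cast hD
  have hW : 0 < Fintype.card Ω := by rw [← hM]; positivity
  have hWr : (0 : ℝ) < Fintype.card Ω := by exact_mod_cast hW
  have h1 : (1 : ℝ) * (Fintype.card Ω : ℝ) ^ M ≤ sumL M (fun l => ∑ i ∈ s, ind Conf (T i) l) := by
    apply le_sumL
    intro l _
    obtain ⟨i, hi, hf⟩ := hcon l
    have h2 : ind Conf (T i) l = 1 := by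
      unfold ind; rw [if_pos]; intro a ha; exact hf a ha
    have h3 : ind Conf (T i) l ≤ ∑ i ∈ s, ind Conf (T i) l := by
      apply Finset.single_le_sum (f := fun i => ind Conf (T i) l) _ hi
      intro j _
      show 0 ≤ ind Conf (T j) l
      unfold ind; split_ifs <;> norm_num
    linarith
  rw [sumL_sum, one_mul] at h1
  have h4 : ∑ i ∈ s, sumL M (ind Conf (T i)) ≤
      ∑ _i ∈ s, 2 * Real.exp (-(V0 / (16 * D))) * (Fintype.card Ω : ℝ) ^ M := by
    apply Finset.sum_le_sum
    intro i hi
    refine le_trans (sumL_ind Conf D hD hsymm hdeg M hM (T i)) ?_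
    apply mul_le_mul_of_nonneg_right _ (by positivity)
    apply mul_le_mul_of_nonneg_left _ (by norm_num)
    apply Real.exp_le_exp.mpr
    apply neg_le_neg
    exact div_le_div_of_nonneg_right (hV i hi) (by positivity)
  rw [Finset.sum_const, nsmul_eq_mul] at h4
  have h5 : (Fintype.card Ω : ℝ) ^ M ≤
      (2 * (s.card : ℝ) * Real.exp (-(V0 / (16 * D)))) * (Fintype.card Ω : ℝ) ^ M := by
    calc (Fintype.card Ω : ℝ) ^ M ≤ _ := le_trans h1 h4
      _ = _ := by ring
  have h6 : (0 : ℝ) < (Fintype.card Ω : ℝ) ^ M := by positivity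
  have h7 : (2 * (s.card : ℝ) * Real.exp (-(V0 / (16 * D)))) * (Fintype.card Ω : ℝ) ^ M <
      1 * (Fintype.card Ω : ℝ) ^ M := mul_lt_mul_of_pos_right hsmall h6
  linarith

end H762R3.BoxCount
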