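import Pool.Agent.H762R3.BoxCount

/-! Switching disjoint cubes `{x_i, x_i + e}^k` in the zero-sum table of a group of exponent two. -/

set_option autoImplicit false

namespace H762R3.BoxSwitch

open Finset
open H762R3.BoxCount

variable {k : ℕ} {G : Type*} [AddCommGroup G]

/-- sum of the coordinates -/
def e (α : Fin k → G) : G := ∑ i, α i

/-- points of the cube of `α` in direction `e α` -/
def pt (α : Fin k → G) (S : Finset (Fin k)) : Fin k → G :=
  fun i => α i + if i ∈ S then e α else 0

/-- two cubes meet -/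
def Conf (β α : Fin k → G) : Prop := ∃ S S', pt β S = pt α S'

theorem conf_symm (a b : Fin k → G) (h : Conf a b) : Conf b a := by
  obtain ⟨S, S', h⟩ := h
  exact ⟨S', S, h.symm⟩

theorem pt_empty (α : Fin k → G) : pt α ∅ = α := by
  funext i; simp [pt]

theorem e_pt (h2 : ∀ x : G, x + x = 0) (α : Fin k → G) (S : Finset (Fin k)) :
    e (pt α S) = 0 ∨ e (pt α S) = e α := by
  have h1 : e (pt α S) = e α + S.card • e α := by
    show ∑ i, (α i + if i ∈ S then e α else 0) = _
    rw [Finset.sum_add_distrib]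
    congr 1
    rw [Finset.sum_ite_mem, Finset.univ_inter, Finset.sum_const]
  have h3 : ∀ r : ℕ, (r + r) • e α = 0 := by
    intro r; rw [add_nsmul]; exact h2 _
  rcases Nat.even_or_odd S.card with ⟨r, hr⟩ | ⟨r, hr⟩
  · right
    rw [h1, hr, h3, add_zero]
  · left
    rw [h1, hr, two_mul, add_nsmul, h3, one_nsmul, zero_add]
    exact h2 _

theorem toggle (h2 : ∀ x : G, x + x = 0) (α : Fin k → G) (S : Finset (Fin k)) (i : Fin k) :
    ∃ S', Function.update (pt α S) i (pt α S i + e α) = pt α S' := by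
  classical
  by_cases hi : i ∈ S
  · refine ⟨S.erase i, ?_⟩
    funext j
    by_cases hj : j = i
    · subst hj
      simp [pt, hi, add_assoc, h2]
    · simp [pt, hj]
  · refine ⟨insert i S, ?_⟩
    funext j
    by_cases hj : j = i
    · subst hj
      simp [pt, hi]
    · simp [pt, hj]

theorem e_update (γ : Fin k → G) (i : Fin k) (x : G) :
    e (Function.update γ i x) = x + ∑ j ∈ univ \ {i}, γ j := by
  unfold e
  rw [Finset.sum_update_of_mem (Finset.mem_univ i)]

/-- union of the switched cubes -/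
def U (K : List (Fin k → G)) (γ : Fin k → G) : Prop :=
  ∃ α ∈ K, e α ≠ 0 ∧ ∃ S, γ = pt α S

open Classical in
/-- the switched table -/
noncomputable def A (K : List (Fin k → G)) (γ : Fin k → G) : Bool :=
  decide ((e γ = 0 ∧ ¬ U K γ) ∨ (e γ ≠ 0 ∧ U K γ))

theorem A_iff (K : List (Fin k → G)) (γ : Fin k → G) :
    A K γ = true ↔ ((e γ = 0 ∧ ¬ U K γ) ∨ (e γ ≠ 0 ∧ U K γ)) := by
  unfold A; simp

/-- if `update γ i x` lies in the cube of `α` and is not zero-sum then its partner on the line is the
zero-sum point, and it also lies in the cube -/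
theorem partner (h2 : ∀ x : G, x + x = 0) (γ : Fin k → G) (i : Fin k) (x : G) (α : Fin k → G)
    (S : Finset (Fin k)) (h : Function.update γ i x = pt α S)
    (hx : e (Function.update γ i x) ≠ 0) :
    x + e α = ∑ j ∈ univ \ {i}, γ j ∧
      ∃ S', Function.update γ i (∑ j ∈ univ \ {i}, γ j) = pt α S' := by
  set s := ∑ j ∈ univ \ {i}, γ j with hs
  have h1 : e (Function.update γ i x) = e α := by
    rcases e_pt h2 α S with h3 | h3
    · exfalso; apply hx; rw [h]; exact h3
    · rw [h]; exact h3
  have h3 : x + s = e α := by rw [← h1, e_update]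
  have h4 : x + e α = s := by
    rw [← h3, ← add_assoc, h2, zero_add]
  refine ⟨h4, ?_⟩
  obtain ⟨S', hS'⟩ := toggle h2 α S i
  refine ⟨S', ?_⟩
  rw [← hS', ← h]
  simp only [Function.update_self, Function.update_idem]
  rw [h4]

theorem A_perm (h2 : ∀ x : G, x + x = 0) (K : List (Fin k → G))
    (hK : ∀ a ∈ K, ∀ b ∈ K, a ≠ b → ¬ Conf a b) (i : Fin k) (γ : Fin k → G) :
    ∃! x, A K (Function.update γ i x) = true := by
  set s := ∑ j ∈ univ \ {i}, γ j with hs
  have he : ∀ x, e (Function.update γ i x) = 0 ↔ x = s := by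
    intro x
    rw [e_update]
    constructor
    · intro h
      have : x + s + s = 0 + s := by rw [h]
      rwa [add_assoc, h2, add_zero, zero_add] at this
    · intro h; rw [h]; exact h2 _
  by_cases hU : U K (Function.update γ i s)
  · obtain ⟨α, hα, hα0, S, hS⟩ := hU
    have hx1 : s + e α ≠ s := by
      intro h
      apply hα0
      exact left_eq_add.mp h.symm
    refine ⟨s + e α, ?_, ?_⟩
    · show A K (Function.update γ i (s + e α)) = true
      rw [A_iff]
      right
      refine ⟨fun h => hx1 ((he _).mp h), α, hα, hα0, ?_⟩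
      obtain ⟨S', hS'⟩ := toggle h2 α S i
      refine ⟨S', ?_⟩
      rw [← hS', ← hS]
      simp only [Function.update_self, Function.update_idem]
    · intro x hx
      replace hx : A K (Function.update γ i x) = true := hx
      rw [A_iff] at hx
      rcases hx with ⟨h1, h3⟩ | ⟨h1, β, hβ, hβ0, S1, hS1⟩
      · exfalso
        rw [(he x).mp h1] at h3
        exact h3 ⟨α, hα, hα0, S, hS⟩
      · obtain ⟨h4, S2, hS2⟩ := partner h2 γ i x β S1 hS1 h1
        have hab : α = β := by
          by_contra hne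
          apply hK α hα β hβ hne
          exact ⟨S, S2, by rw [← hS, ← hS2]⟩
        rw [← hs] at h4
        rw [hab, ← h4, add_assoc, h2, add_zero]
  · refine ⟨s, ?_, ?_⟩
    · show A K (Function.update γ i s) = true
      rw [A_iff]
      exact Or.inl ⟨(he s).mpr rfl, hU⟩
    · intro x hx
      replace hx : A K (Function.update γ i x) = true := hx
      rw [A_iff] at hx
      rcases hx with ⟨h1, _⟩ | ⟨h1, β, hβ, hβ0, S1, hS1⟩
      · exact (he x).mp h1
      · exfalso
        obtain ⟨_, S2, hS2⟩ := partner h2 γ i x β S1 hS1 h1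
        exact hU ⟨β, hβ, hβ0, S2, hS2⟩

/-- a kept pick is a one of the switched table -/
theorem A_kept (K : List (Fin k → G))
    (hK : ∀ a ∈ K, ∀ b ∈ K, a ≠ b → ¬ Conf a b) (α : Fin k → G) (hα : α ∈ K) :
    A K α = true := by
  rw [A_iff]
  by_cases h0 : e α = 0
  · left
    refine ⟨h0, ?_⟩
    rintro ⟨β, hβ, hβ0, S, hS⟩
    have hne : α ≠ β := by
      intro h; rw [h] at h0; exact hβ0 h0
    exact hK α hα β hβ hne ⟨∅, S, by rw [pt_empty]; exact hS⟩
  · right
    exact ⟨h0, α, hα, h0, ∅, (pt_empty α).symm⟩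

open Classical in
theorem deg_le [Fintype G] (β : Fin k → G) :
    (univ.filter (fun α : Fin k → G => Conf β α)).card ≤ 4 ^ k * Fintype.card G := by
  have hsub : univ.filter (fun α : Fin k → G => Conf β α) ⊆
      (univ : Finset (Finset (Fin k) × Finset (Fin k) × G)).image
        (fun p => fun i => pt β p.1 i - if i ∈ p.2.1 then p.2.2 else 0) := by
    intro α hα
    rw [Finset.mem_filter] at hα
    obtain ⟨S, S', h⟩ := hα.2
    rw [Finset.mem_image]
    refine ⟨(S, S', e α), Finset.mem_univ _, ?_⟩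
    funext i
    show pt β S i - (if i ∈ S' then e α else 0) = α i
    rw [h]
    show α i + (if i ∈ S' then e α else 0) - (if i ∈ S' then e α else 0) = α i
    rw [add_sub_cancel_right]
  refine le_trans (Finset.card_le_card hsub) (le_trans Finset.card_image_le ?_)
  rw [Finset.card_univ, Fintype.card_prod, Fintype.card_prod, Fintype.card_finset, Fintype.card_fin]
  apply le_of_eq
  rw [show (4 : ℕ) = 2 * 2 by norm_num, mul_pow]
  ring

/-- main existence statement over a group of exponent two and order `n` -/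
theorem exists_table [Fintype G] (h2 : ∀ x : G, x + x = 0) (hk : 2 ≤ k) (M : ℕ) (hM0 : 0 < M)
    (hM : 8 * (4 ^ k * Fintype.card G) * M = Fintype.card G ^ k) :
    ∃ B : (Fin k → G) → Bool, (∀ i γ, ∃! x, B (Function.update γ i x) = true) ∧
      ∀ T : Fin k → Finset G, (∀ α, (∀ i, α i ∈ T i) → B α = false) →
        ∏ i, (T i).card ≤ 16 * 4 ^ k * (k + 1) * (Fintype.card G) ^ 2 := by
  classical
  set n := Fintype.card G with hn
  have hn0 : 0 < n := Fintype.card_pos
  have hnr : (0 : ℝ) < n := by exact_mod_cast hn0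
  set C : ℕ := 16 * 4 ^ k * (k + 1) with hC
  set s : Finset (Fin k → Finset G) :=
    univ.filter (fun T => C * n ^ 2 < ∏ i, (T i).card) with hs
  have hscard : (s.card : ℝ) ≤ 2 ^ (k * n) := by
    have h1 : s.card ≤ Fintype.card (Fin k → Finset G) := Finset.card_le_univ _
    rw [Fintype.card_pi_const, Fintype.card_finset, ← hn, ← pow_mul, mul_comm n k] at h1
    exact_mod_cast h1
  have hbox : ∀ T ∈ s, ((C * n ^ 2 : ℕ) : ℝ) ≤ (Fintype.piFinset T).card := by
    intro T hT
    rw [hs, Finset.mem_filter] at hT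
    rw [Fintype.card_piFinset]
    exact_mod_cast hT.2.le
  have hsmall : 2 * (s.card : ℝ) *
      Real.exp (-(((C * n ^ 2 : ℕ) : ℝ) / (16 * ((4 ^ k * n : ℕ) : ℝ)))) < 1 := by
    have h1 : ((C * n ^ 2 : ℕ) : ℝ) / (16 * ((4 ^ k * n : ℕ) : ℝ)) = (k + 1 : ℝ) * n := by
      rw [hC]
      push_cast
      field_simp
    rw [h1, Real.exp_neg]
    rw [← div_eq_mul_inv, div_lt_one (Real.exp_pos _)]
    have h3 : 2 * (s.card : ℝ) ≤ 2 ^ ((k + 1) * n) := by
      calc 2 * (s.card : ℝ) ≤ 2 ^ n * 2 ^ (k * n) := by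
            apply mul_le_mul _ hscard (Nat.cast_nonneg _) (by positivity)
            calc (2 : ℝ) = 2 ^ 1 := (pow_one 2).symm
              _ ≤ 2 ^ n := pow_le_pow_right₀ (by norm_num) hn0
        _ = 2 ^ ((k + 1) * n) := by rw [← pow_add]; congr 1; ring
    have h4 : (2 : ℝ) ^ ((k + 1) * n) < Real.exp ((k + 1 : ℝ) * n) := by
      have h5 : (k + 1 : ℝ) * n = (((k + 1) * n : ℕ) : ℝ) * 1 := by push_cast; ring
      rw [h5, Real.exp_nat_mul]
      apply pow_lt_pow_left₀ _ (by norm_num) (by positivity)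
      have := Real.exp_one_gt_d9
      linarith
    linarith
  have hcardΩ : Fintype.card (Fin k → G) = n ^ k := by
    rw [Fintype.card_pi_const]
  obtain ⟨l, hl⟩ := exists_list (Conf (k := k) (G := G)) (4 ^ k * n) (by positivity)
    (fun a b h => conf_symm a b h) (fun b => deg_le b) M hM0 (by rw [hcardΩ]; exact hM) s
    (fun T => Fintype.piFinset T) _ hbox hsmall
  have hpair := kept_pairwise (Conf (k := k) (G := G)) l
  have hK : ∀ a ∈ kept (Conf (k := k) (G := G)) l, ∀ b ∈ kept (Conf (k := k) (G := G)) l,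
      a ≠ b → ¬ Conf a b := by
    have : Std.Symm (fun a b : Fin k → G => ¬ Conf b a) :=
      ⟨fun a b h h' => h (conf_symm _ _ h')⟩
    intro a ha b hb hab h
    exact hpair.forall ha hb hab (conf_symm _ _ h)
  refine ⟨A (kept Conf l), fun i γ => A_perm h2 _ hK i γ, ?_⟩
  intro T hT
  by_contra hlt
  push Not at hlt
  obtain ⟨a, ha, haT⟩ := hl T (by rw [hs, Finset.mem_filter]; exact ⟨Finset.mem_univ _, hlt⟩)
  have h1 := A_kept _ hK a ha
  have h3 := hT a (fun i => (Fintype.mem_piFinset.mp haT) i)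
  rw [h1] at h3
  exact Bool.noConfusion h3

end H762R3.BoxSwitch
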