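import Pool.Agent.H762R3.BoxSwitch

/-! Switched tables that meet all boxes of a given family. -/

set_option autoImplicit false

namespace H762R3.BoxSwitch

open Finset
open H762R3.BoxCount

variable {k : ℕ} {G : Type*} [AddCommGroup G]

theorem exists_table_family [Fintype G] (h2 : ∀ x : G, x + x = 0) (M : ℕ) (hM0 : 0 < M)
    (hM : 8 * (4 ^ k * Fintype.card G) * M = Fintype.card G ^ k) {ι : Type*} (s : Finset ι)
    (T : ι → Fin k → Finset G) (V0 : ℝ) (hV : ∀ i ∈ s, V0 ≤ ((∏ j, (T i j).card : ℕ) : ℝ))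
    (hsmall : 2 * (s.card : ℝ) *
      Real.exp (-(V0 / (16 * ((4 ^ k * Fintype.card G : ℕ) : ℝ)))) < 1) :
    ∃ B : (Fin k → G) → Bool, (∀ i γ, ∃! x, B (Function.update γ i x) = true) ∧
      ∀ i ∈ s, ∃ α, (∀ j, α j ∈ T i j) ∧ B α = true := by
  classical
  have hn0 : 0 < Fintype.card G := Fintype.card_pos
  have hcardΩ : Fintype.card (Fin k → G) = Fintype.card G ^ k := by
    rw [Fintype.card_pi_const]
  obtain ⟨l, hl⟩ := exists_list (Conf (k := k) (G := G)) (4 ^ k * Fintype.card G) (by positivity)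
    (fun a b h => conf_symm a b h) (fun b => deg_le b) M hM0 (by rw [hcardΩ]; exact hM) s
    (fun i => Fintype.piFinset (T i)) V0 (fun i hi => by
      rw [Fintype.card_piFinset]; exact hV i hi) hsmall
  have hpair := kept_pairwise (Conf (k := k) (G := G)) l
  have hK : ∀ a ∈ kept (Conf (k := k) (G := G)) l, ∀ b ∈ kept (Conf (k := k) (G := G)) l,
      a ≠ b → ¬ Conf a b := by
    have : Std.Symm (fun a b : Fin k → G => ¬ Conf b a) :=
      ⟨fun a b h h' => h (conf_symm _ _ h')⟩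
    intro a ha b hb hab h
    exact hpair.forall ha hb hab (conf_symm _ _ h)
  refine ⟨A (kept Conf l), fun i γ => A_perm h2 _ hK i γ, ?_⟩
  intro i hi
  obtain ⟨a, ha, haT⟩ := hl i hi
  exact ⟨a, fun j => (Fintype.mem_piFinset.mp haT) j, A_kept _ hK a ha⟩

/-- tables over `G` (exponent two, order `n`) without empty cubes of side `s0`, if
`s0 ^ (k-1) > C n log n` -/
theorem exists_cube_table [Fintype G] (h2 : ∀ x : G, x + x = 0) (hk : 2 ≤ k)
    (hn : 2 ≤ Fintype.card G) (M : ℕ) (hM0 : 0 < M)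
    (hM : 8 * (4 ^ k * Fintype.card G) * M = Fintype.card G ^ k) (s0 : ℕ)
    (hs0 : 16 * 4 ^ k * (k + 1 : ℝ) * (Fintype.card G * Real.log (Fintype.card G)) <
      (s0 : ℝ) ^ (k - 1)) :
    ∃ B : (Fin k → G) → Bool, (∀ i γ, ∃! x, B (Function.update γ i x) = true) ∧
      ∀ T : Fin k → Finset G, (∀ j, (T j).card = s0) → ∃ α, (∀ j, α j ∈ T j) ∧ B α = true := by
  classical
  set n := Fintype.card G with hndef
  have hn1 : (1 : ℝ) < n := by exact_mod_cast hn
  have hnpos : (0 : ℝ) < n := by linarith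
  have hlog : 0 < Real.log n := Real.log_pos hn1
  have hs0pos : 1 ≤ s0 := by
    by_contra h
    have h0 : s0 = 0 := by omega
    rw [h0] at hs0
    have h3 : ((0 : ℕ) : ℝ) ^ (k - 1) = 0 := by
      rw [Nat.cast_zero]; exact zero_pow (by omega)
    rw [h3] at hs0
    have : 0 < 16 * 4 ^ k * (k + 1 : ℝ) * (n * Real.log n) := by positivity
    linarith
  have hs0r : (0 : ℝ) < s0 := by exact_mod_cast hs0pos
  set F : Finset (Fin k → Finset G) :=
    Fintype.piFinset (fun _ : Fin k => (univ : Finset G).powersetCard s0) with hF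
  have hFcard : (F.card : ℝ) ≤ (n : ℝ) ^ (s0 * k) := by
    have h1 : F.card = (n.choose s0) ^ k := by
      rw [hF, Fintype.card_piFinset]
      simp [Finset.card_powersetCard, hndef]
    have h3 : F.card ≤ (n ^ s0) ^ k := by
      rw [h1]; exact Nat.pow_le_pow_left (Nat.choose_le_pow n s0) k
    rw [← pow_mul] at h3
    exact_mod_cast h3
  obtain ⟨B, hB, hB2⟩ := exists_table_family h2 M hM0 hM F (fun T => T) ((s0 : ℝ) ^ k)
    (by
      intro T hT
      have h1 : ∀ j, (T j).card = s0 := fun j =>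
        (Finset.mem_powersetCard.mp (Fintype.mem_piFinset.mp hT j)).2
      simp only [h1, Finset.prod_const, Finset.card_univ, Fintype.card_fin]
      push_cast
      exact le_rfl)
    (by
      rw [← hndef]
      have h1 : (s0 : ℝ) ^ k = s0 * (s0 : ℝ) ^ (k - 1) := by
        rw [← pow_succ', Nat.sub_add_cancel (by omega)]
      have h3 : ((k + 1 : ℝ) * s0) * Real.log n < (s0 : ℝ) ^ k / (16 * ((4 ^ k * n : ℕ) : ℝ)) := by
        rw [h1, lt_div_iff₀ (by positivity)]
        push_cast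
        calc (k + 1 : ℝ) * s0 * Real.log n * (16 * (4 ^ k * n))
            = s0 * (16 * 4 ^ k * (k + 1 : ℝ) * (n * Real.log n)) := by ring
          _ < s0 * (s0 : ℝ) ^ (k - 1) := mul_lt_mul_of_pos_left hs0 hs0r
      have h4 : Real.exp (-((s0 : ℝ) ^ k / (16 * ((4 ^ k * n : ℕ) : ℝ)))) <
          Real.exp (-(((k + 1 : ℝ) * s0) * Real.log n)) := Real.exp_lt_exp.mpr (neg_lt_neg h3)
      have h5 : Real.exp (((k + 1 : ℝ) * s0) * Real.log n) = (n : ℝ) ^ ((k + 1) * s0) := by
        have : (k + 1 : ℝ) * s0 = (((k + 1) * s0 : ℕ) : ℝ) := by push_cast; ring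
        rw [this, ← Real.log_pow, Real.exp_log (by positivity)]
      rw [Real.exp_neg (((k + 1 : ℝ) * s0) * Real.log n), h5] at h4
      have h6 : 2 * (F.card : ℝ) ≤ (n : ℝ) ^ ((k + 1) * s0) := by
        calc 2 * (F.card : ℝ) ≤ (n : ℝ) ^ s0 * (n : ℝ) ^ (s0 * k) := by
              apply mul_le_mul _ hFcard (Nat.cast_nonneg _) (by positivity)
              calc (2 : ℝ) ≤ n := by exact_mod_cast hn
                _ = (n : ℝ) ^ 1 := (pow_one _).symm
                _ ≤ (n : ℝ) ^ s0 := pow_le_pow_right₀ hn1.le hs0pos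
          _ = (n : ℝ) ^ ((k + 1) * s0) := by rw [← pow_add]; congr 1; ring
      have h7 : (0 : ℝ) < (n : ℝ) ^ ((k + 1) * s0) := by positivity
      rcases eq_or_lt_of_le (Nat.zero_le F.card) with h8 | h8
      · rw [← h8]; simp
      · have h9 : (0 : ℝ) < 2 * (F.card : ℝ) := by
          have : (0 : ℝ) < F.card := by exact_mod_cast h8
          linarith
        calc 2 * (F.card : ℝ) * Real.exp (-((s0 : ℝ) ^ k / (16 * ((4 ^ k * n : ℕ) : ℝ))))
            < 2 * (F.card : ℝ) * ((n : ℝ) ^ ((k + 1) * s0))⁻¹ := mul_lt_mul_of_pos_left h4 h9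
          _ ≤ (n : ℝ) ^ ((k + 1) * s0) * ((n : ℝ) ^ ((k + 1) * s0))⁻¹ :=
              mul_le_mul_of_nonneg_right h6 (by positivity)
          _ = 1 := mul_inv_cancel₀ h7.ne')
  refine ⟨B, hB, ?_⟩
  intro T hT
  exact hB2 T (by
    rw [hF, Fintype.mem_piFinset]
    intro j
    exact Finset.mem_powersetCard.mpr ⟨Finset.subset_univ _, hT j⟩)

end H762R3.BoxSwitch
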