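import Mathlib

set_option autoImplicit false

namespace Pool.Agent.H762R3.Cubes

open Finset

/-- the array `A` is a `d`-dimensional permutation of order `n`. -/
def IsPerm {d n : ℕ} (A : (Fin (d + 1) → Fin n) → Fin 2) : Prop :=
  ∀ (i : Fin (d + 1)) (α : Fin (d + 1) → Fin n), ∃! x : Fin n, A (Function.update α i x) = 1

/-- the box with sides `T i` is empty in `A`. -/
def EmptyBox {d n : ℕ} (A : (Fin (d + 1) → Fin n) → Fin 2)
    (T : Fin (d + 1) → Finset (Fin n)) : Prop :=
  ∀ α : Fin (d + 1) → Fin n, (∀ i, α i ∈ T i) → A α = 0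

/-- the box with sides `T i` is a cube of side `m`. -/
def IsCube {d n : ℕ} (T : Fin (d + 1) → Finset (Fin n)) (m : ℕ) : Prop :=
  ∀ i, (T i).card = m

lemma prod_card {d : ℕ} (p q : Fin (d + 1)) (hpq : p ≠ q) (m : ℕ) :
    (∏ i : Fin (d + 1), if i = p then 1 else if i = q then 1 else m) = m ^ (d - 1) := by
  have h1 : (∏ i : Fin (d + 1), if i = p then 1 else if i = q then 1 else m) =
      ∏ i : Fin (d + 1), if i ∈ ({p, q} : Finset (Fin (d + 1))) then 1 else m := by
    apply Finset.prod_congr rfl
    intro i _
    by_cases h : i = p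
    · simp [h]
    · by_cases h' : i = q
      · simp [h']
      · simp [h, h']
  rw [h1, Finset.prod_ite, Finset.prod_const_one, one_mul, Finset.prod_const]
  congr 1
  have h2 : (Finset.univ.filter (fun i : Fin (d + 1) => i ∉ ({p, q} : Finset (Fin (d + 1))))) =
      Finset.univ \ {p, q} := by
    ext i
    simp
  rw [h2, Finset.card_sdiff_of_subset (Finset.subset_univ _), Finset.card_pair hpq, Finset.card_univ,
    Fintype.card_fin]
  omega

/-- finite criterion. -/
theorem exists_cube {d n m : ℕ} (hd : 1 ≤ d) (hmn : m ≤ n)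
    (hcount : (m - 1) * n.choose m < n * (n - m ^ (d - 1)).choose m)
    (A : (Fin (d + 1) → Fin n) → Fin 2) (hA : IsPerm A) :
    ∃ T : Fin (d + 1) → Finset (Fin n), IsCube T m ∧ EmptyBox A T := by
  classical
  have hn : 0 < n := by
    rcases Nat.eq_zero_or_pos n with h | h
    · subst h
      simp at hcount
    · exact h
  have : NeZero n := ⟨hn.ne'⟩
  let p : Fin (d + 1) := 0
  let q : Fin (d + 1) := Fin.last d
  have hpq : p ≠ q := by
    intro h
    have := congrArg Fin.val h
    simp [p, q] at this
    omega
  obtain ⟨S, -, hS⟩ := Finset.exists_subset_card_eq (s := (Finset.univ : Finset (Fin n))) (n := m)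
    (by simpa using hmn)
  let x0 : Fin n := 0
  -- the base points
  let F : Fin n → Finset (Fin (d + 1) → Fin n) := fun s =>
    Fintype.piFinset (fun i => if i = p then {x0} else if i = q then {s} else S)
  have hF : ∀ s, (F s).card = m ^ (d - 1) := by
    intro s
    simp only [F]
    rw [Fintype.card_piFinset, ← prod_card p q hpq m]
    apply Finset.prod_congr rfl
    intro i _
    split_ifs <;> simp [hS]
  let H : Fin n → Finset (Fin n) := fun s => (F s).image (fun α => (hA p α).choose)
  have hH : ∀ s, (H s).card ≤ m ^ (d - 1) := by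
    intro s
    rw [← hF s]
    exact Finset.card_image_le
  -- double counting
  have hsum : ∑ T ∈ Finset.powersetCard m (Finset.univ : Finset (Fin n)),
      (Finset.univ.filter (fun s => Disjoint T (H s))).card =
      ∑ s : Fin n, ((Finset.powersetCard m (Finset.univ : Finset (Fin n))).filter
        (fun T => Disjoint T (H s))).card := by
    simp only [Finset.card_filter]
    rw [Finset.sum_comm]
  have hterm : ∀ s : Fin n, (n - m ^ (d - 1)).choose m ≤
      ((Finset.powersetCard m (Finset.univ : Finset (Fin n))).filter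
        (fun T => Disjoint T (H s))).card := by
    intro s
    have h1 : (Finset.powersetCard m (Finset.univ : Finset (Fin n))).filter
        (fun T => Disjoint T (H s)) = Finset.powersetCard m (Finset.univ \ H s) := by
      ext T
      simp only [Finset.mem_filter, Finset.mem_powersetCard, Finset.subset_univ, true_and,
        Finset.subset_sdiff]
      tauto
    rw [h1, Finset.card_powersetCard, Finset.card_sdiff_of_subset (Finset.subset_univ _),
      Finset.card_univ, Fintype.card_fin]
    apply Nat.choose_le_choose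
    have := hH s
    omega
  obtain ⟨T, hT, hTm⟩ : ∃ T ∈ Finset.powersetCard m (Finset.univ : Finset (Fin n)),
      m ≤ (Finset.univ.filter (fun s => Disjoint T (H s))).card := by
    by_contra hcon
    push Not at hcon
    have h1 : ∑ T ∈ Finset.powersetCard m (Finset.univ : Finset (Fin n)),
        (Finset.univ.filter (fun s => Disjoint T (H s))).card ≤
        ∑ T ∈ Finset.powersetCard m (Finset.univ : Finset (Fin n)), (m - 1) := by
      apply Finset.sum_le_sum
      intro T hT
      have := hcon T hT
      omega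
    rw [Finset.sum_const, Finset.card_powersetCard, Finset.card_univ, Fintype.card_fin,
      smul_eq_mul] at h1
    have h2 : n * (n - m ^ (d - 1)).choose m ≤
        ∑ s : Fin n, ((Finset.powersetCard m (Finset.univ : Finset (Fin n))).filter
        (fun T => Disjoint T (H s))).card := by
      calc n * (n - m ^ (d - 1)).choose m = ∑ _s : Fin n, (n - m ^ (d - 1)).choose m := by
            rw [Finset.sum_const, Finset.card_univ, Fintype.card_fin, smul_eq_mul]
        _ ≤ _ := Finset.sum_le_sum (fun s _ => hterm s)
    rw [← hsum] at h2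
    have h3 : n * (n - m ^ (d - 1)).choose m ≤ (m - 1) * n.choose m := by
      rw [mul_comm (m - 1)]
      exact h2.trans h1
    omega
  obtain ⟨U, hU, hUm⟩ := Finset.exists_subset_card_eq hTm
  refine ⟨fun i => if i = p then T else if i = q then U else S, ?_, ?_⟩
  · intro i
    show (if i = p then T else if i = q then U else S).card = m
    split_ifs
    · exact (Finset.mem_powersetCard.mp hT).2
    · exact hUm
    · exact hS
  · intro α hα0
    have hα : ∀ i, α i ∈ (if i = p then T else if i = q then U else S) := hα0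
    by_contra hne
    have h1 : A α = 1 := by
      have : ∀ z : Fin 2, z ≠ 0 → z = 1 := by decide
      exact this _ hne
    have hp : α p ∈ T := by simpa using hα p
    have hq : α q ∈ U := by
      have := hα q
      rw [if_neg (Ne.symm hpq), if_pos rfl] at this
      exact this
    have hdisj : Disjoint T (H (α q)) := (Finset.mem_filter.mp (hU hq)).2
    have hmem : α p ∈ H (α q) := by
      simp only [H, Finset.mem_image]
      refine ⟨Function.update α p x0, ?_, ?_⟩
      · simp only [F, Fintype.mem_piFinset]
        intro i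
        by_cases hi : i = p
        · subst hi
          simp
        · rw [Function.update_of_ne hi, if_neg hi]
          by_cases hi' : i = q
          · subst hi'
            simp
          · rw [if_neg hi']
            have := hα i
            rwa [if_neg hi, if_neg hi'] at this
      · have h2 := (hA p (Function.update α p x0)).choose_spec
        symm
        apply h2.2
        show A (Function.update (Function.update α p x0) p (α p)) = 1
        rw [Function.update_idem, Function.update_eq_self]
        exact h1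
    exact (Finset.disjoint_left.mp hdisj) hp hmem

/-! ### counting -/

lemma desc_ratio {N h m : ℕ} (hm : m + h < N) : ∀ j : ℕ, j ≤ m →
    (1 - (h : ℝ) / ((N : ℝ) - m)) ^ j * (N.descFactorial j : ℝ) ≤
      ((N - h).descFactorial j : ℝ) := by
  have hNm : (0 : ℝ) < (N : ℝ) - m := by
    have : (m : ℝ) + h < N := by exact_mod_cast hm
    have h0 : (0 : ℝ) ≤ h := Nat.cast_nonneg h
    linarith
  have hr0 : 0 ≤ 1 - (h : ℝ) / ((N : ℝ) - m) := by
    have : (m : ℝ) + h < N := by exact_mod_cast hm
    rw [sub_nonneg, div_le_one hNm]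
    linarith
  intro j
  induction j with
  | zero => simp
  | succ j ih =>
    intro hj
    have ih' := ih (by omega)
    rw [Nat.descFactorial_succ, Nat.descFactorial_succ]
    push_cast
    have e1 : ((N - j : ℕ) : ℝ) = (N : ℝ) - j := by
      rw [Nat.cast_sub (by omega)]
    have e2 : ((N - h - j : ℕ) : ℝ) = (N : ℝ) - h - j := by
      rw [Nat.cast_sub (by omega), Nat.cast_sub (by omega)]
    rw [e1, e2]
    have hjm : (j : ℝ) ≤ m := by exact_mod_cast (by omega : j ≤ m)
    have h0 : (0 : ℝ) ≤ h := Nat.cast_nonneg h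
    have key : (1 - (h : ℝ) / ((N : ℝ) - m)) * ((N : ℝ) - j) ≤ (N : ℝ) - h - j := by
      have h3 : (h : ℝ) ≤ (h : ℝ) / ((N : ℝ) - m) * ((N : ℝ) - j) := by
        rw [div_mul_eq_mul_div, le_div_iff₀ hNm]
        apply mul_le_mul_of_nonneg_left _ h0
        linarith
      nlinarith
    have hNj : (0 : ℝ) ≤ (N : ℝ) - j := by linarith
    have hD : (0 : ℝ) ≤ (1 - (h : ℝ) / ((N : ℝ) - m)) ^ j * (N.descFactorial j : ℝ) := by positivity
    calc (1 - (h : ℝ) / ((N : ℝ) - m)) ^ (j + 1) * (((N : ℝ) - j) * (N.descFactorial j : ℝ))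
        = ((1 - (h : ℝ) / ((N : ℝ) - m)) * ((N : ℝ) - j)) *
          ((1 - (h : ℝ) / ((N : ℝ) - m)) ^ j * (N.descFactorial j : ℝ)) := by ring
      _ ≤ ((N : ℝ) - h - j) * ((N - h).descFactorial j : ℝ) := by
          apply mul_le_mul key ih' hD
          exact (mul_nonneg hr0 hNj).trans key

lemma choose_ratio {N h m : ℕ} (hm : m + h < N) :
    Real.exp (-((m : ℝ) * h / ((N : ℝ) - m - h))) * (N.choose m : ℝ) ≤ ((N - h).choose m : ℝ) := by
  have h1 := desc_ratio hm m le_rfl
  rw [Nat.descFactorial_eq_factorial_mul_choose, Nat.descFactorial_eq_factorial_mul_choose] at h1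
  push_cast at h1
  have hf : (0 : ℝ) < (m.factorial : ℝ) := by exact_mod_cast Nat.factorial_pos m
  have h2 : (1 - (h : ℝ) / ((N : ℝ) - m)) ^ m * (N.choose m : ℝ) ≤ ((N - h).choose m : ℝ) := by
    have : (m.factorial : ℝ) * ((1 - (h : ℝ) / ((N : ℝ) - m)) ^ m * (N.choose m : ℝ)) ≤
        (m.factorial : ℝ) * ((N - h).choose m : ℝ) := by
      calc _ = (1 - (h : ℝ) / ((N : ℝ) - m)) ^ m * ((m.factorial : ℝ) * (N.choose m : ℝ)) := by ring
        _ ≤ _ := h1
    exact le_of_mul_le_mul_left this hf
  refine le_trans ?_ h2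
  apply mul_le_mul_of_nonneg_right _ (Nat.cast_nonneg _)
  have hmr : (m : ℝ) + h < N := by exact_mod_cast hm
  have h0 : (0 : ℝ) ≤ h := Nat.cast_nonneg h
  have hNm : (0 : ℝ) < (N : ℝ) - m := by linarith
  have hNmh : (0 : ℝ) < (N : ℝ) - m - h := by linarith
  have hy : 0 < 1 - (h : ℝ) / ((N : ℝ) - m) := by
    rw [sub_pos, div_lt_one hNm]
    linarith
  have hlog : -((h : ℝ) / ((N : ℝ) - m - h)) ≤ Real.log (1 - (h : ℝ) / ((N : ℝ) - m)) := by
    have h3 := Real.one_sub_inv_le_log_of_pos hy
    refine le_trans (le_of_eq ?_) h3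
    have : (1 - (h : ℝ) / ((N : ℝ) - m)) = ((N : ℝ) - m - h) / ((N : ℝ) - m) := by
      field_simp
    rw [this, inv_div]
    field_simp
    ring
  calc Real.exp (-((m : ℝ) * h / ((N : ℝ) - m - h)))
      = Real.exp ((m : ℝ) * (-((h : ℝ) / ((N : ℝ) - m - h)))) := by
        congr 1
        ring
    _ ≤ Real.exp ((m : ℝ) * Real.log (1 - (h : ℝ) / ((N : ℝ) - m))) := by
        apply Real.exp_le_exp.mpr
        exact mul_le_mul_of_nonneg_left hlog (Nat.cast_nonneg m)
    _ = (1 - (h : ℝ) / ((N : ℝ) - m)) ^ m := by
        rw [← Real.rpow_natCast, Real.rpow_def_of_pos hy, mul_comm]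

end Pool.Agent.H762R3.Cubes
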