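import Pool.Agent.H762R3.Cubes

set_option autoImplicit false

namespace Pool.Agent.H762R3.Cubes

open Filter Topology

/-- the main scale -/
noncomputable def X (d : ℕ) (x : ℝ) : ℝ := (x * Real.log x) ^ (1 / (d : ℝ))

lemma X_pow {d : ℕ} (hd : 1 ≤ d) {x : ℝ} (hx : 1 ≤ x) : X d x ^ d = x * Real.log x := by
  unfold X
  have h0 : 0 ≤ x * Real.log x := mul_nonneg (by linarith) (Real.log_nonneg hx)
  rw [← Real.rpow_natCast, ← Real.rpow_mul h0]
  have : (d : ℝ) ≠ 0 := by positivity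
  rw [one_div, inv_mul_cancel₀ this, Real.rpow_one]

lemma X_tendsto {d : ℕ} (hd : 1 ≤ d) : Tendsto (X d) atTop atTop := by
  have h1 : Tendsto (fun x : ℝ => x * Real.log x) atTop atTop :=
    tendsto_id.atTop_mul_atTop₀ Real.tendsto_log_atTop
  have h2 : Tendsto (fun y : ℝ => y ^ (1 / (d : ℝ))) atTop atTop :=
    tendsto_rpow_atTop (by positivity)
  exact h2.comp h1

lemma X_ge {d : ℕ} (_hd : 1 ≤ d) {x : ℝ} (hx : Real.exp 1 ≤ x) :
    x ^ (1 / (d : ℝ)) ≤ X d x := by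
  unfold X
  have hx0 : 0 < x := lt_of_lt_of_le (Real.exp_pos 1) hx
  apply Real.rpow_le_rpow hx0.le
  · have : 1 ≤ Real.log x := by rwa [Real.le_log_iff_exp_le hx0]
    nlinarith
  · positivity

/-- the (d-1)-st power of the scale is small compared to x -/
lemma X_small {d : ℕ} (hd : 2 ≤ d) {η : ℝ} (hη : 0 < η) :
    ∀ᶠ x : ℝ in atTop, X d x ^ (d - 1) ≤ η * x := by
  have hd0 : (0 : ℝ) < d := by positivity
  have h1 := (isLittleO_log_rpow_atTop (r := 1 / (d : ℝ)) (by positivity)).bound hη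
  filter_upwards [h1, eventually_ge_atTop (Real.exp 1), (X_tendsto (d := d) (by omega)).eventually_gt_atTop 0]
    with x hx1 hx2 hx3
  have hx0 : 0 < x := lt_of_lt_of_le (Real.exp_pos 1) hx2
  have hx1' : 1 ≤ x := le_trans (Real.one_le_exp (by norm_num)) hx2
  have hlog : Real.log x ≤ η * x ^ (1 / (d : ℝ)) := by
    rw [Real.norm_of_nonneg (Real.log_nonneg hx1'), Real.norm_of_nonneg (by positivity)] at hx1
    exact hx1
  have hpow := X_pow (d := d) (by omega) hx1'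
  have hge := X_ge (d := d) (by omega) hx2
  have h4 : X d x ^ (d - 1) * X d x ≤ (η * x) * X d x := by
    rw [← pow_succ, Nat.sub_add_cancel (by omega), hpow]
    calc x * Real.log x ≤ x * (η * x ^ (1 / (d : ℝ))) := mul_le_mul_of_nonneg_left hlog hx0.le
      _ ≤ x * (η * X d x) := by
          apply mul_le_mul_of_nonneg_left _ hx0.le
          exact mul_le_mul_of_nonneg_left hge hη.le
      _ = (η * x) * X d x := by ring
  exact le_of_mul_le_mul_right h4 hx3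

/-- the scale is at most a power of `x` with any exponent larger than `1/d`. -/
lemma X_le_rpow {d : ℕ} (hd : 2 ≤ d) {b c : ℝ} (hb : 1 / (d : ℝ) < b) (hc : 0 < c) :
    ∀ᶠ x : ℝ in atTop, c * X d x ≤ x ^ b := by
  have h1 := (isLittleO_log_rpow_rpow_atTop (1 / (d : ℝ)) (s := b - 1 / (d : ℝ))
    (by linarith)).bound (inv_pos.mpr hc)
  filter_upwards [h1, eventually_gt_atTop 1] with x hx1 hx2
  have hx0 : 0 < x := by linarith
  have hlog : 0 ≤ Real.log x := Real.log_nonneg hx2.le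
  rw [Real.norm_of_nonneg (by positivity), Real.norm_of_nonneg (by positivity)] at hx1
  unfold X
  rw [Real.mul_rpow hx0.le hlog]
  calc c * (x ^ (1 / (d : ℝ)) * Real.log x ^ (1 / (d : ℝ)))
      ≤ c * (x ^ (1 / (d : ℝ)) * (c⁻¹ * x ^ (b - 1 / (d : ℝ)))) := by
        apply mul_le_mul_of_nonneg_left _ hc.le
        exact mul_le_mul_of_nonneg_left hx1 (by positivity)
    _ = x ^ (1 / (d : ℝ)) * x ^ (b - 1 / (d : ℝ)) := by
        field_simp
    _ = x ^ b := by
        rw [← Real.rpow_add hx0]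
        congr 1
        ring

/-- the asymptotic criterion -/
theorem asy {d : ℕ} (hd : 2 ≤ d) {c : ℝ} (hc0 : 0 < c) (hc : c ^ d < 1 - 1 / (d : ℝ)) :
    ∀ᶠ n : ℕ in atTop, ⌈c * X d n⌉₊ ≤ n ∧
      (⌈c * X d n⌉₊ - 1) * n.choose ⌈c * X d n⌉₊ <
        n * (n - ⌈c * X d n⌉₊ ^ (d - 1)).choose ⌈c * X d n⌉₊ := by
  -- slightly larger constant
  obtain ⟨c1, hc1, hc1'⟩ : ∃ c1 : ℝ, c < c1 ∧ c1 ^ d < 1 - 1 / (d : ℝ) := by
    have hcont : ContinuousAt (fun t : ℝ => t ^ d) c := by fun_prop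
    have hev : ∀ᶠ t in 𝓝 c, t ^ d < 1 - 1 / (d : ℝ) := hcont.eventually_lt_const hc
    have hev2 : ∀ᶠ t in 𝓝[>] c, t ^ d < 1 - 1 / (d : ℝ) := hev.filter_mono nhdsWithin_le_nhds
    obtain ⟨t, ht1, ht2⟩ := (hev2.and self_mem_nhdsWithin).exists
    exact ⟨t, ht2, ht1⟩
  have hc1p : 0 < c1 := hc0.trans hc1
  obtain ⟨δ, hδ0, hδ1, hδ⟩ : ∃ δ : ℝ, 0 < δ ∧ δ < 1 ∧ c1 ^ d / (1 - δ) < 1 - 1 / (d : ℝ) := by
    have hcont : ContinuousAt (fun t : ℝ => c1 ^ d / (1 - t)) 0 := by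
      apply ContinuousAt.div
      · fun_prop
      · fun_prop
      · norm_num
    have hev : ∀ᶠ t in 𝓝 (0 : ℝ), c1 ^ d / (1 - t) < 1 - 1 / (d : ℝ) := by
      apply hcont.eventually_lt_const
      simpa using hc1'
    have hev2 : ∀ᶠ t in 𝓝[>] (0 : ℝ), c1 ^ d / (1 - t) < 1 - 1 / (d : ℝ) :=
      hev.filter_mono nhdsWithin_le_nhds
    have hev3 : ∀ᶠ t in 𝓝[>] (0 : ℝ), t < 1 :=
      (eventually_lt_nhds (by norm_num)).filter_mono nhdsWithin_le_nhds
    obtain ⟨t, ht1, ht2, ht3⟩ := (hev2.and (hev3.and self_mem_nhdsWithin)).exists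
    exact ⟨t, ht3, ht2, ht1⟩
  set θ : ℝ := c1 ^ d / (1 - δ) with hθ
  have hη : 0 < δ / (2 * c1 ^ (d - 1) + 1) := by positivity
  have E1 := X_small hd (show 0 < δ / (2 * c1 ^ (d - 1)) by positivity)
  have E2 := X_le_rpow hd (b := 1 - θ) (c := c1) (by linarith) hc1p
  have E3 := (X_tendsto (d := d) (by omega)).eventually_ge_atTop (1 / (c1 - c))
  have E4 := (X_tendsto (d := d) (by omega)).eventually_gt_atTop 0
  have E := (E1.and (E2.and (E3.and (E4.and (eventually_gt_atTop (1 : ℝ))))))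
  have E' := tendsto_natCast_atTop_atTop (R := ℝ) |>.eventually E
  filter_upwards [E'] with n hn
  obtain ⟨h1, h2, h3, h4, h5⟩ := hn
  set m : ℕ := ⌈c * X d n⌉₊ with hm
  have hn0 : (0 : ℝ) < n := by linarith
  have hmlow : c * X d n ≤ m := Nat.le_ceil _
  have hmpos : 0 < m := Nat.ceil_pos.mpr (by positivity)
  have hmup : (m : ℝ) ≤ c1 * X d n := by
    have h6 : (m : ℝ) < c * X d n + 1 := Nat.ceil_lt_add_one (by positivity)
    have h7 : 1 ≤ (c1 - c) * X d n := by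
      have : 0 < c1 - c := by linarith
      rw [div_le_iff₀ this] at h3
      linarith
    linarith
  -- h = m^(d-1)
  have hh : ((m ^ (d - 1) : ℕ) : ℝ) ≤ δ / 2 * n := by
    push_cast
    calc (m : ℝ) ^ (d - 1) ≤ (c1 * X d n) ^ (d - 1) := by
          apply pow_le_pow_left₀ (Nat.cast_nonneg m) hmup
      _ = c1 ^ (d - 1) * X d n ^ (d - 1) := by rw [mul_pow]
      _ ≤ c1 ^ (d - 1) * (δ / (2 * c1 ^ (d - 1)) * n) := by
          apply mul_le_mul_of_nonneg_left h1 (by positivity)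
      _ = δ / 2 * n := by
          field_simp
  have hmh : m ≤ m ^ (d - 1) := Nat.le_self_pow (by omega) m
  have hmh' : (m : ℝ) ≤ ((m ^ (d - 1) : ℕ) : ℝ) := by exact_mod_cast hmh
  have hsum : (m : ℝ) + ((m ^ (d - 1) : ℕ) : ℝ) ≤ δ * n := by linarith
  have hlt : m + m ^ (d - 1) < n := by
    have : (m : ℝ) + ((m ^ (d - 1) : ℕ) : ℝ) < n := by
      have : δ * n < 1 * n := mul_lt_mul_of_pos_right hδ1 hn0
      linarith
    exact_mod_cast this
  refine ⟨by omega, ?_⟩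
  have hratio := choose_ratio hlt
  -- lower bound of the exponential
  have hlog : 0 < Real.log n := Real.log_pos h5
  have hexp : (n : ℝ) ^ (-θ) ≤
      Real.exp (-((m : ℝ) * ((m ^ (d - 1) : ℕ) : ℝ) / ((n : ℝ) - m - ((m ^ (d - 1) : ℕ) : ℝ)))) := by
    rw [Real.rpow_def_of_pos hn0]
    apply Real.exp_le_exp.mpr
    have hden : (1 - δ) * n ≤ (n : ℝ) - m - ((m ^ (d - 1) : ℕ) : ℝ) := by
      have : (1 - δ) * (n : ℝ) = n - δ * n := by ring
      linarith
    have hδ' : 0 < 1 - δ := by linarith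
    have hnum : (m : ℝ) * ((m ^ (d - 1) : ℕ) : ℝ) ≤ c1 ^ d * (n * Real.log n) := by
      push_cast
      have e : (m : ℝ) * (m : ℝ) ^ (d - 1) = (m : ℝ) ^ d := by
        rw [← pow_succ', Nat.sub_add_cancel (by omega)]
      rw [e, ← X_pow (d := d) (by omega) h5.le, ← mul_pow]
      exact pow_le_pow_left₀ (Nat.cast_nonneg m) hmup d
    have hfrac : (m : ℝ) * ((m ^ (d - 1) : ℕ) : ℝ) / ((n : ℝ) - m - ((m ^ (d - 1) : ℕ) : ℝ)) ≤
        θ * Real.log n := by
      calc (m : ℝ) * ((m ^ (d - 1) : ℕ) : ℝ) / ((n : ℝ) - m - ((m ^ (d - 1) : ℕ) : ℝ))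
          ≤ (c1 ^ d * (n * Real.log n)) / ((1 - δ) * n) := by
            apply div_le_div₀ (by positivity) hnum (by positivity) hden
        _ = θ * Real.log n := by
            rw [hθ]
            field_simp
    linarith
  have hchoose : (0 : ℝ) < (n.choose m : ℝ) := by
    exact_mod_cast Nat.choose_pos (by omega)
  have hfinal : (((m - 1) * n.choose m : ℕ) : ℝ) < ((n * (n - m ^ (d - 1)).choose m : ℕ) : ℝ) := by
    have hm1 : (((m - 1 : ℕ)) : ℝ) < m := by
      exact_mod_cast (by omega : m - 1 < m)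
    have hmn : (m : ℝ) ≤ n * (n : ℝ) ^ (-θ) := by
      calc (m : ℝ) ≤ c1 * X d n := hmup
        _ ≤ (n : ℝ) ^ (1 - θ) := h2
        _ = n * (n : ℝ) ^ (-θ) := by
            rw [sub_eq_add_neg, Real.rpow_add hn0, Real.rpow_one]
    have hA : (m : ℝ) * (n.choose m : ℝ) ≤ n * ((n - m ^ (d - 1)).choose m : ℝ) := by
      calc (m : ℝ) * (n.choose m : ℝ) ≤ (n * (n : ℝ) ^ (-θ)) * (n.choose m : ℝ) :=
            mul_le_mul_of_nonneg_right hmn hchoose.le
        _ = n * ((n : ℝ) ^ (-θ) * (n.choose m : ℝ)) := by ring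
        _ ≤ n * ((n - m ^ (d - 1)).choose m : ℝ) := by
            apply mul_le_mul_of_nonneg_left _ hn0.le
            exact le_trans (mul_le_mul_of_nonneg_right hexp hchoose.le) hratio
    rw [Nat.cast_mul, Nat.cast_mul]
    calc ((m - 1 : ℕ) : ℝ) * (n.choose m : ℝ) < (m : ℝ) * (n.choose m : ℝ) :=
          mul_lt_mul_of_pos_right hm1 hchoose
      _ ≤ _ := hA
  exact_mod_cast hfinal

end Pool.Agent.H762R3.Cubes
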