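import Mathlib
import Pool.Agent.Helper36.RealizeSph
set_option autoImplicit false

/-! Even balanced colourings of the sphere with small correlation with all their symmetries in
lines. -/

namespace Pool.Agent.H762R3.EvenCol

open MeasureTheory Set Metric
open Pool.Agent.Helper36 Pool.Agent.Helper36.SphMeas Pool.Agent.Helper36.RealizeSph
open scoped RealInnerProductSpace ENNReal

section
variable {E : Type*} [NormedAddCommGroup E] [InnerProductSpace ℝ E]

/-- Relative sign pattern of a point with respect to finitely many hyperplanes. -/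
noncomputable def qe (N : Finset E) (x : E) : N × N → Bool :=
  fun k => decide (0 < ⟪(k.1 : E), x⟫ * ⟪(k.2 : E), x⟫)

lemma qe_neg (N : Finset E) (x : E) : qe N (-x) = qe N x := by
  funext k
  simp only [qe, inner_neg_right, neg_mul_neg]

lemma qe_measurable [MeasurableSpace E] [BorelSpace E] [SecondCountableTopology E]
    (N : Finset E) : Measurable (qe N) := by
  rw [measurable_pi_iff]
  intro k
  apply measurable_to_bool
  have : (fun x : E => qe N x k) ⁻¹' {true} = {x | 0 < ⟪(k.1 : E), x⟫ * ⟪(k.2 : E), x⟫} := by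
    ext x; simp [qe]
  rw [this]
  exact measurableSet_lt measurable_const (by fun_prop)

lemma pos_iff_of_mul {a b c d : ℝ} (h1 : 0 < a * a ↔ 0 < b * b) (h2 : 0 < a * c ↔ 0 < b * d)
    (h3 : 0 < a) (h4 : 0 < b) : 0 < c ↔ 0 < d := by
  rw [mul_pos_iff_of_pos_left h3, mul_pos_iff_of_pos_left h4] at h2
  exact h2

lemma q_of_qe {N : Finset E} {x y : E} (h : qe N x = qe N y) :
    q N x = q N y ∨ q N x = q N (-y) := by
  have h' : ∀ k l : N, (0 < ⟪(k : E), x⟫ * ⟪(l : E), x⟫ ↔ 0 < ⟪(k : E), y⟫ * ⟪(l : E), y⟫) := by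
    intro k l
    have := congrFun h (k, l)
    simpa only [qe, decide_eq_decide] using this
  by_cases hx : ∃ k : N, ⟪(k : E), x⟫ ≠ 0
  · obtain ⟨k, hk⟩ := hx
    have hk2 : ⟪(k : E), y⟫ ≠ 0 := by
      intro h0
      have := (h' k k).1 (mul_self_pos.2 hk)
      rw [h0] at this
      simp at this
    rcases lt_or_gt_of_ne hk with hx1 | hx1 <;> rcases lt_or_gt_of_ne hk2 with hy1 | hy1
    · left
      funext l
      simp only [q, decide_eq_decide]
      have h1 := h' k l
      have h2 := h' l l
      rw [mul_pos_iff, mul_pos_iff] at h1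
      rw [mul_self_pos, mul_self_pos] at h2
      constructor
      · intro h3
        by_contra h4
        have h5 : ⟪(l : E), y⟫ < 0 := lt_of_le_of_ne (not_lt.1 h4) (h2.1 h3.ne')
        rcases h1.2 (Or.inr ⟨hy1, h5⟩) with h6 | h6
        · linarith [h6.1]
        · linarith [h6.2]
      · intro h3
        by_contra h4
        have h5 : ⟪(l : E), x⟫ < 0 := lt_of_le_of_ne (not_lt.1 h4) (h2.2 h3.ne')
        rcases h1.1 (Or.inr ⟨hx1, h5⟩) with h6 | h6
        · linarith [h6.1]
        · linarith [h6.2]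
    · right
      funext l
      simp only [q, decide_eq_decide, inner_neg_right]
      have h1 := h' k l
      have h2 := h' l l
      rw [mul_pos_iff, mul_pos_iff] at h1
      rw [mul_self_pos, mul_self_pos] at h2
      constructor
      · intro h3
        by_contra h4
        have h5 : 0 < ⟪(l : E), y⟫ := lt_of_le_of_ne (by linarith) (Ne.symm (h2.1 h3.ne'))
        rcases h1.2 (Or.inl ⟨hy1, h5⟩) with h6 | h6
        · linarith [h6.1]
        · linarith [h6.2]
      · intro h3
        by_contra h4
        have h5 : ⟪(l : E), x⟫ < 0 :=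
          lt_of_le_of_ne (not_lt.1 h4) (h2.2 (by intro h0; rw [h0] at h3; simp at h3))
        rcases h1.1 (Or.inr ⟨hx1, h5⟩) with h6 | h6
        · linarith [h6.2]
        · linarith [h6.1]
    · right
      funext l
      simp only [q, decide_eq_decide, inner_neg_right]
      have h1 := h' k l
      have h2 := h' l l
      rw [mul_pos_iff, mul_pos_iff] at h1
      rw [mul_self_pos, mul_self_pos] at h2
      constructor
      · intro h3
        rcases h1.1 (Or.inl ⟨hx1, h3⟩) with h6 | h6
        · linarith [h6.1]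
        · linarith [h6.2]
      · intro h3
        rcases h1.2 (Or.inr ⟨hy1, by linarith⟩) with h6 | h6
        · linarith [h6.2]
        · linarith [h6.1]
    · left
      funext l
      simp only [q, decide_eq_decide]
      have h1 := h' k l
      rw [mul_pos_iff_of_pos_left hx1, mul_pos_iff_of_pos_left hy1] at h1
      exact h1
  · push Not at hx
    left
    funext l
    simp only [q, decide_eq_decide, hx l, lt_self_iff_false, false_iff]
    intro h3
    have := (h' l l).2 (mul_pos h3 h3)
    rw [hx l] at this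
    simp at this

lemma qe_diam {N : Finset E} {ε : ℝ} (hN : ∀ u : E, ‖u‖ = 1 → ∃ a ∈ N, ‖u - a‖ ≤ ε)
    {x y : E} (hx : ‖x‖ = 1) (hy : ‖y‖ = 1) (hxy : qe N x = qe N y) :
    ‖x - y‖ ≤ 2 * ε ∨ ‖x + y‖ ≤ 2 * ε := by
  rcases q_of_qe hxy with h | h
  · exact Or.inl (q_diam hN hx hy h)
  · right
    have := q_diam hN hx (by rw [norm_neg]; exact hy) h
    rwa [sub_neg_eq_add] at this

end

variable {d : ℕ}

theorem realize_even (hd : 2 ≤ d) (μ : Measure (EuclideanSpace ℝ (Fin d))) (hμ : SphLike μ)
    (δ : ℝ) (hδ : 0 < δ) :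
    ∃ c : EuclideanSpace ℝ (Fin d) → Bool, Measurable c ∧ (∀ x, c (-x) = c x) ∧
      ∀ n, ‖n‖ = 1 → ∀ i, μ.real {x | c x = i ∧ c (sig n x) = i} ≤ 1 / 4 + δ := by
  classical
  have := hμ.prob
  obtain ⟨C, hC, hslab⟩ := hμ.slab
  have hd0 : (0 : ℝ) < d := by
    have : 0 < d := by omega
    exact_mod_cast this
  set D := √(d : ℝ) with hD
  have hDpos : 0 < D := Real.sqrt_pos.2 hd0
  -- parameters
  set t := δ / 8 with ht
  have htpos : 0 < t := by positivity
  set γ := t ^ 2 / (32 * C * D) with hγ
  have hγpos : 0 < γ := by positivity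
  set K1 := 32 * C * D / δ with hK1
  have hK1pos : 0 < K1 := by positivity
  set K2 := 2 * (2 * K1 * 3 ^ d + 3) ^ d with hK2
  obtain ⟨R0, hR0⟩ := exp_beats K2 γ hγpos (d * d)
  obtain ⟨R2, hR2⟩ := exists_nat_gt (8 * C * D / δ)
  set R : ℕ := R0 + R2 + 1 with hRdef
  have hRpos : 0 < R := by omega
  have hRpos' : (0 : ℝ) < R := by exact_mod_cast hRpos
  have hR2' : (R2 : ℝ) ≤ R := by exact_mod_cast (by omega : R2 ≤ R)
  have hR1'' : (1 : ℝ) ≤ R := by exact_mod_cast hRpos
  set ε := D / R with hε
  have hεpos : 0 < ε := by positivity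
  have hεδ : C * ε ≤ δ / 8 := by
    rw [div_lt_iff₀ hδ] at hR2
    have : 8 * C * D < R * δ := lt_of_lt_of_le hR2 (mul_le_mul_of_nonneg_right hR2' hδ.le)
    rw [hε, ← mul_div_assoc, div_le_iff₀ hRpos']
    linarith
  obtain ⟨N, hNcard, hN1, hN⟩ := exists_net (d := d) R hRpos
  set R' : ℕ := ⌈K1 * (2 * R + 1) ^ d⌉₊ with hR'
  have hR'ge : K1 * (2 * R + 1) ^ d ≤ R' := Nat.le_ceil _
  have hR'pos' : (0 : ℝ) < R' := lt_of_lt_of_le (by positivity) hR'ge
  have hR'pos : 0 < R' := by exact_mod_cast hR'pos'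
  obtain ⟨N', hN'card, hN'1, hN'⟩ := exists_net (d := d) R' hR'pos
  -- cells
  set qq : EuclideanSpace ℝ (Fin d) → (N × N → Bool) := qe N with hqq
  have hqm : Measurable qq := qe_measurable N
  have hdiam : ∀ x y, ‖x‖ = 1 → ‖y‖ = 1 → qq x = qq y → ‖x - y‖ ≤ 2 * ε ∨ ‖x + y‖ ≤ 2 * ε :=
    fun x y hx hy hxy => qe_diam hN hx hy hxy
  obtain ⟨c, hcc⟩ := RealizeAbs.realize_abs (μ := μ) (K := N') hqm
    (fun k => (sig (k : EuclideanSpace ℝ (Fin d)) : EuclideanSpace ℝ (Fin d) → _))
    (fun k => hμ.inv _) (fun _ => 1 / 2) (fun _ => by constructor <;> norm_num)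
    (fun _ => 1 / 2) measurable_const
    (Filter.Eventually.of_forall fun _ => by constructor <;> norm_num) 0
    (Filter.Eventually.of_forall fun _ => by simp)
    (C * (2 * ε)) (δ / 4)
    (by
      intro j
      by_cases hj : ∃ y, ‖y‖ = 1 ∧ qq y = j
      · obtain ⟨y, hy, hyj⟩ := hj
        obtain ⟨a, ha1, ha2⟩ := exists_perp hd y
        refine le_trans (real_mono_unit hμ ?_) (hslab a ha1 (2 * ε) (by positivity))
        intro x hx hxj
        rcases hdiam x y hx hy (Eq.trans hxj hyj.symm) with h1 | h1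
        · have h2 : ⟪a, x⟫ = ⟪a, x - y⟫ := by rw [inner_sub_right, ha2, sub_zero]
          show |⟪a, x⟫| ≤ 2 * ε
          rw [h2]
          refine (abs_real_inner_le_norm _ _).trans ?_
          rw [ha1, one_mul]; exact h1
        · have h2 : ⟪a, x⟫ = ⟪a, x + y⟫ := by rw [inner_add_right, ha2, add_zero]
          show |⟪a, x⟫| ≤ 2 * ε
          rw [h2]
          refine (abs_real_inner_le_norm _ _).trans ?_
          rw [ha1, one_mul]; exact h1
      · have : μ.real (qq ⁻¹' {j}) ≤ μ.real ∅ :=
          real_mono_unit hμ fun x hx hxj => absurd ⟨x, hx, hxj⟩ hj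
        rw [measureReal_empty] at this
        exact this.trans (by positivity))
    (by
      intro k
      obtain ⟨a, ha1, ha2⟩ := exists_perp hd (k : EuclideanSpace ℝ (Fin d))
      have hk1 := hN'1 k k.2
      have hsub : μ.real {x | qq x = qq (sig (k : EuclideanSpace ℝ (Fin d)) x)} ≤
          μ.real ({x | |⟪a, x⟫| ≤ ε} ∪ {x | |⟪(k : EuclideanSpace ℝ (Fin d)), x⟫| ≤ ε}) := by
        refine real_mono_unit hμ ?_
        intro x hx hxj
        rcases hdiam x (sig (k : EuclideanSpace ℝ (Fin d)) x) hx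
          (by rw [LinearIsometryEquiv.norm_map]; exact hx) hxj with h1 | h1
        · left
          have h2 : 2 * ⟪a, x⟫ = ⟪a, x - sig (k : EuclideanSpace ℝ (Fin d)) x⟫ := by
            rw [sig_apply hk1, inner_sub_right, inner_sub_right, inner_smul_right, ha2]; ring
          show |⟪a, x⟫| ≤ ε
          have h3 : |2 * ⟪a, x⟫| ≤ 2 * ε := by
            rw [h2]
            refine (abs_real_inner_le_norm _ _).trans ?_
            rw [ha1, one_mul]; exact h1
          rw [abs_mul, abs_two] at h3
          linarith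
        · right
          show |⟪(k : EuclideanSpace ℝ (Fin d)), x⟫| ≤ ε
          have h2 : x + sig (k : EuclideanSpace ℝ (Fin d)) x =
              (2 * ⟪(k : EuclideanSpace ℝ (Fin d)), x⟫) • (k : EuclideanSpace ℝ (Fin d)) := by
            rw [sig_apply hk1]; abel
          rw [h2, norm_smul, hk1, mul_one, Real.norm_eq_abs, abs_mul, abs_two] at h1
          linarith
      refine hsub.trans ((measureReal_union_le _ _).trans ?_)
      have e1 := (hslab a ha1 ε hεpos.le).trans hεδ
      have e2 := (hslab (k : EuclideanSpace ℝ (Fin d)) hk1 ε hεpos.le).trans hεδ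
      linarith)
    (t * R / (16 * C * D)) t (by positivity)
    (by
      have e1 : (t * R / (16 * C * D)) ^ 2 * (4 * (C * (2 * ε))) = γ * R := by
        rw [hγ, hε]; field_simp; ring
      have e2 : t * R / (16 * C * D) * t = γ * R + γ * R := by
        rw [hγ]; field_simp; ring
      rw [e1, e2, Real.exp_add]
      apply mul_lt_mul_of_pos_right _ (Real.exp_pos _)
      refine lt_of_le_of_lt ?_ (hR0 R (by omega))
      have c1 : (Fintype.card N' : ℝ) ≤ (2 * R' + 1) ^ d := by
        rw [Fintype.card_coe]; exact_mod_cast hN'card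
      have c2 : (2 * (R' : ℝ) + 1) ≤ (2 * K1 * 3 ^ d + 3) * R ^ d := by
        have c3 : (R' : ℝ) ≤ K1 * (2 * R + 1) ^ d + 1 := (Nat.ceil_lt_add_one (by positivity)).le
        have c4 : ((2 * R + 1 : ℝ)) ^ d ≤ 3 ^ d * R ^ d := by
          rw [← mul_pow]
          exact pow_le_pow_left₀ (by positivity) (by linarith) d
        have c5 : (1 : ℝ) ≤ (R : ℝ) ^ d := one_le_pow₀ hR1''
        have c6 := mul_le_mul_of_nonneg_left c4 hK1pos.le
        nlinarith
      have c7 : (2 * (R' : ℝ) + 1) ^ d ≤ (2 * K1 * 3 ^ d + 3) ^ d * (R : ℝ) ^ (d * d) := by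
        rw [pow_mul, ← mul_pow]
        exact pow_le_pow_left₀ (by positivity) c2 d
      rw [hK2]
      linarith)
  refine ⟨fun x => c (qq x), (Measurable.of_discrete (f := c)).comp hqm, ?_, ?_⟩
  · intro x
    show c (qe N (-x)) = c (qe N x)
    rw [qe_neg]
  intro n hn i
  obtain ⟨n', hn'N, hn'⟩ := hN' n hn
  have hn'1 := hN'1 n' hn'N
  -- the bad set
  have hbad : μ.real {x | qq (sig n x) ≠ qq (sig n' x)} ≤ δ / 8 := by
    have hsub : μ.real {x | qq (sig n x) ≠ qq (sig n' x)} ≤
        μ.real (⋃ k ∈ N, {x | |⟪sig n k, x⟫| ≤ 4 * (D / R')}) := by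
      refine real_mono_unit hμ fun x hx hxq => ?_
      by_contra hcon
      simp only [mem_iUnion, not_exists] at hcon
      apply hxq
      have key : ∀ k ∈ N, (0 < ⟪k, sig n x⟫ ∧ 0 < ⟪k, sig n' x⟫) ∨
          (⟪k, sig n x⟫ < 0 ∧ ⟪k, sig n' x⟫ < 0) := by
        intro k hk
        have h1 := hcon k hk
        have h1' : 4 * (D / R') < |⟪sig n k, x⟫| := not_le.1 h1
        rw [sig_symm hn] at h1'
        have hk1 := hN1 k hk
        have hdist : |⟪k, sig n x⟫ - ⟪k, sig n' x⟫| ≤ 4 * (D / R') := by
          rw [← inner_sub_right]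
          refine (abs_real_inner_le_norm _ _).trans ?_
          rw [hk1, one_mul]
          refine (sig_dist hn hn'1 x hx).trans ?_
          linarith
        rw [abs_le] at hdist
        rcases lt_abs.1 h1' with h2 | h2
        · left; constructor
          · have : 0 < D / R' := by positivity
            linarith
          · linarith [hdist.2]
        · right; constructor
          · have : 0 < D / R' := by positivity
            linarith
          · linarith [hdist.1]
      funext kl
      simp only [hqq, qe, decide_eq_decide]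
      rcases key kl.1 kl.1.2 with h1 | h1 <;> rcases key kl.2 kl.2.2 with h2 | h2
      · exact ⟨fun _ => mul_pos h1.2 h2.2, fun _ => mul_pos h1.1 h2.1⟩
      · constructor <;> intro h3
        · exact absurd h3 (not_lt.2 (mul_neg_of_pos_of_neg h1.1 h2.1).le)
        · exact absurd h3 (not_lt.2 (mul_neg_of_pos_of_neg h1.2 h2.2).le)
      · constructor <;> intro h3
        · exact absurd h3 (not_lt.2 (mul_neg_of_neg_of_pos h1.1 h2.1).le)
        · exact absurd h3 (not_lt.2 (mul_neg_of_neg_of_pos h1.2 h2.2).le)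
      · exact ⟨fun _ => mul_pos_of_neg_of_neg h1.2 h2.2, fun _ => mul_pos_of_neg_of_neg h1.1 h2.1⟩
    refine hsub.trans ((measureReal_biUnion_finset_le N _).trans ?_)
    calc ∑ k ∈ N, μ.real {x | |⟪sig n k, x⟫| ≤ 4 * (D / R')}
        ≤ ∑ k ∈ N, C * (4 * (D / R')) := by
          refine Finset.sum_le_sum fun k hk => hslab _ ?_ _ (by positivity)
          rw [LinearIsometryEquiv.norm_map]; exact hN1 k hk
      _ = N.card * (C * (4 * (D / R'))) := by rw [Finset.sum_const, nsmul_eq_mul]
      _ ≤ (2 * R + 1) ^ d * (C * (4 * (D / R'))) := by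
          apply mul_le_mul_of_nonneg_right _ (by positivity)
          exact_mod_cast hNcard
      _ ≤ δ / 8 := by
          have e : (2 * (R : ℝ) + 1) ^ d * (C * (4 * (D / R'))) =
              (2 * (R : ℝ) + 1) ^ d * (4 * C * D) / R' := by ring
          rw [e, div_le_iff₀ hR'pos']
          have e2 := mul_le_mul_of_nonneg_left hR'ge (show 0 ≤ δ / 8 by linarith)
          refine le_trans (le_of_eq ?_) e2
          rw [hK1]; field_simp; ring
  have hbase : μ.real {x | c (qq x) = i ∧ c (qq (sig n' x)) = i} ≤ 1 / 4 + δ / 4 + δ / 8 := by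
    have := hcc ⟨n', hn'N⟩
    cases i
    · have h1 := this.2
      simp only [integral_const, probReal_univ, smul_eq_mul] at h1
      linarith
    · have h1 := this.1
      simp only [integral_const, probReal_univ, smul_eq_mul] at h1
      linarith
  have hfin : μ.real {x | c (qq x) = i ∧ c (qq (sig n x)) = i} ≤
      μ.real ({x | c (qq x) = i ∧ c (qq (sig n' x)) = i} ∪ {x | qq (sig n x) ≠ qq (sig n' x)}) := by
    refine real_mono_unit hμ fun x _ hx => ?_
    by_cases h' : qq (sig n x) = qq (sig n' x)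
    · left
      refine ⟨hx.1, ?_⟩
      rw [← h']; exact hx.2
    · right; exact h'
  have hun := measureReal_union_le (μ := μ) {x | c (qq x) = i ∧ c (qq (sig n' x)) = i}
    {x | qq (sig n x) ≠ qq (sig n' x)}
  linarith

end Pool.Agent.H762R3.EvenCol
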