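import Mathlib
import Pool.Agent.H762R3.Rot
import Pool.Agent.H762R3.Avg
import Pool.Agent.H762R3.EvenCol
set_option autoImplicit false

/-! Haar measure on `SO(3)`, and the two bounds. -/

namespace Pool.Agent.H762R3.Fin3

open MeasureTheory Measure Set Metric TopologicalSpace
open Pool.Agent.Helper36.SphMeas Pool.Agent.Helper36.RealizeSph
open Pool.Agent.H762R3.UQ Pool.Agent.H762R3.Rot Pool.Agent.H762R3.Ker
open scoped ENNReal RealInnerProductSpace Quaternion

noncomputable instance instMU : MeasurableSpace U := borel U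

instance instBU : BorelSpace U := ⟨rfl⟩

instance : SecondCountableTopology SO3 := by
  have : SecondCountableTopology (Matrix (Fin 3) (Fin 3) ℝ) :=
    inferInstanceAs (SecondCountableTopology (Fin 3 → Fin 3 → ℝ))
  exact Topology.IsEmbedding.subtypeVal.secondCountableTopology

instance : T2Space SO3 := by
  have : T2Space (Matrix (Fin 3) (Fin 3) ℝ) :=
    inferInstanceAs (T2Space (Fin 3 → Fin 3 → ℝ))
  infer_instance

variable [MeasurableSpace SO3] [BorelSpace SO3]

lemma rho_meas : Measurable rho := rho_continuous.measurable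

/-- the image of the surface measure is left invariant -/
lemma map_inv (g : SO3) : Measure.map (fun x => g * x) (Measure.map rho mu4) =
    Measure.map rho mu4 := by
  obtain ⟨u, rfl⟩ := rho_surj g
  have h1 : Measurable fun x : SO3 => rho u * x := (continuous_const.mul continuous_id).measurable
  have h2 : Measurable fun x : U => u * x := (continuous_const.mul continuous_id).measurable
  rw [Measure.map_map h1 rho_meas]
  have e : (fun x : SO3 => rho u * x) ∘ rho = rho ∘ (fun x : U => u * x) := by
    funext x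
    simp only [Function.comp_apply, rho_mul]
  rw [e, ← Measure.map_map rho_meas h2, mu4_inv]

theorem haar_eq_map : Measure.haarMeasure (⊤ : PositiveCompacts SO3) = Measure.map rho mu4 := by
  have : Measure.IsMulLeftInvariant (Measure.map rho (mu4 : Measure U)) := ⟨map_inv⟩
  have : IsProbabilityMeasure (Measure.map rho (mu4 : Measure U)) :=
    isProbabilityMeasure_map rho_meas.aemeasurable
  have h := Measure.haarMeasure_unique (Measure.map rho (mu4 : Measure U))
    (⊤ : PositiveCompacts SO3)
  rw [PositiveCompacts.coe_top, measure_univ, one_smul] at h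
  exact h.symm

lemma haar_apply {t : Set SO3} (ht : MeasurableSet t) :
    Measure.haarMeasure (⊤ : PositiveCompacts SO3) t = sph 4 (psi '' (rho ⁻¹' t)) := by
  rw [haar_eq_map, Measure.map_apply rho_meas ht, mu4_apply]

omit [MeasurableSpace SO3] [BorelSpace SO3] in
lemma psi_neg (u : U) : psi (-u) = -psi u := by
  show Quaternion.linearIsometryEquivTuple ((-u : U) : ℍ[ℝ]) = _
  rw [show ((-u : U) : ℍ[ℝ]) = -(u : ℍ[ℝ]) from rfl, map_neg]
  rfl

omit [MeasurableSpace SO3] [BorelSpace SO3] in
lemma sy_psi (g x : U) : sy (psi g) (psi x) = psi (g * x⁻¹ * g) := by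
  rw [psi_sig, sig_apply (norm_psi g), sy]

/-- lower bound -/
theorem lower_SO3 {t : Set SO3} (ht : MeasurableSet t) :
    ∃ γ : SO3, (Measure.haarMeasure (⊤ : PositiveCompacts SO3) t) ^ 2 ≤
      Measure.haarMeasure (⊤ : PositiveCompacts SO3) (t ∩ {A | γ * A⁻¹ * γ ∈ t}) := by
  have hE : MeasurableSet (psi '' (rho ⁻¹' t)) := psi_emb.measurableSet_image.2 (rho_meas ht)
  obtain ⟨g, hg, hgE⟩ := Avg.exists_center hE (by
    intro x
    constructor
    · rintro ⟨u, hu, hux⟩
      refine ⟨-u, ?_, by rw [psi_neg, hux, neg_neg]⟩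
      show rho (-u) ∈ t
      rw [rho_neg]; exact hu
    · rintro ⟨u, hu, rfl⟩
      refine ⟨-u, ?_, by rw [psi_neg]⟩
      show rho (-u) ∈ t
      rw [rho_neg]; exact hu)
  obtain ⟨q, rfl⟩ : ∃ q : U, psi q = g := by
    have : g ∈ range psi := by rw [range_psi]; exact hg
    exact this
  have hmeas : MeasurableSet (t ∩ {A | rho q * A⁻¹ * rho q ∈ t}) := by
    refine ht.inter ?_
    have hc : Continuous fun A : SO3 => rho q * A⁻¹ * rho q :=
      (continuous_const.mul continuous_inv).mul continuous_const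
    exact hc.measurable ht
  refine ⟨rho q, ?_⟩
  rw [haar_apply ht, haar_apply hmeas]
  refine hgE.trans (measure_mono ?_)
  rintro x ⟨⟨u, hu, rfl⟩, hx2⟩
  refine ⟨u, ⟨hu, ?_⟩, rfl⟩
  show rho q * (rho u)⁻¹ * rho q ∈ t
  have hx2' : sy (psi q) (psi u) ∈ psi '' (rho ⁻¹' t) := hx2
  rw [sy_psi] at hx2'
  obtain ⟨v, hv, hvu⟩ := hx2'
  have := psi_injective hvu
  rw [this] at hv
  have hv' : rho (q * u⁻¹ * q) ∈ t := hv
  rwa [rho_mul, rho_mul, rho_inv] at hv'

/-- upper bound -/
theorem upper_SO3 (δ : ℝ) (hδ : 0 < δ) :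
    ∃ χ : SO3 → Fin 2, (∀ i, MeasurableSet (χ ⁻¹' {i})) ∧
      ∀ (B : Set SO3) (i : Fin 2) (γ : SO3), (∀ x ∈ B, χ x = i) →
        B = (fun a => γ * a⁻¹ * γ) '' B →
        Measure.haarMeasure (⊤ : PositiveCompacts SO3) B ≤ ENNReal.ofReal (1 / 4 + δ) := by
  obtain ⟨c, hc, hcev, hcc⟩ := EvenCol.realize_even (d := 4) (by norm_num) (sph 4)
    (sph_sphLike (by norm_num)) δ hδ
  have hp := sph_prob (d := 4) (by norm_num)
  set χ : SO3 → Fin 2 := fun A => if c (psi (rho_surj A).choose) = true then 1 else 0 with hχ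
  have hχu : ∀ u : U, χ (rho u) = if c (psi u) = true then 1 else 0 := by
    intro u
    have h1 := (rho_surj (rho u)).choose_spec
    have h2 : c (psi (rho_surj (rho u)).choose) = c (psi u) := by
      rcases rho_eq h1 with h | h
      · rw [h]
      · rw [h, psi_neg, hcev]
    simp only [hχ, h2]
  have hχm : ∀ i, MeasurableSet (χ ⁻¹' {i}) := by
    intro i
    have : PolishSpace U := (isClosed_sphere (x := (0 : Quaternion ℝ)) (ε := 1)).polishSpace
    rw [← Measurable.measurableSet_preimage_iff_of_surjective rho_meas rho_surj]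
    have h1 : rho ⁻¹' (χ ⁻¹' {i}) = {u : U | (if c (psi u) = true then (1 : Fin 2) else 0) = i} := by
      ext u
      simp only [mem_preimage, mem_singleton_iff, hχu, mem_ofPred_eq]
    rw [h1]
    have h2 : Measurable fun u : U => (if c (psi u) = true then (1 : Fin 2) else 0) := by
      refine Measurable.ite ?_ measurable_const measurable_const
      exact (hc.comp psi_continuous.measurable) (measurableSet_singleton true)
    exact h2 (measurableSet_singleton i)
  refine ⟨χ, hχm, ?_⟩
  intro B i γ hB hBγ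
  obtain ⟨q, rfl⟩ := rho_surj γ
  set C : Set SO3 := χ ⁻¹' {i} ∩ {A | rho q * A⁻¹ * rho q ∈ χ ⁻¹' {i}} with hC
  have hCm : MeasurableSet C := by
    refine (hχm i).inter ?_
    have hc : Continuous fun A : SO3 => rho q * A⁻¹ * rho q :=
      (continuous_const.mul continuous_inv).mul continuous_const
    exact hc.measurable (hχm i)
  have hBC : B ⊆ C := by
    intro x hx
    refine ⟨hB x hx, ?_⟩
    show χ (rho q * x⁻¹ * rho q) = i
    apply hB
    rw [hBγ]
    exact ⟨x, hx, rfl⟩
  refine (measure_mono hBC).trans ?_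
  rw [haar_apply hCm]
  -- the colour as a Bool
  obtain ⟨b, hb⟩ : ∃ b : Bool, ∀ u : U, χ (rho u) = i → c (psi u) = b := by
    by_cases hi1 : i = 1
    · refine ⟨true, fun x hx => ?_⟩
      by_contra h
      rw [hχu] at hx
      simp only [if_neg h, hi1] at hx
      exact absurd hx (by decide)
    · refine ⟨false, fun x hx => ?_⟩
      by_contra h
      have h' : c (psi x) = true := by simpa using h
      rw [hχu] at hx
      simp only [if_pos h'] at hx
      exact hi1 hx.symm
  have hsub : psi '' (rho ⁻¹' C) ⊆ {x | c x = b ∧ c (sig (psi q) x) = b} := by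
    rintro _ ⟨u, ⟨hu1, hu2⟩, rfl⟩
    refine ⟨hb u hu1, ?_⟩
    rw [← psi_sig]
    apply hb
    have hu2' : χ (rho q * (rho u)⁻¹ * rho q) = i := hu2
    rw [rho_mul, rho_mul, rho_inv]
    exact hu2'
  refine (measure_mono hsub).trans ?_
  have h2 := hcc _ (norm_psi q) b
  rw [measureReal_def] at h2
  exact (ENNReal.le_ofReal_iff_toReal_le (measure_ne_top _ _)
    (ENNReal.toReal_nonneg.trans h2)).2 h2

end Pool.Agent.H762R3.Fin3
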