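import Mathlib

set_option autoImplicit false

open Set Filter Topology

namespace Pool.Agent.H762R3.SubA

/-- The subsum `f(ε) = ∑ ε_n x_n`. -/
noncomputable def subsum (x : ℕ → ℝ) (ε : ℕ → Bool) : ℝ := ∑' n, if ε n = true then x n else 0

/-- tails -/
noncomputable def z (n : ℕ) : ℝ := 1 / ((n + 5).factorial : ℝ)

theorem z_pos (n : ℕ) : 0 < z n := by unfold z; positivity

theorem z_succ (n : ℕ) : z n = (n + 6) * z (n + 1) := by
  unfold z
  have h : ((n + 1 + 5).factorial : ℝ) = (n + 6) * ((n + 5).factorial : ℝ) := by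
    rw [show n + 1 + 5 = (n + 5) + 1 by ring, Nat.factorial_succ]
    push_cast
    ring
  rw [h]
  have h1 : ((n + 5).factorial : ℝ) ≠ 0 := by positivity
  have h2 : (n + 6 : ℝ) ≠ 0 := by positivity
  field_simp

/-- the rapidly decreasing sequence -/
noncomputable def y (n : ℕ) : ℝ := z n - z (n + 1)

theorem y_eq (n : ℕ) : y n = (n + 5) * z (n + 1) := by
  unfold y
  rw [z_succ n]; ring

theorem y_pos (n : ℕ) : 0 < y n := by
  rw [y_eq]
  have := z_pos (n + 1)
  positivity

/-- the series -/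
noncomputable def x (n : ℕ) : ℝ := if n % 2 = 0 then z (n / 2) else y (n / 2)

theorem x_even (n : ℕ) : x (2 * n) = z n := by
  unfold x
  simp

theorem x_odd (n : ℕ) : x (2 * n + 1) = y n := by
  unfold x
  rw [if_neg (by omega), show (2 * n + 1) / 2 = n by omega]

theorem x_pos (n : ℕ) : 0 < x n := by
  unfold x
  split_ifs
  · exact z_pos _
  · exact y_pos _

theorem z_le (n : ℕ) : z n ≤ (1 / 2) ^ n := by
  induction n with
  | zero => unfold z; norm_num [Nat.factorial]
  | succ n ih =>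
    have h := z_succ n
    have hp := z_pos (n + 1)
    have hn : (0 : ℝ) ≤ n := Nat.cast_nonneg n
    have : 2 * z (n + 1) ≤ z n := by
      rw [h]; nlinarith
    rw [pow_succ]
    linarith

theorem z_summable : Summable z :=
  Summable.of_nonneg_of_le (fun n => (z_pos n).le) z_le (summable_geometric_of_lt_one (by norm_num) (by norm_num))

theorem y_le_z (n : ℕ) : y n ≤ z n := by
  unfold y
  have := z_pos (n + 1)
  linarith

theorem y_summable : Summable y :=
  Summable.of_nonneg_of_le (fun n => (y_pos n).le) y_le_z z_summable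

theorem x_summable : Summable x := by
  apply Summable.even_add_odd
  · simpa only [x_even] using z_summable
  · simpa only [x_odd] using y_summable

theorem x_strictAnti : StrictAnti x := by
  apply strictAnti_nat_of_succ_lt
  intro n
  rcases Nat.even_or_odd' n with ⟨k, rfl | rfl⟩
  · rw [x_odd, x_even]
    unfold y
    have := z_pos (k + 1)
    linarith
  · rw [x_odd, show 2 * k + 1 + 1 = 2 * (k + 1) by ring, x_even, y_eq]
    have := z_pos (k + 1)
    have hn : (0 : ℝ) ≤ k := Nat.cast_nonneg k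
    nlinarith

/-- numeric value of a digit -/
def b (t : Bool) : ℤ := if t = true then 1 else 0

/-- the number of `1`s among the first `n` even places -/
def P (ε : ℕ → Bool) : ℕ → ℤ
  | 0 => 0
  | n + 1 => P ε n + b (ε (2 * n))

/-- the coefficient of `y j` -/
def c (ε : ℕ → Bool) (j : ℕ) : ℤ := P ε (j + 1) + b (ε (2 * j + 1))

theorem b_nonneg (t : Bool) : 0 ≤ b t := by cases t <;> decide
theorem b_le (t : Bool) : b t ≤ 1 := by cases t <;> decide

theorem P_nonneg (ε : ℕ → Bool) (n : ℕ) : 0 ≤ P ε n := by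
  induction n with
  | zero => simp [P]
  | succ n ih => have := b_nonneg (ε (2 * n)); simp only [P]; omega

theorem P_le (ε : ℕ → Bool) (n : ℕ) : P ε n ≤ n := by
  induction n with
  | zero => simp [P]
  | succ n ih => have := b_le (ε (2 * n)); simp only [P]; push_cast; omega

theorem c_nonneg (ε : ℕ → Bool) (n : ℕ) : 0 ≤ c ε n := by
  have := P_nonneg ε (n + 1)
  have := b_nonneg (ε (2 * n + 1))
  unfold c; omega

theorem c_le (ε : ℕ → Bool) (n : ℕ) : c ε n ≤ n + 2 := by
  have := P_le ε (n + 1)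
  have := b_le (ε (2 * n + 1))
  unfold c; push_cast at *; omega

theorem partial_sum (ε : ℕ → Bool) (N : ℕ) :
    ∑ j ∈ Finset.range N, ((P ε (j + 1) : ℤ) : ℝ) * y j =
      ∑ j ∈ Finset.range N, ((b (ε (2 * j)) : ℤ) : ℝ) * z j - ((P ε N : ℤ) : ℝ) * z N := by
  induction N with
  | zero => simp [P]
  | succ N ih =>
    rw [Finset.sum_range_succ, Finset.sum_range_succ, ih]
    have h : ((P ε (N + 1) : ℤ) : ℝ) = ((P ε N : ℤ) : ℝ) + ((b (ε (2 * N)) : ℤ) : ℝ) := by
      simp only [P]; push_cast; ring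
    rw [h]
    unfold y
    ring

theorem Pz_tendsto (ε : ℕ → Bool) : Tendsto (fun N => ((P ε N : ℤ) : ℝ) * z N) atTop (𝓝 0) := by
  have h1 : Tendsto (fun N : ℕ => z N * 1) atTop (𝓝 0) := by
    simpa using z_summable.tendsto_atTop_zero
  rw [← tendsto_add_atTop_iff_nat 1]
  have hz : Tendsto (fun N : ℕ => z N) atTop (𝓝 0) := z_summable.tendsto_atTop_zero
  refine squeeze_zero ?_ ?_ hz
  · intro N
    have h1 : (0 : ℝ) ≤ ((P ε (N + 1) : ℤ) : ℝ) := by exact_mod_cast P_nonneg ε (N + 1)
    have := z_pos (N + 1)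
    positivity
  · intro N
    have h1 : ((P ε (N + 1) : ℤ) : ℝ) ≤ ((N + 1 : ℕ) : ℝ) := by
      have := P_le ε (N + 1)
      exact_mod_cast this
    have h2 := z_pos (N + 1)
    rw [z_succ N]
    push_cast at h1
    nlinarith

theorem ite_eq (t : Bool) (r : ℝ) : (if t = true then r else 0) = ((b t : ℤ) : ℝ) * r := by
  cases t <;> simp [b]

theorem o_hasSum (ε : ℕ → Bool) : Summable (fun j => ((b (ε (2 * j)) : ℤ) : ℝ) * z j) := by
  refine Summable.of_nonneg_of_le (fun n => ?_) (fun n => ?_) z_summable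
  · have h1 : (0 : ℝ) ≤ ((b (ε (2 * n)) : ℤ) : ℝ) := by exact_mod_cast b_nonneg _
    have := z_pos n
    positivity
  · have h1 : ((b (ε (2 * n)) : ℤ) : ℝ) ≤ 1 := by exact_mod_cast b_le _
    have := z_pos n
    nlinarith

theorem e_hasSum (ε : ℕ → Bool) : Summable (fun j => ((b (ε (2 * j + 1)) : ℤ) : ℝ) * y j) := by
  refine Summable.of_nonneg_of_le (fun n => ?_) (fun n => ?_) y_summable
  · have h1 : (0 : ℝ) ≤ ((b (ε (2 * n + 1)) : ℤ) : ℝ) := by exact_mod_cast b_nonneg _
    have := y_pos n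
    positivity
  · have h1 : ((b (ε (2 * n + 1)) : ℤ) : ℝ) ≤ 1 := by exact_mod_cast b_le _
    have := y_pos n
    nlinarith

theorem P_hasSum (ε : ℕ → Bool) : HasSum (fun j => ((P ε (j + 1) : ℤ) : ℝ) * y j)
    (∑' j, ((b (ε (2 * j)) : ℤ) : ℝ) * z j) := by
  rw [hasSum_iff_tendsto_nat_of_nonneg]
  · simp only [partial_sum]
    have h1 := (o_hasSum ε).hasSum.tendsto_sum_nat
    have h2 := h1.sub (Pz_tendsto ε)
    simpa using h2
  · intro n
    have h1 : (0 : ℝ) ≤ ((P ε (n + 1) : ℤ) : ℝ) := by exact_mod_cast P_nonneg ε (n + 1)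
    have := y_pos n
    positivity

theorem c_hasSum (ε : ℕ → Bool) : HasSum (fun j => ((c ε j : ℤ) : ℝ) * y j) (subsum x ε) := by
  have h1 := (P_hasSum ε).add (e_hasSum ε).hasSum
  have h2 : HasSum (fun n => if ε n = true then x n else 0)
      ((∑' j, ((b (ε (2 * j)) : ℤ) : ℝ) * z j) + ∑' j, ((b (ε (2 * j + 1)) : ℤ) : ℝ) * y j) := by
    apply HasSum.even_add_odd
    · simp only [x_even, ite_eq]
      exact (o_hasSum ε).hasSum
    · simp only [x_odd, ite_eq]
      exact (e_hasSum ε).hasSum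
  have h3 : subsum x ε = (∑' j, ((b (ε (2 * j)) : ℤ) : ℝ) * z j) +
      ∑' j, ((b (ε (2 * j + 1)) : ℤ) : ℝ) * y j := h2.tsum_eq
  rw [h3]
  convert h1 using 1
  funext j
  unfold c
  push_cast
  ring

theorem tail_bound (d : ℕ → ℤ) (hd : ∀ n, |d n| ≤ n + 2) (j M : ℕ) :
    |∑ n ∈ Finset.range M, ((d (n + (j + 1)) : ℤ) : ℝ) * y (n + (j + 1))| ≤ (j + 4) * z (j + 1) := by
  have key : ∀ i : ℕ, |((d i : ℤ) : ℝ) * y i| ≤ (i + 3) * z i - (i + 4) * z (i + 1) := by
    intro i
    have h1 : |((d i : ℤ) : ℝ)| ≤ i + 2 := by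
      have := hd i
      exact_mod_cast this
    rw [abs_mul, abs_of_pos (y_pos i)]
    have h2 : |((d i : ℤ) : ℝ)| * y i ≤ (i + 2) * y i := mul_le_mul_of_nonneg_right h1 (y_pos i).le
    have h3 := z_pos (i + 1)
    have h4 := z_succ i
    have hi : (0 : ℝ) ≤ i := Nat.cast_nonneg i
    unfold y at h2 ⊢
    nlinarith
  have h5 : ∀ M : ℕ, ∑ n ∈ Finset.range M, |((d (n + (j + 1)) : ℤ) : ℝ) * y (n + (j + 1))| ≤
      (j + 4) * z (j + 1) - (M + j + 4) * z (M + j + 1) := by
    intro M
    induction M with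
    | zero => simp
    | succ M ih =>
      rw [Finset.sum_range_succ]
      have h6 := key (M + (j + 1))
      push_cast at h6 ⊢
      rw [show M + (j + 1) + 1 = M + 1 + j + 1 by ring, show M + (j + 1) = M + j + 1 by ring] at h6
      rw [show M + (j + 1) = M + j + 1 by ring]
      linarith
  have h7 := h5 M
  have h8 := Finset.abs_sum_le_sum_abs (fun n => ((d (n + (j + 1)) : ℤ) : ℝ) * y (n + (j + 1))) (Finset.range M)
  have h9 : 0 ≤ ((M : ℝ) + j + 4) * z (M + j + 1) := by
    have := z_pos (M + j + 1)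
    positivity
  linarith

theorem unique (d : ℕ → ℤ) (hd : ∀ n, |d n| ≤ n + 2) (h : HasSum (fun j => ((d j : ℤ) : ℝ) * y j) 0) :
    ∀ j, d j = 0 := by
  intro j
  induction j using Nat.strong_induction_on with
  | _ j ih =>
    have h1 := (hasSum_nat_add_iff' (j + 1)).2 h
    have h2 : ∑ i ∈ Finset.range (j + 1), ((d i : ℤ) : ℝ) * y i = ((d j : ℤ) : ℝ) * y j := by
      rw [Finset.sum_range_succ]
      have : ∑ i ∈ Finset.range j, ((d i : ℤ) : ℝ) * y i = 0 := by
        apply Finset.sum_eq_zero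
        intro i hi
        rw [ih i (Finset.mem_range.1 hi)]
        simp
      rw [this, zero_add]
    rw [h2] at h1
    have h3 := h1.tendsto_sum_nat
    have h4 : |0 - ((d j : ℤ) : ℝ) * y j| ≤ (j + 4) * z (j + 1) :=
      le_of_tendsto h3.abs (Filter.Eventually.of_forall (fun M => tail_bound d hd j M))
    rw [zero_sub, abs_neg, abs_mul, abs_of_pos (y_pos j), y_eq] at h4
    by_contra hne
    have h5 : (1 : ℝ) ≤ |((d j : ℤ) : ℝ)| := by
      have : 1 ≤ |d j| := Int.one_le_abs hne
      exact_mod_cast this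
    have h6 := z_pos (j + 1)
    have hj : (0 : ℝ) ≤ j := Nat.cast_nonneg j
    have h7 : (1 : ℝ) * (((j : ℝ) + 5) * z (j + 1)) ≤ |((d j : ℤ) : ℝ)| * (((j : ℝ) + 5) * z (j + 1)) :=
      mul_le_mul_of_nonneg_right h5 (by positivity)
    nlinarith

theorem subsum_eq_iff (ε ε' : ℕ → Bool) : subsum x ε = subsum x ε' ↔ ∀ j, c ε j = c ε' j := by
  constructor
  · intro h
    have h1 := (c_hasSum ε).sub (c_hasSum ε')
    rw [h, sub_self] at h1
    have h2 : ∀ j, (c ε j - c ε' j) = 0 := by
      apply unique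
      · intro n
        have a1 := c_nonneg ε n
        have a2 := c_nonneg ε' n
        have a3 := c_le ε n
        have a4 := c_le ε' n
        rw [abs_le]
        constructor <;> omega
      · have h3 : (fun j => (((c ε j - c ε' j : ℤ)) : ℝ) * y j) =
            fun j => ((c ε j : ℤ) : ℝ) * y j - ((c ε' j : ℤ) : ℝ) * y j := by
          funext j
          push_cast
          ring
        rw [h3]
        exact h1
    intro j
    have := h2 j
    omega
  · intro h
    have h1 := c_hasSum ε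
    have h2 := c_hasSum ε'
    have : (fun j => ((c ε j : ℤ) : ℝ) * y j) = (fun j => ((c ε' j : ℤ) : ℝ) * y j) := by
      funext j
      rw [h j]
    rw [this] at h1
    exact h1.unique h2

theorem subsum_continuous : Continuous (subsum x) := by
  unfold subsum
  refine continuous_tsum (fun n => ?_) x_summable (fun n ε => ?_)
  · exact (continuous_of_discreteTopology (f := fun t : Bool => if t = true then x n else 0)).comp
      (continuous_apply n)
  · have := x_pos n
    by_cases h : ε n = true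
    · rw [if_pos h, Real.norm_eq_abs, abs_of_pos this]
    · rw [if_neg h, norm_zero]; exact this.le

end Pool.Agent.H762R3.SubA
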