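import Mathlib
import Pool.Agent.H762R3.SubA

set_option autoImplicit false

open Set Filter Topology

namespace Pool.Agent.H762R3.SubB

open Pool.Agent.H762R3.SubA

theorem P_congr (f g : ℕ → Bool) (k : ℕ) (h : ∀ n, n < 2 * k → f n = g n) : P f k = P g k := by
  induction k with
  | zero => rfl
  | succ k ih =>
    simp only [P]
    rw [ih (fun n hn => h n (by omega)), h (2 * k) (by omega)]

theorem P_tail (f g : ℕ → Bool) (k : ℕ) (hk : P f k = P g k) (h : ∀ n, 2 * k ≤ n → f n = g n) (j : ℕ)
    (hj : k ≤ j) : P f j = P g j := by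
  induction j, hj using Nat.le_induction with
  | base => exact hk
  | succ j hj ih =>
    simp only [P]
    rw [ih, h (2 * j) (by omega)]

/-- gluing of two sequences with the same coefficients -/
theorem glue (f g h : ℕ → Bool) (hc : ∀ i, c f i = c g i) (j : ℕ) (h1 : ∀ n, n < 2 * j → h n = g n)
    (h2 : ∀ n, 2 * j < n → h n = f n) (hP : P h (j + 1) = P f (j + 1)) : ∀ i, c h i = c g i := by
  intro i
  rcases lt_or_ge i j with hi | hi
  · unfold c
    rw [P_congr h g (i + 1) (fun n hn => h1 n (by omega)), h1 (2 * i + 1) (by omega)]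
  · rw [← hc i]
    unfold c
    rw [P_tail h f (j + 1) hP (fun n hn => h2 n (by omega)) (i + 1) (by omega), h2 (2 * i + 1) (by omega)]

/-- eventually `2`-periodic sequences -/
def EP : Set (ℕ → Bool) := {ε | ∃ N, ∀ n, N ≤ n → ε (n + 2) = ε n}

theorem EP_countable : EP.Countable := by
  have : EP = ⋃ N, {ε : ℕ → Bool | ∀ n, N ≤ n → ε (n + 2) = ε n} := by
    ext ε
    simp [EP]
  rw [this]
  apply Set.countable_iUnion
  intro N
  apply Set.Finite.countable
  apply Set.Finite.of_injOn (f := fun (ε : ℕ → Bool) (i : Fin (N + 2)) => ε i) (t := Set.univ)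
    (fun _ _ => Set.mem_univ _) _ Set.finite_univ
  intro ε hε ε' hε' heq
  funext n
  induction n using Nat.strong_induction_on with
  | _ n ih =>
    rcases lt_or_ge n (N + 2) with hn | hn
    · exact congrFun heq ⟨n, hn⟩
    · obtain ⟨m, rfl⟩ : ∃ m, n = m + 2 := ⟨n - 2, by omega⟩
      have e1 := hε m (by omega)
      have e2 := hε' m (by omega)
      have e3 := ih m (by omega)
      rw [e1, e2, e3]

/-- the fibre -/
def fib (t : ℝ) : Set (ℕ → Bool) := {ε | subsum x ε = t}

theorem fib_closed (t : ℝ) : IsClosed (fib t) :=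
  isClosed_eq subsum_continuous continuous_const

theorem not_countable_cantor : ¬ Countable (ℕ → Bool) := by
  have h4 : Cardinal.mk (ℕ → Bool) = Cardinal.continuum := by simp
  intro h
  have h3 : Cardinal.mk (ℕ → Bool) ≤ Cardinal.aleph0 := Cardinal.mk_le_aleph0_iff.2 h
  rw [h4] at h3
  exact absurd h3 (not_le.2 Cardinal.aleph0_lt_continuum)

theorem exists_isolated (t : ℝ) (hne : (fib t).Nonempty) (hc : (fib t).Countable) :
    ∃ g ∈ fib t, ∃ N, 1 ≤ N ∧ ∀ f ∈ fib t, (∀ n, n < 2 * N → f n = g n) → f = g := by
  by_contra hcon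
  push Not at hcon
  have hperf : Perfect (fib t) := by
    refine ⟨fib_closed t, ?_⟩
    intro g hg
    rw [accPt_iff_nhds]
    intro U hU
    rw [nhds_pi, Filter.mem_pi] at hU
    obtain ⟨I, hI, s, hs, hsub⟩ := hU
    obtain ⟨N, hN⟩ := hI.bddAbove
    obtain ⟨f, hf, hfg, hne'⟩ := hcon g hg (N + 1) (by omega)
    refine ⟨f, ⟨hsub ?_, hf⟩, hne'⟩
    intro i hi
    have : i ≤ N := hN hi
    rw [hfg i (by omega)]
    exact mem_of_mem_nhds (hs i)
  let _ := TopologicalSpace.upgradeIsCompletelyMetrizable (ℕ → Bool)
  obtain ⟨φ, hφ, -, hinj⟩ := hperf.exists_nat_bool_injection hne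
  have h1 : (Set.range φ).Countable := hc.mono hφ
  have h2 : Countable (ℕ → Bool) := by
    have : (Set.univ : Set (ℕ → Bool)).Countable := by
      rw [← Set.image_univ] at h1
      exact Set.countable_of_injective_of_countable_image (hinj.injOn) h1
    exact Set.countable_univ_iff.1 this
  exact not_countable_cantor h2

theorem b_not (a : Bool) : b (!a) = 1 - b a := by cases a <;> decide

theorem b_inj (a a' : Bool) (h : b a = b a') : a = a' := by
  revert h; cases a <;> cases a' <;> decide

theorem isolated_EP (t : ℝ) (hinf : (fib t).Infinite) (g : ℕ → Bool) (hg : g ∈ fib t) (N : ℕ) (hN : 1 ≤ N)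
    (hiso : ∀ f ∈ fib t, (∀ n, n < 2 * N → f n = g n) → f = g) : g ∈ EP := by
  have hcc : ∀ f ∈ fib t, ∀ i, c f i = c g i := by
    intro f hf
    rw [← subsum_eq_iff]
    have h1 : subsum x f = t := hf
    have h2 : subsum x g = t := hg
    rw [h1, h2]
  have hmem : ∀ f, (∀ i, c f i = c g i) → f ∈ fib t := by
    intro f hf
    have h2 : subsum x g = t := hg
    have h1 := (subsum_eq_iff f g).2 hf
    show subsum x f = t
    rw [h1, h2]
  -- Claim 1
  have claim1 : ∀ f ∈ fib t, ∀ k, N ≤ k → P f k = P g k → ∀ n, 2 * k ≤ n → f n = g n := by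
    intro f hf k hk hP n hn
    let h : ℕ → Bool := fun n => if n < 2 * k then g n else f n
    have hh : h ∈ fib t := by
      apply hmem
      apply glue f g h (hcc f hf) k
      · intro n hn; simp only [h, if_pos hn]
      · intro n hn; simp only [h, if_neg (show ¬ n < 2 * k by omega)]
      · simp only [P]
        have : P h k = P g k := P_congr h g k (fun n hn => by simp only [h, if_pos hn])
        rw [this, hP]
        simp [h]
    have h1 := hiso h hh (fun n hn => by simp only [h, if_pos (show n < 2 * k by omega)])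
    have h2 := congrFun h1 n
    simp only [h, if_neg (show ¬ n < 2 * k by omega)] at h2
    exact h2
  -- Claim 2
  have claim2 : ∀ M, ∃ f ∈ fib t, ∃ n, 2 * M ≤ n ∧ f n ≠ g n := by
    intro M
    by_contra hcon
    push Not at hcon
    apply hinf
    apply Set.Finite.of_injOn (f := fun (ε : ℕ → Bool) (i : Fin (2 * M)) => ε i) (t := Set.univ)
      (fun _ _ => Set.mem_univ _) _ Set.finite_univ
    intro ε hε ε' hε' heq
    funext n
    rcases lt_or_ge n (2 * M) with hn | hn
    · exact congrFun heq ⟨n, hn⟩
    · rw [hcon ε hε n hn, hcon ε' hε' n hn]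
  -- the main step
  have main : ∀ j, N ≤ j → g (2 * j + 1) = g (2 * j - 1) ∧ g (2 * j) = g (2 * j + 1) := by
    intro j hj
    obtain ⟨f, hf, n, hn, hfn⟩ := claim2 (j + 1)
    have hP1 : P f j ≠ P g j := fun h => hfn (claim1 f hf j hj h n (by omega))
    have hP2 : P f (j + 1) ≠ P g (j + 1) := fun h => hfn (claim1 f hf (j + 1) (by omega) h n (by omega))
    have hc0 : c f (j - 1) = c g (j - 1) := hcc f hf (j - 1)
    have hc1 : c f j = c g j := hcc f hf j
    unfold c at hc0 hc1
    rw [show j - 1 + 1 = j by omega, show 2 * (j - 1) + 1 = 2 * j - 1 by omega] at hc0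
    have e0 : f (2 * j - 1) = ! g (2 * j - 1) := by
      cases h1 : f (2 * j - 1) <;> cases h2 : g (2 * j - 1) <;> first | rfl | (exfalso; apply hP1; rw [h1, h2] at hc0; omega)
    have e1 : f (2 * j + 1) = ! g (2 * j + 1) := by
      cases h1 : f (2 * j + 1) <;> cases h2 : g (2 * j + 1) <;> first | rfl | (exfalso; apply hP2; rw [h1, h2] at hc1; omega)
    rw [e0, b_not] at hc0
    rw [e1, b_not] at hc1
    have hPf : P f (j + 1) = P f j + b (f (2 * j)) := rfl
    have hPg : P g (j + 1) = P g j + b (g (2 * j)) := rfl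
    have b1 := b_nonneg (f (2 * j))
    have b2 := b_le (f (2 * j))
    have b3 := b_nonneg (g (2 * j))
    have b4 := b_le (g (2 * j))
    have b5 := b_nonneg (g (2 * j - 1))
    have b6 := b_le (g (2 * j - 1))
    have b7 := b_nonneg (g (2 * j + 1))
    have b8 := b_le (g (2 * j + 1))
    have haa : g (2 * j + 1) = g (2 * j - 1) := by
      apply b_inj
      omega
    refine ⟨haa, ?_⟩
    by_contra hne
    have e2 : g (2 * j) = ! g (2 * j + 1) := by
      cases h1 : g (2 * j) <;> cases h2 : g (2 * j + 1) <;> simp_all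
    let h : ℕ → Bool := fun n => if n < 2 * j then g n else if n = 2 * j then ! g (2 * j) else f n
    have hh : h ∈ fib t := by
      apply hmem
      apply glue f g h (hcc f hf) j
      · intro n hn; simp only [h, if_pos hn]
      · intro n hn
        simp only [h, if_neg (show ¬ n < 2 * j by omega), if_neg (show ¬ n = 2 * j by omega)]
      · have h1 : P h (j + 1) = P h j + b (h (2 * j)) := rfl
        have h2 : P h j = P g j := P_congr h g j (fun n hn => by simp only [h, if_pos hn])
        have h3 : h (2 * j) = ! g (2 * j) := by simp [h]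
        rw [h1, h2, h3, b_not]
        have h4 : b (g (2 * j)) = 1 - b (g (2 * j + 1)) := by rw [e2, b_not]
        omega
    have h1 := hiso h hh (fun n hn => by simp only [h, if_pos (show n < 2 * j by omega)])
    have h2 := congrFun h1 (2 * j)
    simp [h] at h2
  refine ⟨2 * N, ?_⟩
  intro n hn
  rcases Nat.even_or_odd' n with ⟨j, rfl | rfl⟩
  · have m1 := main j (by omega)
    have m2 := main (j + 1) (by omega)
    rw [show 2 * (j + 1) + 1 = 2 * j + 3 by ring, show 2 * (j + 1) - 1 = 2 * j + 1 by omega,
      show 2 * (j + 1) = 2 * j + 2 by ring] at m2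
    rw [m2.2, m2.1, m1.2]
  · have m2 := main (j + 1) (by omega)
    rw [show 2 * (j + 1) + 1 = 2 * j + 3 by ring, show 2 * (j + 1) - 1 = 2 * j + 1 by omega] at m2
    exact m2.1

/-- the special subsum -/
noncomputable def t0 : ℝ := z 0

/-- its representations -/
def rep (m : ℕ) : ℕ → Bool := fun n => decide (n = 2 * m) || (decide (n < 2 * m) && decide (n % 2 = 1))

theorem P_rep (m j : ℕ) : P (rep m) j = if m < j then 1 else 0 := by
  induction j with
  | zero => simp [P]
  | succ j ih =>
    simp only [P, ih]
    have : rep m (2 * j) = decide (j = m) := by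
      unfold rep
      by_cases h : j = m
      · simp [h]
      · simp [h]
    rw [this]
    unfold b
    by_cases h : j = m
    · subst h; simp
    · by_cases h2 : m < j
      · simp [h, h2, show m < j + 1 by omega]
      · simp [h, h2, show ¬ m < j + 1 by omega]

theorem c_rep (m j : ℕ) : c (rep m) j = 1 := by
  unfold c
  rw [P_rep]
  have : rep m (2 * j + 1) = decide (j < m) := by
    unfold rep
    by_cases h : j < m
    · simp [h, show 2 * j + 1 < 2 * m by omega]
    · simp [h, show ¬ 2 * j + 1 < 2 * m by omega, show ¬ (2 * j + 1 = 2 * m) by omega]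
  rw [this]
  unfold b
  by_cases h : j < m
  · simp [h, show ¬ m < j + 1 by omega]
  · simp [h, show m < j + 1 by omega]

theorem rep_injective : Function.Injective rep := by
  intro m m' h
  have h1 := congrFun h (2 * m)
  have h2 := congrFun h (2 * m')
  simp [rep] at h1 h2
  omega

theorem fib_rep_infinite : (fib (subsum x (rep 0))).Infinite := by
  have : Set.range rep ⊆ fib (subsum x (rep 0)) := by
    rintro _ ⟨m, rfl⟩
    show subsum x (rep m) = subsum x (rep 0)
    rw [subsum_eq_iff]
    intro j
    rw [c_rep, c_rep]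
  exact (Set.infinite_range_of_injective rep_injective).mono this

theorem fib_rep_EP : fib (subsum x (rep 0)) ⊆ EP := by
  intro ε hε
  have hc : ∀ j, c ε j = 1 := by
    intro j
    rw [(subsum_eq_iff ε (rep 0)).1 hε j, c_rep]
  by_cases h : ∃ J, P ε J = 1
  · obtain ⟨J, hJ⟩ := h
    have hP : ∀ j, J ≤ j → P ε j = 1 := by
      intro j hj
      induction j, hj using Nat.le_induction with
      | base => exact hJ
      | succ j hj ih =>
        have h1 := hc j
        unfold c at h1
        have h2 : P ε (j + 1) = P ε j + b (ε (2 * j)) := rfl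
        have h3 := b_nonneg (ε (2 * j))
        have h4 := b_nonneg (ε (2 * j + 1))
        omega
    refine ⟨2 * J, ?_⟩
    have hz : ∀ n, 2 * J ≤ n → ε n = false := by
      intro n hn
      rcases Nat.even_or_odd' n with ⟨j, rfl | rfl⟩
      · have h1 : P ε (j + 1) = P ε j + b (ε (2 * j)) := rfl
        rw [hP j (by omega), hP (j + 1) (by omega)] at h1
        apply b_inj
        have : b false = 0 := by decide
        omega
      · have h1 := hc j
        unfold c at h1
        rw [hP (j + 1) (by omega)] at h1
        apply b_inj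
        have : b false = 0 := by decide
        omega
    intro n hn
    rw [hz n hn, hz (n + 2) (by omega)]
  · push Not at h
    have hP : ∀ j, P ε j = 0 := by
      intro j
      induction j with
      | zero => rfl
      | succ j ih =>
        have h2 : P ε (j + 1) = P ε j + b (ε (2 * j)) := rfl
        have h3 := b_nonneg (ε (2 * j))
        have h4 := b_le (ε (2 * j))
        have h5 := h (j + 1)
        omega
    refine ⟨0, ?_⟩
    intro n _
    rcases Nat.even_or_odd' n with ⟨j, rfl | rfl⟩
    · apply b_inj
      have h1 : P ε (j + 1) = P ε j + b (ε (2 * j)) := rfl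
      have h2 : P ε (j + 1 + 1) = P ε (j + 1) + b (ε (2 * (j + 1))) := rfl
      rw [hP] at h1 h2
      rw [hP] at h1 h2
      rw [show 2 * j + 2 = 2 * (j + 1) by ring]
      omega
    · apply b_inj
      have h1 := hc j
      have h2 := hc (j + 1)
      unfold c at h1 h2
      rw [hP] at h1 h2
      rw [show 2 * j + 1 + 2 = 2 * (j + 1) + 1 by ring]
      omega

end Pool.Agent.H762R3.SubB
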